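import Pool.Agent.Lib.MP_cf0da3_ag.Det.Defs

/-! Bihomogeneous forms. -/

namespace Pool.Agent.Lib.MP_cf0da3_ag.Det

open Submodule Module MvPolynomial Matrix

variable {K U Z : Type} [Field K]

theorem xs_mem (i : U) : xs K U Z i ∈ BH K U Z 1 0 :=
  isWeightedHomogeneous_X K (wt U Z) (Sum.inl i)

theorem zs_mem (l : Z) : zs K U Z l ∈ BH K U Z 0 1 :=
  isWeightedHomogeneous_X K (wt U Z) (Sum.inr l)

theorem bh_mul {p q p' q' : ℕ} {f g : MvPolynomial (U ⊕ Z) K} (hf : f ∈ BH K U Z p q)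
    (hg : g ∈ BH K U Z p' q') : f * g ∈ BH K U Z (p + p') (q + q') :=
  IsWeightedHomogeneous.mul hf hg

theorem bh_pow {p q : ℕ} {f : MvPolynomial (U ⊕ Z) K} (hf : f ∈ BH K U Z p q) (n : ℕ) :
    f ^ n ∈ BH K U Z (n * p) (n * q) := by
  induction n with
  | zero =>
    rw [pow_zero, zero_mul, zero_mul]
    exact isWeightedHomogeneous_one K (wt U Z)
  | succ n ih =>
    rw [pow_succ, add_mul, add_mul, one_mul, one_mul]
    exact bh_mul ih hf

theorem ba_pow_le {a b : ℕ} {I : Submodule K (MvPolynomial (U ⊕ Z) K)} (h : I ≤ BH K U Z a b)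
    (n : ℕ) : I ^ n ≤ BH K U Z (n * a) (n * b) := by
  induction n with
  | zero =>
    rw [pow_zero, zero_mul, zero_mul, Submodule.one_le]
    exact isWeightedHomogeneous_one K (wt U Z)
  | succ n ih =>
    rw [pow_succ, add_mul, add_mul, one_mul, one_mul]
    exact mul_le.2 fun f hf g hg => bh_mul (ih hf) (h hg)

theorem ba_mono (d : U ⊕ Z →₀ ℕ) : (monomial d (1 : K)) ∈
    sp K (xs K U Z) ^ (Finsupp.weight (wt U Z) d).1 *
      sp K (zs K U Z) ^ (Finsupp.weight (wt U Z) d).2 := by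
  induction d using Finsupp.induction_linear with
  | zero => simp [Submodule.one_le.1 le_rfl]
  | add d e hd he =>
    rw [map_add, Prod.fst_add, Prod.snd_add, pow_add, pow_add, mul_mul_mul_comm,
      ← one_mul (1 : K), ← monomial_mul]
    exact mul_mem_mul hd he
  | single s n =>
    rw [← X_pow_eq_monomial, Finsupp.weight_single]
    rcases s with i | l
    · simpa [wt] using pow_mem_pow (sp K (xs K U Z)) (subset_span ⟨i, rfl⟩) n
    · simpa [wt] using pow_mem_pow (sp K (zs K U Z)) (subset_span ⟨l, rfl⟩) n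

theorem bh_eq (p q : ℕ) : BH K U Z p q = sp K (xs K U Z) ^ p * sp K (zs K U Z) ^ q := by
  refine le_antisymm (fun f hf => ?_) (mul_le.2 fun f hf g hg => ?_)
  · rw [f.as_sum]
    refine sum_mem fun d hd => ?_
    have h1 := ba_mono (K := K) d
    rw [hf (mem_support_iff.1 hd)] at h1
    have h2 := smul_mem _ (coeff d f) h1
    rwa [smul_monomial, smul_eq_mul, mul_one] at h2
  · have h1 := ba_pow_le (span_le.2 (by rintro _ ⟨i, rfl⟩; exact xs_mem i)) p hf
    have h2 := ba_pow_le (span_le.2 (by rintro _ ⟨i, rfl⟩; exact zs_mem i)) q hg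
    simpa using bh_mul h1 h2

theorem rename_inl_mem {p : ℕ} {f : MvPolynomial U K} (hf : f.IsHomogeneous p) :
    rename Sum.inl f ∈ BH K U Z p 0 := by
  rw [f.as_sum, map_sum]
  refine sum_mem fun d hd => ?_
  rw [rename_monomial]
  refine isWeightedHomogeneous_monomial _ _ _ ?_
  rw [← hf (mem_support_iff.1 hd), Finsupp.weight_apply, Finsupp.weight_apply,
    Finsupp.sum_mapDomain_index (by simp) (fun _ _ _ => add_smul _ _ _)]
  simp [Finsupp.sum, wt, Prod.ext_iff, Prod.fst_sum, Prod.snd_sum]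

end Pool.Agent.Lib.MP_cf0da3_ag.Det
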