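import Pool.Agent.Lib.MP_cf0da3_ag.Det.BA

/-! Bihomogeneous components. -/

namespace Pool.Agent.Lib.MP_cf0da3_ag.Det

open Submodule Module MvPolynomial Matrix

variable {K U Z : Type} [Field K]

theorem pr_mem (p q : ℕ) (f : MvPolynomial (U ⊕ Z) K) : pr K U Z p q f ∈ BH K U Z p q := by
  exact weightedHomogeneousComponent_mem _ _ _

theorem pr_self {p q : ℕ} {f : MvPolynomial (U ⊕ Z) K} (hf : f ∈ BH K U Z p q) :
    pr K U Z p q f = f := by
  classical
  rw [weightedHomogeneousComponent_of_mem hf, if_pos rfl]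

theorem pr_ne {p q p' q' : ℕ} {f : MvPolynomial (U ⊕ Z) K} (hf : f ∈ BH K U Z p q)
    (h : p ≠ p') : pr K U Z p' q' f = 0 := by
  classical
  rw [weightedHomogeneousComponent_of_mem hf, if_neg fun e => h (congrArg Prod.fst e).symm]

theorem pr_mul {a b : ℕ} {f : MvPolynomial (U ⊕ Z) K} (hf : f ∈ BH K U Z a b) (p q : ℕ)
    (g : MvPolynomial (U ⊕ Z) K) : pr K U Z (a + p) (b + q) (f * g) = f * pr K U Z p q g := by
  classical
  let _ := weightedGradedAlgebra K (wt U Z)
  have := DirectSum.coe_decompose_mul_add_of_left_mem (weightedHomogeneousSubmodule K (wt U Z))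
    (b := g) (j := (p, q)) hf
  exact (weightedDecomposition.decompose'_apply K (wt U Z) (f * g) _).symm.trans
    (this.trans (congrArg _ (weightedDecomposition.decompose'_apply K (wt U Z) g _)))

theorem im_homog {J ι : Type} [Fintype J] [Fintype ι] [DecidableEq ι]
    {T : J → Matrix ι ι (MvPolynomial (U ⊕ Z) K)} (hT : ∀ j a b, T j a b ∈ BH K U Z 1 1)
    {x : ι → MvPolynomial (U ⊕ Z) K} (hx : x ∈ im T) (p q : ℕ) :
    ∃ w : J → ι → MvPolynomial (U ⊕ Z) K, (∀ j, w j ∈ VB ι (BH K U Z p q)) ∧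
      (fun i => pr K U Z (p + 1) (q + 1) (x i)) = ∑ j, T j *ᵥ w j := by
  obtain ⟨w, rfl⟩ := hx
  refine ⟨fun j i => pr K U Z p q (w j i), fun j i _ => pr_mem p q _, funext fun i => ?_⟩
  simp only [Finset.sum_apply, mulVec, dotProduct, map_sum]
  refine Finset.sum_congr rfl fun j _ => Finset.sum_congr rfl fun c _ => ?_
  rw [add_comm p, add_comm q, pr_mul (hT j i c)]

end Pool.Agent.Lib.MP_cf0da3_ag.Det
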