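import Pool.Agent.Lib.MP_cf0da3_ag.Det.BA

/-! The monomial basis in bidegree `(0, q)`. -/

namespace Pool.Agent.Lib.MP_cf0da3_ag.Det

open Submodule Module MvPolynomial Matrix

theorem bc_wt_inr {U Z : Type} (d : Z →₀ ℕ) :
    Finsupp.weight (wt U Z) (d.mapDomain Sum.inr) = (0, d.sum fun _ x => x) := by
  induction d using Finsupp.induction_linear with
  | zero => simp [Prod.ext_iff]
  | add f g hf hg =>
    rw [Finsupp.mapDomain_add, map_add, hf, hg, Finsupp.sum_add_index' (fun _ => rfl)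
      (fun _ _ _ => rfl)]
    simp
  | single a n => simp [Finsupp.mapDomain_single, Finsupp.weight_single, wt]

theorem bc_wt_inl {U Z : Type} (d : U →₀ ℕ) :
    Finsupp.weight (wt U Z) (d.mapDomain Sum.inl) = (d.sum fun _ x => x, 0) := by
  induction d using Finsupp.induction_linear with
  | zero => simp [Prod.ext_iff]
  | add f g hf hg =>
    rw [Finsupp.mapDomain_add, map_add, hf, hg, Finsupp.sum_add_index' (fun _ => rfl)
      (fun _ _ _ => rfl)]
    simp
  | single a n => simp [Finsupp.mapDomain_single, Finsupp.weight_single, wt]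

theorem bc_ex {U Z : Type} {q : ℕ} {e : U ⊕ Z →₀ ℕ} (he : Finsupp.weight (wt U Z) e = (0, q)) :
    ∃ d : Z →₀ ℕ, (d.sum fun _ x => x) = q ∧ e = d.mapDomain Sum.inr := by
  have h := Finsupp.comapDomain_sumElim_comapDomain e
  rw [Finsupp.sumElim_eq_add] at h
  generalize Finsupp.comapDomain Sum.inl e Sum.inl_injective.injOn = a at h
  generalize Finsupp.comapDomain Sum.inr e Sum.inr_injective.injOn = d at h
  subst h
  rw [map_add, bc_wt_inl, bc_wt_inr, Prod.mk_add_mk, add_zero, zero_add, Prod.mk.injEq] at he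
  have ha : a = 0 := by
    ext i
    by_contra hi
    have h1 : i ∈ a.support := Finsupp.mem_support_iff.2 hi
    exact hi (Finset.sum_eq_zero_iff.1 he.1 i h1)
  exact ⟨d, he.2, by rw [ha, Finsupp.mapDomain_zero, zero_add]⟩

variable {K U Z ι : Type} [Field K] [Fintype ι] [DecidableEq ι] [Fintype Z] [DecidableEq Z] {q : ℕ}

theorem bc_coeff (c : Ix ι Z q → K) (b : Ix ι Z q) :
    coeff (b.2.1.mapDomain Sum.inr) ((∑ b', c b' • vb K U b') b.1) = c b := by
  classical
  rw [Finset.sum_apply, coeff_sum, Finset.sum_eq_single b]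
  · simp [vb, rename_monomial]
  · intro b' _ hb
    rw [Pi.smul_apply, coeff_smul]
    by_cases h1 : b'.1 = b.1
    · have h2 : b'.2.1 ≠ b.2.1 := fun h => hb (Prod.ext h1 (Subtype.ext h))
      rw [vb, h1, Pi.single_eq_same, rename_monomial, coeff_monomial,
        if_neg (fun h => h2 (Finsupp.mapDomain_injective Sum.inr_injective h)), smul_zero]
    · rw [vb, Pi.single_eq_of_ne (Ne.symm h1), coeff_zero, smul_zero]
  · intro h
    exact absurd (Finset.mem_univ b) h

theorem vb_mem (b : Ix ι Z q) : vb K U b ∈ VB ι (BH K U Z 0 q) := by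
  intro i _
  by_cases h : i = b.1
  · rw [vb, h, Pi.single_eq_same, rename_monomial]
    refine isWeightedHomogeneous_monomial _ _ _ ?_
    rw [bc_wt_inr, (Finset.mem_finsuppAntidiag'.1 b.2.2).1]
  · rw [vb, Pi.single_eq_of_ne h]
    exact Submodule.zero_mem _

theorem vb_span {x : ι → MvPolynomial (U ⊕ Z) K} (hx : x ∈ VB ι (BH K U Z 0 q)) :
    ∃ c : Ix ι Z q → K, x = ∑ b, c b • vb K U b := by
  refine ⟨fun b => coeff (b.2.1.mapDomain Sum.inr) (x b.1), ?_⟩
  have hy : (∑ b : Ix ι Z q, coeff (b.2.1.mapDomain Sum.inr) (x b.1) • vb K U b) ∈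
      VB ι (BH K U Z 0 q) := Submodule.sum_mem _ fun b _ => Submodule.smul_mem _ _ (vb_mem b)
  funext i
  ext e
  by_cases he : Finsupp.weight (wt U Z) e = (0, q)
  · obtain ⟨d, hd, rfl⟩ := bc_ex he
    exact (bc_coeff (U := U) (fun b : Ix ι Z q => coeff (b.2.1.mapDomain Sum.inr) (x b.1))
      (i, ⟨d, Finset.mem_finsuppAntidiag'.2 ⟨hd, Finset.subset_univ _⟩⟩)).symm
  · have h1 : IsWeightedHomogeneous (wt U Z) (x i) (0, q) := hx i (Set.mem_univ i)
    have h2 := hy i (Set.mem_univ i)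
    rw [h1.coeff_eq_zero e he]
    exact (IsWeightedHomogeneous.coeff_eq_zero h2 e he).symm

theorem vb_indep {c : Ix ι Z q → K} (h : ∑ b, c b • vb K U b = 0) : c = 0 := by
  funext b
  rw [← bc_coeff (U := U) c b, h]
  simp

theorem vb_map {K' U' : Type} [Field K'] (φ : MvPolynomial (U ⊕ Z) K →+* MvPolynomial (U' ⊕ Z) K')
    (hφ : ∀ l, φ (zs K U Z l) = zs K' U' Z l) (b : Ix ι Z q) :
    (fun i => φ (vb K U b i)) = vb K' U' b := by
  funext i
  by_cases h : i = b.1
  · rw [vb, vb, h, Pi.single_eq_same, Pi.single_eq_same, monomial_eq, monomial_eq, C_1, C_1,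
      one_mul, one_mul, Finsupp.prod, Finsupp.prod, map_prod, map_prod, map_prod]
    refine Finset.prod_congr rfl fun l _ => ?_
    rw [map_pow, map_pow, map_pow, rename_X, rename_X]
    exact congrArg (· ^ _) (hφ l)
  · rw [vb, vb, Pi.single_eq_of_ne h, Pi.single_eq_of_ne h, map_zero]

theorem ix_nonempty [Nonempty ι] [Nonempty Z] : Nonempty (Ix ι Z q) := by
  obtain ⟨i⟩ := ‹Nonempty ι›
  obtain ⟨l⟩ := ‹Nonempty Z›
  exact ⟨(i, ⟨Finsupp.single l q, Finset.mem_finsuppAntidiag'.2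
    ⟨by simp, Finset.subset_univ _⟩⟩)⟩

end Pool.Agent.Lib.MP_cf0da3_ag.Det
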