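import Pool.Agent.Lib.MP_cf0da3_ag.Det.Defs

/-! Counting monomials. -/

namespace Pool.Agent.Lib.MP_cf0da3_ag.Det

open Submodule Module MvPolynomial Matrix

theorem cnt_supp (K : Type) [Field K] {σ T : Type} [Fintype T] {s : Set (σ →₀ ℕ)} (e : s ≃ T) :
    (restrictSupport K s).FG ∧ finrank K (restrictSupport K s) = Fintype.card T :=
  ⟨Module.Finite.iff_fg.1 (Module.Finite.of_basis ((basisRestrictSupport K s).reindex e)),
    finrank_eq_card_basis ((basisRestrictSupport K s).reindex e)⟩

theorem cnt_homog (K σ : Type) [Field K] [Fintype σ] (p : ℕ) :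
    (homogeneousSubmodule σ K p).FG ∧
      finrank K (homogeneousSubmodule σ K p) = (Fintype.card σ).multichoose p := by
  classical
  have h := cnt_supp K (s := {d : σ →₀ ℕ | d.degree = p})
    (T := Finset.finsuppAntidiag (Finset.univ : Finset σ) p)
    (Equiv.subtypeEquivRight fun d => by simp [Finsupp.degree_eq_sum])
  rw [Fintype.card_coe, Finset.card_finsuppAntidiag_nat_eq_multichoose, Finset.card_univ] at h
  rw [homogeneousSubmodule_eq_finsupp_supported]
  exact h

theorem cnt_bh (K U Z : Type) [Field K] [Fintype U] [Fintype Z] (p q : ℕ) :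
    (BH K U Z p q).FG ∧ finrank K (BH K U Z p q) =
      (Fintype.card U).multichoose p * (Fintype.card Z).multichoose q := by
  classical
  have h := cnt_supp K (s := {d : U ⊕ Z →₀ ℕ | Finsupp.weight (wt U Z) d = (p, q)})
    (T := Finset.finsuppAntidiag (Finset.univ : Finset U) p ×
      Finset.finsuppAntidiag (Finset.univ : Finset Z) q)
    ((Finsupp.sumFinsuppEquivProdFinsupp.subtypeEquiv fun d => by
      simp [Finsupp.weight_eq_sum, Prod.ext_iff, Prod.fst_sum, Prod.snd_sum, wt]).trans
      Equiv.subtypeProdEquivProd)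
  rw [Fintype.card_prod, Fintype.card_coe, Fintype.card_coe,
    Finset.card_finsuppAntidiag_nat_eq_multichoose, Finset.card_finsuppAntidiag_nat_eq_multichoose,
    Finset.card_univ, Finset.card_univ] at h
  rw [BH, weightedHomogeneousSubmodule_eq_finsupp_supported]
  exact h

theorem homog_fg (K σ : Type) [Field K] [Fintype σ] (p : ℕ) :
    (homogeneousSubmodule σ K p).FG := by
  exact (cnt_homog K σ p).1

theorem homog_finrank (K σ : Type) [Field K] [Fintype σ] (p : ℕ) :
    finrank K (homogeneousSubmodule σ K p) = (Fintype.card σ).multichoose p := by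
  exact (cnt_homog K σ p).2

theorem bh_fg (K U Z : Type) [Field K] [Fintype U] [Fintype Z] (p q : ℕ) : (BH K U Z p q).FG := by
  exact (cnt_bh K U Z p q).1

theorem bh_finrank (K U Z : Type) [Field K] [Fintype U] [Fintype Z] (p q : ℕ) :
    finrank K (BH K U Z p q) =
      (Fintype.card U).multichoose p * (Fintype.card Z).multichoose q := by
  exact (cnt_bh K U Z p q).2

end Pool.Agent.Lib.MP_cf0da3_ag.Det
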