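import Pool.Agent.Lib.MP_cf0da3_ag.Det.Defs

/-! The Dedekind-Mertens lemma. -/

namespace Pool.Agent.Lib.MP_cf0da3_ag.Det

open Submodule Module MvPolynomial Matrix

variable {K R : Type} [Field K] [CommRing R] [Algebra K R]

theorem dm_mem (f : Polynomial R) (i : ℕ) : f.coeff i ∈ sp K f.coeff := subset_span ⟨i, rfl⟩

theorem dm_le {f : Polynomial R} {M : Submodule K R} (h : ∀ i, f.coeff i ∈ M) :
    sp K f.coeff ≤ M := span_le.2 (Set.range_subset_iff.2 h)

theorem dm_pow {A B M : Submodule K R} (hA : A ≤ M) (h : M ≤ A ⊔ B) (j : ℕ) :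
    M ^ (j + 1) ≤ A ^ (j + 1) ⊔ B * M ^ j := by
  induction j with
  | zero => simpa using h
  | succ j ih =>
    rw [pow_succ M]
    refine (mul_le_mul' ih le_rfl).trans ?_
    rw [Submodule.sup_mul, mul_assoc, ← pow_succ]
    refine sup_le ((mul_le_mul' le_rfl h).trans ?_) le_sup_right
    rw [Submodule.mul_sup, ← pow_succ, mul_comm]
    exact sup_le_sup_left (mul_le_mul' le_rfl (pow_le_pow_left' hA _)) _

theorem dm_erase_le (f : Polynomial R) (n : ℕ) : sp K (f.erase n).coeff ≤ sp K f.coeff :=
  dm_le fun i => by
    rw [Polynomial.coeff_erase]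
    split_ifs
    exacts [zero_mem _, dm_mem f i]

theorem dm_le_erase (f : Polynomial R) (n : ℕ) :
    sp K f.coeff ≤ sp K (f.erase n).coeff ⊔ span K {f.coeff n} :=
  dm_le fun i => by
    by_cases h : i = n
    · exact mem_sup_right (h ▸ mem_span_singleton_self _)
    · exact mem_sup_left (Polynomial.erase_ne f h ▸ dm_mem (f.erase n) i)

theorem dm_erase_mul (f g : Polynomial R) (n : ℕ) :
    sp K (f.erase n * g).coeff ≤ sp K (f * g).coeff ⊔ span K {f.coeff n} * sp K g.coeff :=
  dm_le fun i => by
    have e : f.erase n * g = f * g - Polynomial.C (f.coeff n) * (Polynomial.X ^ n * g) := by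
      rw [← mul_assoc, Polynomial.C_mul_X_pow_eq_monomial, ← sub_mul]
      exact congrArg (· * g) (eq_sub_of_add_eq' (Polynomial.monomial_add_erase f n))
    rw [e, Polynomial.coeff_sub, Polynomial.coeff_C_mul, Polynomial.coeff_X_pow_mul']
    refine sub_mem (mem_sup_left (dm_mem _ i)) (mem_sup_right (mul_mem_mul
      (mem_span_singleton_self _) ?_))
    split_ifs
    exacts [dm_mem g _, zero_mem _]

theorem dm (f g : Polynomial R) {m : ℕ} (hg : g.natDegree ≤ m) :
    sp K f.coeff ^ (m + 1) * sp K g.coeff ≤ sp K f.coeff ^ m * sp K (f * g).coeff := by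
  induction m generalizing f g with
  | zero =>
    rw [zero_add, pow_one, pow_zero, one_mul, Polynomial.eq_C_of_natDegree_le_zero hg]
    generalize g.coeff 0 = b
    have hb : sp K (Polynomial.C b).coeff ≤ span K {b} := dm_le fun i => by
      rw [Polynomial.coeff_C]
      split_ifs
      exacts [mem_span_singleton_self _, zero_mem _]
    refine (mul_le_mul' le_rfl hb).trans ?_
    rw [span_mul_span, span_le]
    rintro _ ⟨_, ⟨i, rfl⟩, _, rfl, rfl⟩
    beta_reduce
    rw [← Polynomial.coeff_mul_C]
    exact dm_mem _ i
  | succ m ih =>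
    have hg1 : (g.erase (m + 1)).natDegree ≤ m :=
      Polynomial.natDegree_le_iff_coeff_eq_zero.2 fun N hN => by
        rw [Polynomial.coeff_erase]
        split_ifs with h
        · rfl
        · exact Polynomial.natDegree_le_iff_coeff_eq_zero.1 hg N (by omega)
    have key : ∀ n, ∀ f : Polynomial R, (∀ i, n ≤ i → f.coeff i = 0) →
        sp K f.coeff ^ (m + 1 + 1) * sp K g.coeff ≤
          sp K f.coeff ^ (m + 1) * sp K (f * g).coeff := by
      intro n
      induction n with
      | zero =>
        intro f hf
        have h0 : sp K f.coeff = ⊥ := le_bot_iff.1 (dm_le fun i => hf i i.zero_le ▸ zero_mem _)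
        rw [h0, pow_succ _ (m + 1), Submodule.mul_bot, Submodule.bot_mul]
        exact bot_le
      | succ n ihn =>
        intro f hf
        have hn : f.natDegree ≤ n := Polynomial.natDegree_le_iff_coeff_eq_zero.2 fun N hN => hf N hN
        have hab : span K {f.coeff n} * span K {g.coeff (m + 1)} ≤ sp K (f * g).coeff := by
          rw [span_mul_span, Set.singleton_mul_singleton, span_singleton_le_iff_mem,
            ← Polynomial.coeff_mul_add_eq_of_natDegree_le hn hg]
          exact dm_mem _ _
        have ha : span K {f.coeff n} ≤ sp K f.coeff := (span_singleton_le_iff_mem _ _).2 (dm_mem f n)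
        have h1 := ihn (f.erase n) fun i hi => by
          rw [Polynomial.coeff_erase]
          split_ifs with h
          · rfl
          · exact hf i (by omega)
        have h2 := ih f _ hg1
        have h3 := dm_erase_mul (K := K) g f (m + 1)
        rw [mul_comm (g.erase _), mul_comm g] at h3
        have h4 := dm_erase_mul (K := K) f g n
        have h5 := dm_le_erase (K := K) g (m + 1)
        have h6 := dm_pow (dm_erase_le (K := K) f n) (dm_le_erase f n) (m + 1)
        have h7 := pow_le_pow_left' (dm_erase_le (K := K) f n) (m + 1)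
        generalize sp K f.coeff = M at *
        generalize span K {f.coeff n} = A at *
        generalize span K {g.coeff (m + 1)} = B at *
        generalize sp K (f * g).coeff = P at *
        have h8 : A * M ^ (m + 1) * B ≤ M ^ (m + 1) * P := by
          rw [mul_comm A, mul_assoc]
          exact mul_le_mul' le_rfl hab
        have h9 : A * M ^ (m + 1) * sp K g.coeff ≤ M ^ (m + 1) * P := by
          refine (mul_le_mul' le_rfl h5).trans ?_
          rw [Submodule.mul_sup]
          refine sup_le ?_ h8
          rw [mul_assoc]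
          refine (mul_le_mul' le_rfl (h2.trans (mul_le_mul' le_rfl h3))).trans ?_
          rw [Submodule.mul_sup, Submodule.mul_sup]
          refine sup_le ?_ (le_of_eq_of_le (by ring) h8)
          rw [← mul_assoc, pow_succ']
          exact mul_le_mul' (mul_le_mul' ha le_rfl) le_rfl
        refine (mul_le_mul' h6 le_rfl).trans ?_
        rw [Submodule.sup_mul]
        refine sup_le (h1.trans ((mul_le_mul' h7 h4).trans ?_)) h9
        rw [Submodule.mul_sup]
        exact sup_le le_rfl (le_of_eq_of_le (by ring) h9)
    exact key (f.natDegree + 1) f fun i hi => Polynomial.coeff_eq_zero_of_natDegree_lt hi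

end Pool.Agent.Lib.MP_cf0da3_ag.Det
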