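import Pool.Agent.Lib.MP_cf0da3_ag.Det.DM

/-! Parameters for a Segre product. -/

namespace Pool.Agent.Lib.MP_cf0da3_ag.Det

open Submodule Module MvPolynomial Matrix

variable {K R : Type} [Field K] [CommRing R] [Algebra K R]

theorem dn_sp {a : ℕ} {g : Polynomial R} (hg : g.natDegree ≤ a) :
    sp K g.coeff = sp K fun i : Fin (a + 1) => g.coeff i := by
  refine le_antisymm (span_le.2 ?_) (span_mono ?_)
  · rintro _ ⟨i, rfl⟩
    rcases le_or_gt i a with h | h
    · exact subset_span ⟨⟨i, Nat.lt_succ_of_le h⟩, rfl⟩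
    · rw [Polynomial.coeff_eq_zero_of_natDegree_lt (hg.trans_lt h)]
      exact zero_mem _
  · rintro _ ⟨i, rfl⟩
    exact ⟨i, rfl⟩

theorem dn_poly {a : ℕ} (x : Fin (a + 1) → R) :
    ∃ g : Polynomial R, g.natDegree ≤ a ∧ sp K g.coeff = sp K x := by
  classical
  have h := Nat.le_of_lt_succ (Polynomial.ofFn_natDegree_lt (Nat.le_add_left 1 a) x)
  refine ⟨_, h, (dn_sp h).trans (congrArg _ (funext fun i => ?_))⟩
  exact Polynomial.ofFn_coeff_eq_val_of_lt x i.2

theorem dm_fin {a b : ℕ} (x : Fin (a + 1) → R) (z : Fin (b + 1) → R) :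
    ∃ θ : Fin (a + b + 1) → R, sp K θ ≤ sp K x * sp K z ∧
      sp K x * sp K z ^ (a + 1) ≤ sp K θ * sp K z ^ a := by
  obtain ⟨g, hg, hx⟩ := dn_poly (K := K) x
  obtain ⟨f, hf, hz⟩ := dn_poly (K := K) z
  have h : (f * g).natDegree ≤ a + b := Polynomial.natDegree_mul_le.trans (by omega)
  refine ⟨fun s => (f * g).coeff s, span_le.2 ?_, ?_⟩
  · rintro _ ⟨s, rfl⟩
    rw [← hx, ← hz, mul_comm f g]
    simp only [Polynomial.coeff_mul]
    exact sum_mem fun p _ => mul_mem_mul (subset_span ⟨_, rfl⟩) (subset_span ⟨_, rfl⟩)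
  · rw [← dn_sp h, ← hx, ← hz, mul_comm, mul_comm (sp K (f * g).coeff)]
    exact dm f g hg

end Pool.Agent.Lib.MP_cf0da3_ag.Det
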