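import Mathlib

/-! Ulrich modules on determinantal varieties: definitions. -/

namespace Pool.Agent.Lib.MP_cf0da3_ag.Det

open Submodule Module MvPolynomial Matrix

/-- The span of a family. -/
abbrev sp (K : Type) [Field K] {B J : Type} [AddCommGroup B] [Module K B] (θ : J → B) :
    Submodule K B := span K (Set.range θ)

section Abstract
variable {K B W : Type} [Field K] [CommRing B] [Algebra K B] [AddCommGroup W] [Module K W]
  [Module B W] [IsScalarTower K B W]

/-- The elements of `I` raise the degree by one. -/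
def Up (I : Submodule K B) (E : ℕ → Submodule K W) : Prop := ∀ p, I • E p ≤ E (p + 1)

/-- `E / N` is generated in degree zero over `K[θ]` and has the size of a free module of rank
`ρ`. -/
structure Good (ρ : ℕ) (E N : ℕ → Submodule K W) {r : ℕ} (θ : Fin r → B) : Prop where
  fg : ∀ p, (E p).FG
  le : ∀ p, N p ≤ E p
  upE : Up (sp K θ) E
  upN : Up (sp K θ) N
  gen : ∀ p, E (p + 1) ≤ N (p + 1) ⊔ sp K θ • E p
  dim : ∀ p, finrank K (E p) = finrank K (N p) + ρ * r.multichoose p

/-- The relations after dividing by `t`. -/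
def nxt (t : B) (E N : ℕ → Submodule K W) : ℕ → Submodule K W
  | 0 => N 0
  | p + 1 => N (p + 1) ⊔ span K {t} • E p

end Abstract

section Mat
variable {K R J ι : Type} [Field K] [CommRing R] [Algebra K R] [Fintype ι] [DecidableEq ι]

/-- Commuting matrices with entries in `L`, the `j`-th dividing the scalar `F j`. -/
structure Fam (L : Submodule K R) (T : J → Matrix ι ι R) (F : J → R) : Prop where
  mem : ∀ j a b, T j a b ∈ L
  comm : ∀ i j, Commute (T i) (T j)
  div : ∀ j, ∃ T', T j * T' = F j • (1 : Matrix ι ι R)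

/-- The sum of the images of the `T j`. -/
def im [Fintype J] (T : J → Matrix ι ι R) : Submodule R (ι → R) where
  carrier := {x | ∃ w : J → ι → R, x = ∑ j, T j *ᵥ w j}
  add_mem' := by
    rintro _ _ ⟨w, rfl⟩ ⟨w', rfl⟩
    exact ⟨w + w', by simp [mulVec_add, Finset.sum_add_distrib]⟩
  zero_mem' := ⟨0, by simp⟩
  smul_mem' := by
    rintro c _ ⟨w, rfl⟩
    exact ⟨c • w, by simp [mulVec_smul, Finset.smul_sum]⟩

/-- Vectors with all coordinates in `P`. -/
abbrev VB (ι : Type) (P : Submodule K R) : Submodule K (ι → R) := Submodule.pi Set.univ fun _ => P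

end Mat

section Bi
variable (K U Z : Type) [Field K]

/-- The bidegree of the variables. -/
def wt : U ⊕ Z → ℕ × ℕ := Sum.elim (fun _ => (1, 0)) (fun _ => (0, 1))

/-- Forms of bidegree `(p, q)`. -/
noncomputable abbrev BH (p q : ℕ) : Submodule K (MvPolynomial (U ⊕ Z) K) :=
  weightedHomogeneousSubmodule K (wt U Z) (p, q)

/-- The component of bidegree `(p, q)`. -/
noncomputable abbrev pr (p q : ℕ) : MvPolynomial (U ⊕ Z) K →ₗ[K] MvPolynomial (U ⊕ Z) K :=
  weightedHomogeneousComponent (wt U Z) (p, q)

/-- The first group of variables. -/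
noncomputable abbrev xs (i : U) : MvPolynomial (U ⊕ Z) K := X (Sum.inl i)

/-- The second group of variables. -/
noncomputable abbrev zs (l : Z) : MvPolynomial (U ⊕ Z) K := X (Sum.inr l)

/-- Index set of the monomial basis of vectors of bidegree `(0, q)`. -/
abbrev Ix (ι Z : Type) [Fintype Z] [DecidableEq Z] (q : ℕ) : Type :=
  ι × ↥(Finset.finsuppAntidiag (Finset.univ : Finset Z) q)

/-- The monomial basis of vectors of bidegree `(0, q)`. -/
noncomputable def vb {ι Z : Type} [DecidableEq ι] [Fintype Z] [DecidableEq Z] {q : ℕ}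
    (b : Ix ι Z q) : ι → MvPolynomial (U ⊕ Z) K :=
  Pi.single b.1 (rename Sum.inr (monomial b.2.1 (1 : K)))

end Bi

end Pool.Agent.Lib.MP_cf0da3_ag.Det
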