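import Pool.Agent.Lib.MP_cf0da3_ag.Det.Defs

/-! Commuting families of matrices. -/

namespace Pool.Agent.Lib.MP_cf0da3_ag.Det

open Submodule Module MvPolynomial Matrix

variable {K R J ι : Type} [Field K] [CommRing R] [Algebra K R] [Fintype ι] [DecidableEq ι]

theorem Fam.map {K' R' : Type} [Field K'] [CommRing R'] [Algebra K' R'] {L : Submodule K R}
    {L' : Submodule K' R'} {T : J → Matrix ι ι R} {F : J → R} (h : Fam L T F) (φ : R →+* R')
    (hφ : ∀ x ∈ L, φ x ∈ L') : Fam L' (fun j => (T j).map φ) fun j => φ (F j) := by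
  refine ⟨fun j a b => hφ _ (h.mem j a b), fun i j => ?_, fun j => ?_⟩
  · exact (h.comm i j).map φ.mapMatrix
  · obtain ⟨T', hT⟩ := h.div j
    refine ⟨T'.map φ, ?_⟩
    rw [← Matrix.map_mul, hT]
    ext a b
    by_cases e : a = b <;> simp [e]

theorem Fam.smul_mem [Fintype J] {L : Submodule K R} {T : J → Matrix ι ι R} {F : J → R}
    (h : Fam L T F) {f : R} (hf : f ∈ Ideal.span (Set.range F)) (w : ι → R) : f • w ∈ im T := by
  induction hf using Submodule.span_induction generalizing w with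
  | mem x hx =>
    obtain ⟨j, rfl⟩ := hx
    obtain ⟨T', hT⟩ := h.div j
    classical
    refine ⟨Pi.single j (T' *ᵥ w), ?_⟩
    rw [Finset.sum_eq_single j (fun i _ e => by simp [Pi.single_eq_of_ne e]) (by simp),
      Pi.single_eq_same, mulVec_mulVec, hT, smul_mulVec, one_mulVec]
  | zero => simp
  | add x y _ _ hx hy =>
    rw [add_smul]
    exact Submodule.add_mem _ (hx w) (hy w)
  | smul c x _ hx =>
    rw [smul_eq_mul, mul_smul]
    exact Submodule.smul_mem _ c (hx w)

theorem Fam.cons {r : ℕ} {L : Submodule K R} {T : Fin r → Matrix ι ι R} {F : Fin r → R}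
    (h : Fam L T F) {f : R} (hf : f ∈ L) :
    Fam L (Fin.cons (f • (1 : Matrix ι ι R)) T : Fin (r + 1) → Matrix ι ι R)
      (Fin.cons f F : Fin (r + 1) → R) := by
  refine ⟨fun j a b => ?_, fun i j => ?_, fun j => ?_⟩
  · refine Fin.cases ?_ (fun j => ?_) j
    · by_cases e : a = b <;> simp [e, hf]
    · simpa using h.mem j a b
  · refine Fin.cases ?_ (fun i => ?_) i
    · exact (Commute.one_left _).smul_left f
    · refine Fin.cases ?_ (fun j => ?_) j
      · exact (Commute.one_right _).smul_right f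
      · exact h.comm i j
  · refine Fin.cases ⟨1, ?_⟩ (fun j => ?_) j
    · simp
    · simpa using h.div j

theorem im_map [Fintype J] {R' : Type} [CommRing R'] {T : J → Matrix ι ι R} (φ : R →+* R')
    {x : ι → R} (hx : x ∈ im T) : (fun i => φ (x i)) ∈ im fun j => (T j).map φ := by
  obtain ⟨w, rfl⟩ := hx
  refine ⟨fun j i => φ (w j i), funext fun i => ?_⟩
  simp only [Finset.sum_apply, map_sum]
  exact Finset.sum_congr rfl fun j _ => RingHom.map_mulVec φ (T j) (w j) i

/-- A commutative ring acting on `ι → R` that contains `R` and the `T j`. -/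
theorem exists_ring {T : J → Matrix ι ι R} (h : ∀ i j, Commute (T i) (T j)) :
    ∃ (B : Type) (_ : CommRing B) (_ : Algebra K B) (_ : Module B (ι → R))
      (_ : IsScalarTower K B (ι → R)) (f : R →ₐ[K] B) (t : J → B),
      (∀ x (w : ι → R), f x • w = x • w) ∧ ∀ j (w : ι → R), t j • w = T j *ᵥ w := by
  let S := Algebra.adjoin R (Set.range fun j => (Matrix.mulVecLin (T j) : Module.End R (ι → R)))
  have hc : IsMulCommutative S := Algebra.isMulCommutative_adjoin R (by
    rintro _ ⟨i, rfl⟩ _ ⟨j, rfl⟩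
    rw [Module.End.mul_eq_comp, Module.End.mul_eq_comp, ← Matrix.mulVecLin_mul,
      ← Matrix.mulVecLin_mul, (h i j).eq])
  let cr : CommRing S := { (inferInstance : Ring S) with mul_comm := hc.is_comm.comm }
  exact ⟨S, cr, (inferInstance : Algebra K S), (inferInstance : Module S (ι → R)),
    ⟨fun _ _ _ => rfl⟩, IsScalarTower.toAlgHom K R S,
    fun j => ⟨Matrix.mulVecLin (T j), Algebra.subset_adjoin ⟨j, rfl⟩⟩,
    fun _ _ => rfl, fun _ _ => rfl⟩

theorem rad_of_zero [IsAlgClosed K] {τ : Type} [Finite τ] (F : J → MvPolynomial τ K)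
    (f : MvPolynomial τ K) (h : ∀ x : τ → K, (∀ j, eval x (F j) = 0) → eval x f = 0) :
    ∃ κ : ℕ, f ^ κ ∈ Ideal.span (Set.range F) := by
  have h1 : f ∈ (Ideal.span (Set.range F)).radical := by
    rw [← vanishingIdeal_zeroLocus_eq_radical (K := K)]
    intro x hx
    exact h x fun j => hx _ (Ideal.subset_span ⟨j, rfl⟩)
  exact h1

end Pool.Agent.Lib.MP_cf0da3_ag.Det
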