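import Pool.Agent.Lib.MP_cf0da3_ag.Det.SC
import Pool.Agent.Lib.MP_cf0da3_ag.Det.BC

/-! The variables `u` act by linear forms in `y`. -/

namespace Pool.Agent.Lib.MP_cf0da3_ag.Det

open Submodule Module MvPolynomial Matrix

variable {k σ ι : Type} [Field k] [IsAlgClosed k] [Fintype σ] [Fintype ι] [DecidableEq ι] {c n : ℕ}

section Aux
variable {K S U Z I : Type} [Field K]

/-- Kill the variables `y`. -/
noncomputable def gaKill (K S U Z : Type) [Field K] :
    MvPolynomial ((S ⊕ U) ⊕ Z) K →ₐ[K] MvPolynomial (U ⊕ Z) K :=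
  aeval (Sum.elim (Sum.elim (fun _ => 0) (xs K U Z)) (zs K U Z))

/-- The inclusion of the ring without `y`. -/
noncomputable def gaLift (K S U Z : Type) [Field K] :
    MvPolynomial (U ⊕ Z) K →ₐ[K] MvPolynomial ((S ⊕ U) ⊕ Z) K :=
  rename (Sum.map Sum.inr id)

/-- The linear forms in `y`. -/
noncomputable def gaY (K S U Z : Type) [Field K] : Submodule K (MvPolynomial ((S ⊕ U) ⊕ Z) K) :=
  sp K fun s : S => xs K (S ⊕ U) Z (Sum.inl s)

theorem ga_ind {V : Type} {M : Submodule K (MvPolynomial (V ⊕ Z) K)}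
    (h : ∀ i l, xs K V Z i * zs K V Z l ∈ M) : BH K V Z 1 1 ≤ M := by
  rw [bh_eq, pow_one, pow_one, span_mul_span, span_le]
  rintro _ ⟨_, ⟨i, rfl⟩, _, ⟨l, rfl⟩, rfl⟩
  exact h i l

theorem ga_kill_mem {f : MvPolynomial ((S ⊕ U) ⊕ Z) K} (hf : f ∈ BH K (S ⊕ U) Z 1 1) :
    gaKill K S U Z f ∈ BH K U Z 1 1 := by
  refine ga_ind (M := (BH K U Z 1 1).comap (gaKill K S U Z).toLinearMap) (fun i l => ?_) hf
  rw [mem_comap, AlgHom.toLinearMap_apply, map_mul, gaKill, aeval_X, aeval_X]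
  cases i with
  | inl s => simp
  | inr a => exact bh_mul (xs_mem a) (zs_mem l)

theorem ga_diff {f : MvPolynomial ((S ⊕ U) ⊕ Z) K} (hf : f ∈ BH K (S ⊕ U) Z 1 1) :
    gaLift K S U Z (gaKill K S U Z f) - f ∈ gaY K S U Z * BH K (S ⊕ U) Z 0 1 := by
  refine ga_ind (M := (gaY K S U Z * BH K (S ⊕ U) Z 0 1).comap
    (((gaLift K S U Z).comp (gaKill K S U Z)).toLinearMap - LinearMap.id)) (fun i l => ?_) hf
  rw [mem_comap, LinearMap.sub_apply, AlgHom.toLinearMap_apply, LinearMap.id_apply,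
    AlgHom.comp_apply, map_mul, gaKill, aeval_X, aeval_X]
  cases i with
  | inl s =>
    simp only [Sum.elim_inl, zero_mul, map_zero, zero_sub]
    exact neg_mem (mul_mem_mul (subset_span ⟨s, rfl⟩) (zs_mem l))
  | inr a => simp [gaLift]

theorem ga_eval (x : U ⊕ Z → K) (f : MvPolynomial ((S ⊕ U) ⊕ Z) K) :
    eval x (gaKill K S U Z f) =
      eval (Sum.elim (Sum.elim 0 fun a => x (Sum.inl a)) fun l => x (Sum.inr l)) f := by
  induction f using MvPolynomial.induction_on with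
  | C a => simp [gaKill]
  | add p q hp hq => simp only [map_add, hp, hq]
  | mul_X p i hp =>
    simp only [map_mul, hp]
    rcases i with (s | a) | l <;> simp [gaKill]

theorem ga_Y {y : MvPolynomial ((S ⊕ U) ⊕ Z) K} (hy : y ∈ gaY K S U Z) :
    ∃ g : MvPolynomial S K, g.IsHomogeneous 1 ∧
      y = rename Sum.inl (rename Sum.inl g : MvPolynomial (S ⊕ U) K) := by
  induction hy using span_induction with
  | mem _ h =>
    obtain ⟨s, rfl⟩ := h
    exact ⟨X s, isHomogeneous_X K s, by simp⟩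
  | zero => exact ⟨0, isHomogeneous_zero _ _ _, by simp⟩
  | add _ _ _ _ h h' =>
    obtain ⟨g, hg, rfl⟩ := h
    obtain ⟨g', hg', rfl⟩ := h'
    exact ⟨g + g', hg.add hg', by simp⟩
  | smul a _ _ h =>
    obtain ⟨g, hg, rfl⟩ := h
    exact ⟨a • g, (homogeneousSubmodule S K 1).smul_mem a hg, by simp⟩

variable [Fintype I] [DecidableEq I] [Fintype Z] [DecidableEq Z] {q : ℕ}

theorem ga_lift_mem {w : I → MvPolynomial (U ⊕ Z) K} (hw : w ∈ VB I (BH K U Z 0 q)) (i : I) :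
    gaLift K S U Z (w i) ∈ BH K (S ⊕ U) Z 0 q := by
  obtain ⟨e, rfl⟩ := vb_span hw
  rw [Finset.sum_apply, map_sum]
  refine sum_mem fun b _ => ?_
  rw [Pi.smul_apply, map_smul]
  have h := congrFun (vb_map (U' := S ⊕ U) (gaLift K S U Z).toRingHom
    (fun l => by simp [gaLift]) b) i
  exact smul_mem _ _ (h ▸ vb_mem b i trivial :)

theorem ga_vec {x : I → MvPolynomial ((S ⊕ U) ⊕ Z) K}
    (hx : ∀ i, x i ∈ gaY K S U Z * BH K (S ⊕ U) Z 0 q) :
    ∃ g : Ix I Z q → MvPolynomial S K, (∀ b, (g b).IsHomogeneous 1) ∧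
      x = ∑ b, (rename Sum.inl (rename Sum.inl (g b) : MvPolynomial (S ⊕ U) K) :
        MvPolynomial ((S ⊕ U) ⊕ Z) K) • vb K (S ⊕ U) b := by
  let P : (I → MvPolynomial ((S ⊕ U) ⊕ Z) K) → Prop := fun x =>
    ∃ g : Ix I Z q → MvPolynomial S K, (∀ b, (g b).IsHomogeneous 1) ∧
      x = ∑ b, (rename Sum.inl (rename Sum.inl (g b) : MvPolynomial (S ⊕ U) K) :
        MvPolynomial ((S ⊕ U) ⊕ Z) K) • vb K (S ⊕ U) b
  have hadd : ∀ x y, P x → P y → P (x + y) := by
    rintro _ _ ⟨g, hg, rfl⟩ ⟨g', hg', rfl⟩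
    exact ⟨g + g', fun b => (hg b).add (hg' b), by simp [add_smul, Finset.sum_add_distrib]⟩
  have h0 : P 0 := ⟨0, fun _ => isHomogeneous_zero _ _ _, by simp⟩
  rw [← Finset.univ_sum_single x]
  refine Finset.sum_induction _ P hadd h0 fun i _ => ?_
  refine Submodule.mul_induction_on (C := fun f => P (Pi.single i f)) (hx i)
    (fun y hy f hf => ?_) fun f f' h h' => ?_
  · obtain ⟨g, hg, rfl⟩ := ga_Y hy
    obtain ⟨e, he⟩ := vb_span (x := Pi.single i f) (U := S ⊕ U) (q := q) fun j _ => by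
      by_cases hj : j = i
      · subst hj
        rwa [Pi.single_eq_same]
      · rw [Pi.single_eq_of_ne hj]
        exact zero_mem _
    refine ⟨fun b => e b • g, fun b => (homogeneousSubmodule S K 1).smul_mem _ hg, ?_⟩
    rw [← smul_eq_mul, Pi.single_smul, he, Finset.smul_sum]
    refine Finset.sum_congr rfl fun b _ => ?_
    rw [map_smul, map_smul, smul_assoc, smul_comm]
  · rw [Pi.single_add]
    exact hadd _ _ h h'

end Aux

theorem lin_act {T : Fin (n + c + 1) → Matrix ι ι (MvPolynomial ((σ ⊕ Fin (c + 1)) ⊕ Fin (n + 1)) k)}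
    {F : Fin (n + c + 1) → MvPolynomial ((σ ⊕ Fin (c + 1)) ⊕ Fin (n + 1)) k}
    (h : Fam (BH k (σ ⊕ Fin (c + 1)) (Fin (n + 1)) 1 1) T F)
    (h0 : ∀ (u : Fin (c + 1) → k) (z : Fin (n + 1) → k),
      (∀ j, eval (Sum.elim (Sum.elim 0 u) z) (F j) = 0) → u = 0 ∨ z = 0)
    (a : Fin (c + 1)) (b : Ix ι (Fin (n + 1)) (c + 1)) :
    ∃ g : Ix ι (Fin (n + 1)) (c + 1) → MvPolynomial σ k, (∀ b', (g b').IsHomogeneous 1) ∧
      (rename Sum.inl (X (Sum.inr a) : MvPolynomial (σ ⊕ Fin (c + 1)) k) :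
        MvPolynomial ((σ ⊕ Fin (c + 1)) ⊕ Fin (n + 1)) k) • vb k (σ ⊕ Fin (c + 1)) b -
        ∑ b', (rename Sum.inl (rename Sum.inl (g b') : MvPolynomial (σ ⊕ Fin (c + 1)) k) :
          MvPolynomial ((σ ⊕ Fin (c + 1)) ⊕ Fin (n + 1)) k) • vb k (σ ⊕ Fin (c + 1)) b' ∈ im T := by
  have h1 := h.map (gaKill k σ (Fin (c + 1)) (Fin (n + 1))).toRingHom fun _ => ga_kill_mem
  have hv : xs k (Fin (c + 1)) (Fin (n + 1)) a • vb k (Fin (c + 1)) b ∈
      VB ι (BH k (Fin (c + 1)) (Fin (n + 1)) 1 (c + 1)) := fun i _ => by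
    have h2 := bh_mul (xs_mem (K := k) (Z := Fin (n + 1)) a) (vb_mem b i trivial)
    rwa [add_zero, zero_add] at h2
  obtain ⟨w, hw, e⟩ := seg1 (a := c) (b := n) (by omega) h1 (fun i l => rad_of_zero _ _
    fun x hx => by
      rcases h0 _ _ fun j => (ga_eval x (F j)).symm.trans (hx j) with h2 | h2
      · simp [show x (Sum.inl i) = 0 from congrFun h2 i]
      · simp [show x (Sum.inr l) = 0 from congrFun h2 l]) hv
  let W := fun j i => gaLift k σ (Fin (c + 1)) (Fin (n + 1)) (w j i)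
  obtain ⟨g, hg, e2⟩ := ga_vec (K := k) (S := σ) (U := Fin (c + 1)) (q := c + 1)
    (x := xs k (σ ⊕ Fin (c + 1)) (Fin (n + 1)) (Sum.inr a) • vb k (σ ⊕ Fin (c + 1)) b -
      ∑ j, T j *ᵥ W j) fun i => by
      have h2 := congrArg (gaLift k σ (Fin (c + 1)) (Fin (n + 1))) (congrFun e i)
      have h3 := congrFun (vb_map (U' := σ ⊕ Fin (c + 1))
        (gaLift k σ (Fin (c + 1)) (Fin (n + 1))).toRingHom (fun l => by simp [gaLift]) b) i
      have h4 : gaLift k σ (Fin (c + 1)) (Fin (n + 1)) (xs k _ _ a) = xs k _ _ (Sum.inr a) := by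
        simp [gaLift]
      rw [Pi.smul_apply, smul_eq_mul, map_mul, h4] at h2
      rw [Pi.sub_apply, Pi.smul_apply, smul_eq_mul, ← h3]
      refine (congrArg (· - _ ∈ _) h2).mpr ?_
      rw [Finset.sum_apply, Finset.sum_apply, map_sum, ← Finset.sum_sub_distrib]
      refine sum_mem fun j _ => ?_
      simp only [mulVec, dotProduct, map_sum, map_mul, ← Finset.sum_sub_distrib, ← sub_mul, W]
      refine sum_mem fun i' _ => ?_
      have h5 := mul_mem_mul (ga_diff (h.mem j i i')) (ga_lift_mem (S := σ) (hw j) i')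
      rw [mul_assoc] at h5
      refine mul_le_mul' le_rfl (mul_le.2 fun f hf f' hf' => ?_) h5
      have h6 := bh_mul hf hf'
      rwa [add_comm 1 c] at h6
  refine ⟨g, hg, W, ?_⟩
  rw [← e2, rename_X, sub_sub_cancel]

end Pool.Agent.Lib.MP_cf0da3_ag.Det
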