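import Pool.Agent.Lib.MP_cf0da3_ag.Det.FA
import Pool.Agent.Lib.MP_cf0da3_ag.Det.BA

/-! No common zero after specialising `y` to `y * t`. -/

namespace Pool.Agent.Lib.MP_cf0da3_ag.Det

open Submodule Module MvPolynomial Matrix

variable {k σ : Type} [Field k] [IsAlgClosed k] [Fintype σ] {c n : ℕ}

/-- The specialisation `y ↦ y * t`, where `t` is the variable `0`. -/
noncomputable def spec {K : Type} [Field K] [Algebra k K] (y : σ → K) (c n : ℕ) :
    MvPolynomial ((σ ⊕ Fin (c + 1)) ⊕ Fin (n + 1)) k →ₐ[k]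
      MvPolynomial (Fin (c + 1 + 1) ⊕ Fin (n + 1)) K :=
  aeval (Sum.elim (Sum.elim (fun s => C (y s) * X (Sum.inl 0)) fun a => X (Sum.inl a.succ))
    fun l => X (Sum.inr l))

theorem spec_mem {K : Type} [Field K] [Algebra k K] (y : σ → K)
    {f : MvPolynomial ((σ ⊕ Fin (c + 1)) ⊕ Fin (n + 1)) k}
    (hf : f ∈ BH k (σ ⊕ Fin (c + 1)) (Fin (n + 1)) 1 1) :
    spec y c n f ∈ BH K (Fin (c + 1 + 1)) (Fin (n + 1)) 1 1 := by
  rw [bh_eq, pow_one, pow_one] at hf
  refine Submodule.mul_induction_on hf (fun m hm r hr => ?_) fun a b ha hb => ?_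
  · rw [map_mul]
    refine bh_mul (p := 1) (q := 0) (p' := 0) (q' := 1) ?_ ?_
    · induction hm using Submodule.span_induction with
      | mem x hx =>
        obtain ⟨s | a, rfl⟩ := hx
        · have h := Submodule.smul_mem _ (y s) (xs_mem (K := K) (Z := Fin (n + 1))
            (0 : Fin (c + 1 + 1)))
          simpa [spec, smul_eq_C_mul] using h
        · simpa [spec] using xs_mem (K := K) (Z := Fin (n + 1)) a.succ
      | zero => simp
      | add x x' _ _ h h' => rw [map_add]; exact add_mem h h'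
      | smul a x _ h => rw [map_smul, ← algebraMap_smul K]; exact Submodule.smul_mem _ _ h
    · induction hr using Submodule.span_induction with
      | mem x hx =>
        obtain ⟨l, rfl⟩ := hx
        simpa [spec] using zs_mem (K := K) (U := Fin (c + 1 + 1)) l
      | zero => simp
      | add x x' _ _ h h' => rw [map_add]; exact add_mem h h'
      | smul a x _ h => rw [map_smul, ← algebraMap_smul K]; exact Submodule.smul_mem _ _ h
  · rw [map_add]
    exact add_mem ha hb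

theorem gb_eval {K : Type} [Field K] [Algebra k K] (y : σ → K)
    (x : Fin (c + 1 + 1) ⊕ Fin (n + 1) → K)
    (f : MvPolynomial ((σ ⊕ Fin (c + 1)) ⊕ Fin (n + 1)) k) :
    eval x (spec y c n f) = aeval (Sum.elim (Sum.elim (fun s => y s * x (Sum.inl 0))
      fun a => x (Sum.inl a.succ)) fun l => x (Sum.inr l)) f := by
  have h : ((aeval x : MvPolynomial _ K →ₐ[K] K).restrictScalars k).comp (spec y c n) =
      aeval (Sum.elim (Sum.elim (fun s => y s * x (Sum.inl 0))
        fun a => x (Sum.inl a.succ)) fun l => x (Sum.inr l)) := by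
    refine MvPolynomial.algHom_ext ?_
    rintro ((s | a) | l) <;> simp [spec]
  rw [← h, ← coe_aeval_eq_eval]
  rfl

theorem gb_zero {J : Type} {F : J → MvPolynomial ((σ ⊕ Fin (c + 1)) ⊕ Fin (n + 1)) k}
    (h0 : ∀ (u : Fin (c + 1) → k) (z : Fin (n + 1) → k),
      (∀ j, eval (Sum.elim (Sum.elim 0 u) z) (F j) = 0) → u = 0 ∨ z = 0)
    {K : Type} [Field K] [Algebra k K] (u : Fin (c + 1) → K) (z : Fin (n + 1) → K)
    (h : ∀ j, aeval (Sum.elim (Sum.elim 0 u) z) (F j) = 0) (a : Fin (c + 1)) (l : Fin (n + 1)) :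
    u a * z l = 0 := by
  obtain ⟨ψ, hψ⟩ : ∃ ψ : MvPolynomial ((σ ⊕ Fin (c + 1)) ⊕ Fin (n + 1)) k →ₐ[k]
      MvPolynomial (Fin (c + 1) ⊕ Fin (n + 1)) k, ψ = aeval (Sum.elim (Sum.elim 0
        fun a => X (Sum.inl a)) fun l => X (Sum.inr l)) := ⟨_, rfl⟩
  have e : ∀ {L : Type} [Field L] [Algebra k L] (w : Fin (c + 1) ⊕ Fin (n + 1) → L) (f),
      aeval w (ψ f) = aeval (Sum.elim (Sum.elim 0 fun a => w (Sum.inl a))
        fun l => w (Sum.inr l)) f := by
    intro L _ _ w f
    have h : (aeval w).comp ψ = aeval (Sum.elim (Sum.elim 0 fun a => w (Sum.inl a))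
        fun l => w (Sum.inr l)) := by
      refine MvPolynomial.algHom_ext ?_
      rintro ((s | a) | l) <;> simp [hψ]
    rw [← h]
    rfl
  obtain ⟨κ, hκ⟩ := rad_of_zero (fun j => ψ (F j)) (X (Sum.inl a) * X (Sum.inr l)) fun w hw => by
    rcases h0 (fun a => w (Sum.inl a)) (fun l => w (Sum.inr l))
      (fun j => (e w (F j)).symm.trans (hw j)) with c | c
    · simp [congrFun c a]
    · simp [congrFun c l]
  have h1 : Ideal.span (Set.range fun j => ψ (F j)) ≤
      RingHom.ker (aeval (R := k) (Sum.elim u z)) := by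
    rw [Ideal.span_le]
    rintro _ ⟨j, rfl⟩
    exact (e _ (F j)).trans (h j)
  have h2 := RingHom.mem_ker.1 (h1 hκ)
  rw [map_pow, map_mul, aeval_X, aeval_X] at h2
  exact eq_zero_of_pow_eq_zero h2

theorem spec_rad {F : Fin (n + c + 1) → MvPolynomial ((σ ⊕ Fin (c + 1)) ⊕ Fin (n + 1)) k}
    (h0 : ∀ (u : Fin (c + 1) → k) (z : Fin (n + 1) → k),
      (∀ j, eval (Sum.elim (Sum.elim 0 u) z) (F j) = 0) → u = 0 ∨ z = 0)
    {K : Type} [Field K] [IsAlgClosed K] [Algebra k K] {y : σ → K}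
    (h1 : ∀ (t : K) (u : Fin (c + 1) → K) (z : Fin (n + 1) → K), t ≠ 0 → z 0 = 0 →
      (∀ j, aeval (Sum.elim (Sum.elim (fun s => y s * t) u) z) (F j) = 0) → z = 0)
    (i : Fin (c + 1 + 1)) (l : Fin (n + 1)) :
    ∃ κ : ℕ, (xs K _ _ i * zs K _ _ l) ^ κ ∈ Ideal.span (Set.range
      (Fin.cons (xs K (Fin (c + 1 + 1)) (Fin (n + 1)) 0 * zs K _ _ 0)
        (fun j => spec y c n (F j)) : Fin (n + c + 1 + 1) → _)) := by
  refine rad_of_zero _ _ fun x hx => ?_
  have h2 : x (Sum.inl 0) * x (Sum.inr 0) = 0 := by simpa using hx 0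
  have h3 := fun j => (gb_eval y x (F j)).symm.trans (hx j.succ)
  rw [map_mul, eval_X, eval_X]
  by_cases ht : x (Sum.inl 0) = 0
  · refine Fin.cases (by rw [ht, zero_mul]) (fun a => ?_) i
    refine gb_zero h0 (fun a => x (Sum.inl a.succ)) (fun l => x (Sum.inr l)) (fun j => ?_) a l
    have h4 := h3 j
    simp only [ht, mul_zero] at h4
    exact h4
  · have h4 := h1 _ _ _ ht ((mul_eq_zero.1 h2).resolve_left ht) h3
    rw [show x (Sum.inr l) = 0 from congrFun h4 l, mul_zero]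

end Pool.Agent.Lib.MP_cf0da3_ag.Det
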