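import Pool.Agent.Lib.MP_cf0da3_ag.Det.SD
import Pool.Agent.Lib.MP_cf0da3_ag.Det.BC
import Pool.Agent.Lib.MP_cf0da3_ag.Det.GB

/-! Independence over `k[y]` and absence of torsion. -/

namespace Pool.Agent.Lib.MP_cf0da3_ag.Det

open Submodule Module MvPolynomial Matrix

variable {k σ ι : Type} [Field k] [IsAlgClosed k] [Fintype σ] [Fintype ι] [DecidableEq ι] {c n : ℕ}

omit [IsAlgClosed k] [Fintype σ] in
theorem gc_hom {K τ : Type} [Field K] [Algebra k K] (y : σ → K) (t : MvPolynomial τ K) {p : ℕ}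
    {f : MvPolynomial σ k} (hf : f.IsHomogeneous p) :
    aeval (fun s => C (y s) * t) f = C (aeval y f) * t ^ p := by
  conv_lhs => rw [f.as_sum]
  conv_rhs => rw [f.as_sum]
  rw [map_sum, map_sum, map_sum, Finset.sum_mul]
  refine Finset.sum_congr rfl fun d hd => ?_
  have h1 : ∑ i ∈ d.support, d i = p := by
    have := hf (mem_support_iff.1 hd)
    simpa [Finsupp.weight_apply, Finsupp.sum] using this
  rw [aeval_monomial, aeval_monomial, map_mul, mul_assoc, ← h1]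
  simp only [Finsupp.prod, mul_pow, Finset.prod_mul_distrib, map_prod, map_pow,
    Finset.prod_pow_eq_pow_sum]
  rfl

omit [IsAlgClosed k] [Fintype σ] in
theorem gc_sum {f : MvPolynomial σ k} {N : ℕ} (h : f.totalDegree < N) :
    ∑ p ∈ Finset.range N, homogeneousComponent p f = f := by
  conv_rhs => rw [← sum_homogeneousComponent f]
  refine (Finset.sum_subset (Finset.range_mono h) fun p _ hp => ?_).symm
  exact homogeneousComponent_eq_zero _ _ (by simpa using hp)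

theorem indep {T : Fin (n + c + 1) → Matrix ι ι (MvPolynomial ((σ ⊕ Fin (c + 1)) ⊕ Fin (n + 1)) k)}
    {F : Fin (n + c + 1) → MvPolynomial ((σ ⊕ Fin (c + 1)) ⊕ Fin (n + 1)) k}
    (h : Fam (BH k (σ ⊕ Fin (c + 1)) (Fin (n + 1)) 1 1) T F)
    (h0 : ∀ (u : Fin (c + 1) → k) (z : Fin (n + 1) → k),
      (∀ j, eval (Sum.elim (Sum.elim 0 u) z) (F j) = 0) → u = 0 ∨ z = 0)
    {K : Type} [Field K] [IsAlgClosed K] [Algebra k K] {y : σ → K} (hy : AlgebraicIndependent k y)
    (h1 : ∀ (t : K) (u : Fin (c + 1) → K) (z : Fin (n + 1) → K), t ≠ 0 → z 0 = 0 →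
      (∀ j, aeval (Sum.elim (Sum.elim (fun s => y s * t) u) z) (F j) = 0) → z = 0)
    {L : ℕ} {g : Ix ι (Fin (n + 1)) (c + 1) → MvPolynomial σ k}
    (hg : zs k (σ ⊕ Fin (c + 1)) (Fin (n + 1)) 0 ^ L •
      ∑ b, (rename Sum.inl (rename Sum.inl (g b) : MvPolynomial (σ ⊕ Fin (c + 1)) k) :
        MvPolynomial ((σ ⊕ Fin (c + 1)) ⊕ Fin (n + 1)) k) • vb k (σ ⊕ Fin (c + 1)) b ∈ im T) : g = 0 := by
  classical
  have hz : ∀ l, (spec y c n).toRingHom (zs k (σ ⊕ Fin (c + 1)) (Fin (n + 1)) l) =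
      zs K (Fin (c + 1 + 1)) (Fin (n + 1)) l := fun l => by simp [spec]
  obtain ⟨N, hN⟩ : ∃ N, ∀ b, (g b).totalDegree < N :=
    ⟨(Finset.univ.sup fun b => (g b).totalDegree) + 1, fun b =>
      Nat.lt_succ_of_le (Finset.le_sup (f := fun b => (g b).totalDegree) (Finset.mem_univ b))⟩
  have hs : ∀ b, (spec y c n).toRingHom (rename Sum.inl (rename Sum.inl (g b))) =
      ∑ p ∈ Finset.range N, C (aeval y (homogeneousComponent p (g b))) * X (Sum.inl 0) ^ p := by
    intro b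
    conv_lhs => rw [← gc_sum (hN b)]
    rw [map_sum, map_sum, map_sum]
    refine Finset.sum_congr rfl fun p _ => ?_
    rw [← gc_hom y _ (homogeneousComponent_isHomogeneous p (g b))]
    change spec y c n _ = _
    rw [spec, aeval_rename, aeval_rename]
    rfl
  let v : ℕ → ι → MvPolynomial (Fin (c + 1 + 1) ⊕ Fin (n + 1)) K := fun p =>
    ∑ b, aeval y (homogeneousComponent p (g b)) • vb K (Fin (c + 1 + 1)) b
  have hv : ∀ p, v p ∈ VB ι (BH K (Fin (c + 1 + 1)) (Fin (n + 1)) 0 (c + 1)) := fun p =>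
    sum_mem fun b _ => smul_mem _ _ (vb_mem b)
  have hm := im_map (spec y c n).toRingHom hg
  have e : (fun i => (spec y c n).toRingHom ((zs k (σ ⊕ Fin (c + 1)) (Fin (n + 1)) 0 ^ L •
      ∑ b, (rename Sum.inl (rename Sum.inl (g b) : MvPolynomial (σ ⊕ Fin (c + 1)) k) :
        MvPolynomial ((σ ⊕ Fin (c + 1)) ⊕ Fin (n + 1)) k) • vb k (σ ⊕ Fin (c + 1)) b) i)) =
      zs K (Fin (c + 1 + 1)) (Fin (n + 1)) 0 ^ L •
        ∑ p ∈ Finset.range N, xs K _ (Fin (n + 1)) (0 : Fin (c + 1 + 1)) ^ p • v p := by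
    funext i
    simp only [Pi.smul_apply, Finset.sum_apply, smul_eq_mul, map_mul, map_pow, map_sum, hz, hs, v,
      Finset.mul_sum, Finset.sum_mul, congrFun (vb_map (spec y c n).toRingHom hz _) i]
    rw [Finset.sum_comm]
    refine Finset.sum_congr rfl fun p _ => Finset.sum_congr rfl fun b _ => ?_
    rw [smul_eq_C_mul]
    ring
  rw [e] at hm
  have h2 := seg3 (a := c + 1) (b := n) (by omega) (h.map (spec y c n).toRingHom
    fun x hx => spec_mem y hx) 0 0 (spec_rad h0 h1) hv hm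
  funext b
  rw [← gc_sum (hN b)]
  refine Finset.sum_eq_zero fun p hp => hy ?_
  rw [map_zero]
  exact congrFun (vb_indep (h2 p hp)) b

end Pool.Agent.Lib.MP_cf0da3_ag.Det
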