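import Pool.Agent.Lib.MP_cf0da3_ag.Det.Defs

/-! The matrix representation of a free module. -/

namespace Pool.Agent.Lib.MP_cf0da3_ag.Det

open Submodule Module MvPolynomial Matrix

theorem exists_psi {k σ τ β R W : Type} [Field k] [Fintype β] [DecidableEq β] [CommRing R]
    [AddCommGroup W] [Module R W] (ε : MvPolynomial (σ ⊕ τ) k →+* R) (I : Submodule R W)
    (v : β → W)
    (h1 : ∀ a b, ∃ g : β → MvPolynomial σ k, (∀ b', (g b').IsHomogeneous 1) ∧
      ε (X (Sum.inr a)) • v b - ∑ b', ε (rename Sum.inl (g b')) • v b' ∈ I)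
    (h2 : ∀ g : β → MvPolynomial σ k, ∑ b, ε (rename Sum.inl (g b)) • v b ∈ I → g = 0) :
    ∃ ψ : MvPolynomial (σ ⊕ τ) k →ₐ[k] Matrix β β (MvPolynomial σ k),
      (∀ x a b, (ψ (X x) a b).IsHomogeneous 1) ∧
      (∀ i, ψ (X (Sum.inl i)) = diagonal fun _ => X i) ∧
      ∀ f b, ε f • v b - ∑ a, ε (rename Sum.inl (ψ f a b)) • v a ∈ I := by
  obtain ⟨P, hP⟩ : ∃ P : MvPolynomial (σ ⊕ τ) k → Matrix β β (MvPolynomial σ k) → Prop,
      ∀ f M, P f M ↔ ∀ b, ε f • I.mkQ (v b) = ∑ a, ε (rename Sum.inl (M a b)) • I.mkQ (v a) :=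
    ⟨_, fun _ _ => Iff.rfl⟩
  have hm : ∀ f (g : β → MvPolynomial σ k) b,
      ε f • v b - ∑ a, ε (rename Sum.inl (g a)) • v a ∈ I ↔
      ε f • I.mkQ (v b) = ∑ a, ε (rename Sum.inl (g a)) • I.mkQ (v a) := fun f g b => by
    rw [← Submodule.Quotient.eq, ← mkQ_apply, ← mkQ_apply]
    simp only [map_smul, map_sum]
  have uq : ∀ f M M', P f M → P f M' → M = M' := fun f M M' a b => by
    ext1 i j
    have h3 := ((hP _ _).1 a j).symm.trans ((hP _ _).1 b j)
    refine sub_eq_zero.1 (congrFun (h2 (fun a => M a j - M' a j) ?_) i)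
    rw [← Submodule.Quotient.mk_eq_zero, ← mkQ_apply]
    simp only [map_sub, map_sum, map_smul, sub_smul, Finset.sum_sub_distrib, h3, sub_self]
  have pd : ∀ g : MvPolynomial σ k, P (rename Sum.inl g) (diagonal fun _ => g) := fun g =>
    (hP _ _).2 fun b => by
      rw [Finset.sum_eq_single b (fun a _ h => by simp [diagonal_apply_ne _ h]) (by simp),
        diagonal_apply_eq]
  have pa : ∀ f f' M M', P f M → P f' M' → P (f + f') (M + M') := fun f f' M M' a b =>
    (hP _ _).2 fun j => by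
      simp only [map_add, add_smul, Matrix.add_apply, Finset.sum_add_distrib, (hP _ _).1 a j,
        (hP _ _).1 b j]
  have pm : ∀ f f' M M', P f M → P f' M' → P (f * f') (M * M') := fun f f' M M' a b =>
    (hP _ _).2 fun j => by
      simp only [map_mul, mul_smul, Matrix.mul_apply, map_sum, Finset.sum_smul, (hP _ _).1 b j,
        Finset.smul_sum]
      rw [Finset.sum_comm]
      refine Finset.sum_congr rfl fun i _ => ?_
      rw [smul_comm, (hP _ _).1 a i, Finset.smul_sum]
      exact Finset.sum_congr rfl fun l _ => smul_comm _ _ _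
  choose G G1 G2 using h1
  have px : ∀ a, P (X (Sum.inr a)) (Matrix.of fun i j => G a j i) := fun a =>
    (hP _ _).2 fun j => (hm _ _ _).1 (G2 a j)
  have pl : ∀ i, P (X (Sum.inl i)) (diagonal fun _ => X i) := fun i => by
    simpa only [rename_X] using pd (X i)
  have pc : ∀ c, P (C c) (diagonal fun _ => C c) := fun c => by
    simpa only [rename_C] using pd (C c)
  have ex : ∀ f, ∃ M, P f M := fun f => by
    induction f using MvPolynomial.induction_on with
    | C c => exact ⟨_, pc c⟩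
    | add f f' a b => exact a.elim fun _ a => b.elim fun _ b => ⟨_, pa _ _ _ _ a b⟩
    | mul_X f x a =>
      obtain ⟨M, a⟩ := a
      rcases x with i | i
      exacts [⟨_, pm _ _ _ _ a (pl i)⟩, ⟨_, pm _ _ _ _ a (px i)⟩]
  choose ψ hψ using ex
  have hc : ∀ c, ψ (C c) = diagonal fun _ => C c := fun c => uq _ _ _ (hψ _) (pc c)
  refine ⟨{ toFun := ψ
            map_one' := (hc 1).trans (by rw [C_1, diagonal_one])
            map_mul' := fun f f' => uq _ _ _ (hψ _) (pm _ _ _ _ (hψ f) (hψ f'))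
            map_zero' := by simpa using hc 0
            map_add' := fun f f' => uq _ _ _ (hψ _) (pa _ _ _ _ (hψ f) (hψ f'))
            commutes' := hc }, fun x a b => ?_, fun i => uq _ _ _ (hψ _) (pl i),
    fun f b => (hm _ _ _).2 ((hP _ _).1 (hψ f) b)⟩
  change (ψ (X x) a b).IsHomogeneous 1
  rcases x with i | i
  · rw [uq _ _ _ (hψ _) (pl i), diagonal_apply]
    split_ifs
    exacts [isHomogeneous_X _ _, isHomogeneous_zero _ _ _]
  · rw [uq _ _ _ (hψ _) (px i)]
    exact G1 i b a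

end Pool.Agent.Lib.MP_cf0da3_ag.Det
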