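import Pool.Agent.Lib.MP_cf0da3_ag.Det.QD

/-! Commuting matrix roots. -/

namespace Pool.Agent.Lib.MP_cf0da3_ag.Det

open Submodule Module MvPolynomial Matrix

variable {K R : Type} [Field K] [CommRing R] [Algebra K R]

theorem qe_left {α β : Type} [DecidableEq β] (L : Submodule K R) (T : Matrix α α R)
    (h : ∀ a b, T a b ∈ L) (a b : α × β) :
    kroneckerMap (· * ·) T (1 : Matrix β β R) a b ∈ L := by
  rw [kroneckerMap_apply, Matrix.one_apply]
  split_ifs
  · rw [mul_one]
    exact h _ _
  · rw [mul_zero]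
    exact L.zero_mem

theorem qe_right {α β : Type} [DecidableEq α] (L : Submodule K R) (T : Matrix β β R)
    (h : ∀ a b, T a b ∈ L) (a b : α × β) :
    kroneckerMap (· * ·) (1 : Matrix α α R) T a b ∈ L := by
  rw [kroneckerMap_apply, Matrix.one_apply]
  split_ifs
  · rw [one_mul]
    exact h _ _
  · rw [zero_mul]
    exact L.zero_mem

theorem qe_step {α β : Type} [Fintype α] [DecidableEq α] [Fintype β] [DecidableEq β]
    (L : Submodule K R) {r : ℕ} (F : Fin (r + 1) → R) (A A' : Matrix α α R)
    (hA : ∀ a b, A a b ∈ L) (hA' : A * A' = F 0 • (1 : Matrix α α R))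
    (T : Fin r → Matrix β β R) (hT : Fam L T fun j => F j.succ) :
    Fam L (Fin.cons (α := fun _ => Matrix (α × β) (α × β) R)
      (kroneckerMap (· * ·) A (1 : Matrix β β R))
      fun j => kroneckerMap (· * ·) (1 : Matrix α α R) (T j)) F := by
  have h1 : ∀ j, Commute (kroneckerMap (· * ·) A (1 : Matrix β β R))
      (kroneckerMap (· * ·) (1 : Matrix α α R) (T j)) := fun j => by
    unfold Commute SemiconjBy
    rw [← mul_kronecker_mul, ← mul_kronecker_mul, mul_one, one_mul, mul_one, one_mul]
  refine ⟨fun j => ?_, fun i j => ?_, fun j => ?_⟩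
  · refine Fin.cases ?_ (fun j => ?_) j
    · exact qe_left L A hA
    · exact qe_right L (T j) (hT.mem j)
  · refine Fin.cases ?_ (fun i => ?_) i <;> refine Fin.cases ?_ (fun j => ?_) j
    · exact Commute.refl _
    · exact h1 j
    · exact (h1 i).symm
    · simp only [Fin.cons_succ]
      unfold Commute SemiconjBy
      rw [← mul_kronecker_mul, ← mul_kronecker_mul, (hT.comm i j).eq]
  · refine Fin.cases ?_ (fun j => ?_) j
    · refine ⟨kroneckerMap (· * ·) A' (1 : Matrix β β R), ?_⟩
      simp only [Fin.cons_zero]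
      rw [← mul_kronecker_mul, hA', mul_one, smul_kronecker, one_kronecker_one]
    · obtain ⟨T', h⟩ := hT.div j
      refine ⟨kroneckerMap (· * ·) (1 : Matrix α α R) T', ?_⟩
      simp only [Fin.cons_succ]
      rw [← mul_kronecker_mul, h, mul_one, kronecker_smul, one_kronecker_one]

theorem exists_fam [IsAlgClosed K] (L : Submodule K R) {r : ℕ} (F : Fin r → R) (d : Fin r → ℕ)
    (hd : ∀ j, 0 < d j) (hF : ∀ j, F j ∈ L ^ d j) :
    ∃ (ι : Type) (_ : Fintype ι) (_ : DecidableEq ι) (_ : Nonempty ι)
      (T : Fin r → Matrix ι ι R), Fam L T F := by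
  induction r with
  | zero =>
    exact ⟨Unit, inferInstance, inferInstance, inferInstance, fun j => j.elim0,
      fun j => j.elim0, fun j => j.elim0, fun j => j.elim0⟩
  | succ r ih =>
    obtain ⟨β, _, _, _, T, hT⟩ := ih (fun j => F j.succ) (fun j => d j.succ)
      (fun j => hd _) fun j => hF _
    obtain ⟨α, _, _, _, A, hA, hA'⟩ := exists_root L (hd 0) (hF 0)
    refine ⟨α × β, inferInstance, inferInstance, inferInstance, _,
      qe_step L F A (A ^ (d 0 - 1)) hA ?_ T hT⟩
    rw [← pow_succ', Nat.sub_add_cancel (hd 0), hA']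

end Pool.Agent.Lib.MP_cf0da3_ag.Det
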