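import Pool.Agent.Lib.MP_cf0da3_ag.Det.GA
import Pool.Agent.Lib.MP_cf0da3_ag.Det.GC
import Pool.Agent.Lib.MP_cf0da3_ag.Det.GD
import Pool.Agent.Lib.MP_cf0da3_ag.Det.QE

/-! Images of complete intersections of bidegree `(d, d)`. -/

namespace Pool.Agent.Lib.MP_cf0da3_ag.Det

open Submodule Module MvPolynomial Matrix

theorem ge_pow (K U Z : Type) [Field K] (d : ℕ) : BH K U Z d d = BH K U Z 1 1 ^ d := by
  rw [bh_eq, bh_eq, pow_one, pow_one, mul_pow]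

variable {k σ : Type} [Field k] [IsAlgClosed k] [Fintype σ] {c n : ℕ}

theorem core {F : Fin (n + c + 1) → MvPolynomial ((σ ⊕ Fin (c + 1)) ⊕ Fin (n + 1)) k}
    {d : Fin (n + c + 1) → ℕ} (hd : ∀ j, 0 < d j)
    (hF : ∀ j, F j ∈ BH k (σ ⊕ Fin (c + 1)) (Fin (n + 1)) (d j) (d j))
    (h0 : ∀ (u : Fin (c + 1) → k) (z : Fin (n + 1) → k),
      (∀ j, eval (Sum.elim (Sum.elim 0 u) z) (F j) = 0) → u = 0 ∨ z = 0)
    {K : Type} [Field K] [IsAlgClosed K] [Algebra k K] {y : σ → K} (hy : AlgebraicIndependent k y)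
    (h1 : ∀ (t : K) (u : Fin (c + 1) → K) (z : Fin (n + 1) → K), t ≠ 0 → z 0 = 0 →
      (∀ j, aeval (Sum.elim (Sum.elim (fun s => y s * t) u) z) (F j) = 0) → z = 0) :
    ∃ (r : ℕ) (ψ : MvPolynomial (σ ⊕ Fin (c + 1)) k →ₐ[k]
        Matrix (Fin r) (Fin r) (MvPolynomial σ k)), 0 < r ∧
      (∀ x a b, (ψ (X x) a b).IsHomogeneous 1) ∧
      (∀ i, ψ (X (Sum.inl i)) = diagonal fun _ => X i) ∧
      ∀ (f : MvPolynomial (σ ⊕ Fin (c + 1)) k) (L : ℕ),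
        rename Sum.inl f * zs k (σ ⊕ Fin (c + 1)) (Fin (n + 1)) 0 ^ L ∈ Ideal.span (Set.range F) →
          ψ f = 0 := by
  obtain ⟨ι, _, _, _, T, hT⟩ := exists_fam (BH k (σ ⊕ Fin (c + 1)) (Fin (n + 1)) 1 1) F d hd
    fun j => ge_pow k _ _ (d j) ▸ hF j
  obtain ⟨ψ, p1, p2, p3⟩ := exists_psi
    (rename Sum.inl : MvPolynomial (σ ⊕ Fin (c + 1)) k →ₐ[k]
      MvPolynomial ((σ ⊕ Fin (c + 1)) ⊕ Fin (n + 1)) k).toRingHom (im T)
    (vb k (σ ⊕ Fin (c + 1)) : Ix ι (Fin (n + 1)) (c + 1) → _)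
    (fun a b => lin_act hT h0 a b)
    (fun g hg => indep hT h0 hy h1 (L := 0) (by rw [pow_zero, one_smul]; exact hg))
  let e := Fintype.equivFin (Ix ι (Fin (n + 1)) (c + 1))
  refine ⟨_, (Matrix.reindexAlgEquiv k (MvPolynomial σ k) e).toAlgHom.comp ψ, ?_,
    fun x a b => p1 x _ _, fun i => ?_, fun f L hf => ?_⟩
  · have : Nonempty (Ix ι (Fin (n + 1)) (c + 1)) := ix_nonempty
    exact Fintype.card_pos
  · rw [AlgHom.comp_apply, p2]
    exact Matrix.submatrix_diagonal_equiv (fun _ => (X i : MvPolynomial σ k)) e.symm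
  · have h2 : ψ f = 0 := by
      ext1 a b
      have h3 := (im T).smul_mem (zs k (σ ⊕ Fin (c + 1)) (Fin (n + 1)) 0 ^ L) (p3 f b)
      have h4 := hT.smul_mem hf (vb k (σ ⊕ Fin (c + 1)) b)
      have h5 := (im T).sub_mem h4 h3
      rw [smul_sub, mul_comm, mul_smul] at h5
      have h6 := indep hT h0 hy h1 (L := L) (g := fun a => ψ f a b)
        (by convert h5 using 1; exact (sub_sub_cancel _ _).symm)
      exact congrFun h6 a
    rw [AlgHom.comp_apply, h2, map_zero]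

end Pool.Agent.Lib.MP_cf0da3_ag.Det
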