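import Pool.Agent.Lib.MP_cf0da3_ag.Det.Defs

/-! The generic perturbation has no zero on a fixed hyperplane. -/

namespace Pool.Agent.Lib.MP_cf0da3_ag.Det

open Submodule Module MvPolynomial Matrix

theorem gf_card {k K ι τ : Type} [Field k] [Field K] [Algebra k K] [Fintype ι] [Fintype τ]
    {y : ι → K} (hy : AlgebraicIndependent k y) (g : τ → K)
    (h : ∀ s, IsAlgebraic (Algebra.adjoin k (Set.range g)) (y s)) :
    Fintype.card ι ≤ Fintype.card τ := by
  have h1 : (AlgebraicIndependent.matroid k K).Indep (Set.range y) := hy.to_subtype_range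
  have h2 : Set.range y ⊆ (AlgebraicIndependent.matroid k K).closure (Set.range g) := by
    rw [AlgebraicIndependent.matroid_closure_eq]
    rintro _ ⟨s, rfl⟩
    exact h s
  have h3 := (h1.encard_le_eRk_of_subset h2).trans
    ((Matroid.eRk_closure_eq _ _).le.trans (Matroid.eRk_le_encard _ _))
  have h4 : (Set.range g).encard ≤ ENat.card τ := by
    rw [← Set.image_univ, ← Set.encard_univ]
    exact Set.encard_image_le _ _
  simpa [ENat.card_eq_coe_fintype_card] using hy.injective.encard_range.trans (h3.trans h4)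

theorem gf_hom {k K σ : Type} [Field k] [Field K] [Algebra k K] {p : MvPolynomial σ k} {e : ℕ}
    (hp : p.IsHomogeneous e) (x : σ → K) (t : K) :
    aeval (fun s => x s * t) p = aeval x p * t ^ e := by
  conv_lhs => rw [p.as_sum]
  conv_rhs => rw [p.as_sum]
  simp only [map_sum, aeval_monomial, Finset.sum_mul]
  refine Finset.sum_congr rfl fun m hm => ?_
  have h : ∑ s ∈ m.support, m s = e := by
    simpa [Finsupp.weight_apply, Finsupp.sum] using hp (mem_support_iff.1 hm)
  simp only [Finsupp.prod, mul_pow, Finset.prod_mul_distrib, Finset.prod_pow_eq_pow_sum, h,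
    mul_assoc]

theorem generic {k σ K : Type} [Field k] [Fintype σ] [Field K] [Algebra k K] {c n e : ℕ}
    (he : 0 < e) (A : Matrix (Fin (n + 1)) (Fin (n + c + 1)) (MvPolynomial (σ ⊕ Fin (c + 1)) k))
    (hA : ∀ i j, (A i j).IsHomogeneous e) {y : σ ⊕ Fin (n + 1) × Fin (n + c + 1) → K}
    (hy : AlgebraicIndependent k y) {t : K} (ht : t ≠ 0) (u : Fin (c + 1) → K)
    {z : Fin (n + 1) → K} (hz : z 0 = 0)
    (h : ∀ j, ∑ i, z i ^ e * (aeval (Sum.elim (fun s => y (Sum.inl s) * t) u) (A i j) +
      (y (Sum.inr (i, j)) * t) ^ e) = 0) : z = 0 := by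
  classical
  by_contra hz0
  obtain ⟨i0, hi0⟩ := Function.ne_iff.1 hz0
  replace hi0 : z i0 ≠ 0 := hi0
  have hne : i0 ≠ 0 := fun e => hi0 (e ▸ hz)
  let g : σ ⊕ (↥(Finset.univ.erase i0) × Fin (n + c + 1)) ⊕ Fin (c + 1) ⊕
      ↥((Finset.univ.erase (0 : Fin (n + 1))).erase i0) → K :=
    Sum.elim (fun s => y (Sum.inl s)) (Sum.elim (fun p => y (Sum.inr (p.1.1, p.2)))
      (Sum.elim (fun a => u a / t) fun i => z i.1 / z i0))
  have hg : ∀ s, g s ∈ Algebra.adjoin k (Set.range g) := fun s => Algebra.subset_adjoin ⟨s, rfl⟩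
  have hcard := gf_card hy g ?_
  · simp only [Fintype.card_sum, Fintype.card_prod, Fintype.card_coe, Fintype.card_fin,
      Finset.card_erase_of_mem (Finset.mem_univ _), Finset.card_univ,
      Finset.card_erase_of_mem (Finset.mem_erase.2 ⟨hne, Finset.mem_univ i0⟩),
      Nat.add_sub_cancel] at hcard
    have h1 : 0 < n := by
      have h2 := Fin.pos_iff_ne_zero.2 hne
      have h3 := i0.2
      have h4 : 0 < i0.1 := h2
      omega
    rw [add_mul, one_mul] at hcard
    omega
  · have h1 : ∀ s, y (Sum.inl s) ∈ Algebra.adjoin k (Set.range g) := fun s => hg (Sum.inl s)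
    have h2 : ∀ i, i ≠ i0 → ∀ j, y (Sum.inr (i, j)) ∈ Algebra.adjoin k (Set.range g) :=
      fun i hi j => hg (Sum.inr (Sum.inl (⟨i, Finset.mem_erase.2 ⟨hi, Finset.mem_univ _⟩⟩, j)))
    have h3 : ∀ a, u a / t ∈ Algebra.adjoin k (Set.range g) :=
      fun a => hg (Sum.inr (Sum.inr (Sum.inl a)))
    have h4 : ∀ i, i ≠ i0 → z i / z i0 ∈ Algebra.adjoin k (Set.range g) := by
      intro i hi
      by_cases h0 : i = 0
      · rw [h0, hz, zero_div]
        exact zero_mem _
      · exact hg (Sum.inr (Sum.inr (Sum.inr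
          ⟨i, Finset.mem_erase.2 ⟨hi, Finset.mem_erase.2 ⟨h0, Finset.mem_univ _⟩⟩⟩)))
    generalize Algebra.adjoin k (Set.range g) = S at h1 h2 h3 h4 ⊢
    have h5 : ∀ i j, aeval (Sum.elim (fun s => y (Sum.inl s)) fun a => u a / t) (A i j) ∈ S := by
      intro i j
      rw [aeval_def]
      refine eval₂_mem (fun m _ => S.algebraMap_mem _) ?_
      rintro (s | a)
      exacts [h1 s, h3 a]
    have h6 : ∀ x ∈ S, IsAlgebraic S x := fun x hx => isAlgebraic_algebraMap (⟨x, hx⟩ : S)
    have h7 : (Sum.elim (fun s => y (Sum.inl s) * t) u : σ ⊕ Fin (c + 1) → K) =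
        fun s => (Sum.elim (fun s => y (Sum.inl s)) (fun a => u a / t) s) * t := by
      funext s
      rcases s with s | a
      · rfl
      · exact (div_mul_cancel₀ _ ht).symm
    rintro (s | ⟨i, j⟩)
    · exact h6 _ (h1 s)
    · by_cases hi : i = i0
      · subst hi
        refine IsAlgebraic.of_pow he (h6 _ ?_)
        have h8 := h j
        rw [← Finset.add_sum_erase _ _ (Finset.mem_univ i), h7] at h8
        simp only [gf_hom (hA _ j), mul_pow, ← add_mul, ← mul_assoc, ← Finset.sum_mul] at h8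
        have h9 := (mul_eq_zero.1 h8).resolve_right (pow_ne_zero _ ht)
        have h10 : y (Sum.inr (i, j)) ^ e =
            -(aeval (Sum.elim (fun s => y (Sum.inl s)) fun a => u a / t) (A i j) +
              ∑ l ∈ Finset.univ.erase i, (z l / z i) ^ e *
                (aeval (Sum.elim (fun s => y (Sum.inl s)) fun a => u a / t) (A l j) +
                  y (Sum.inr (l, j)) ^ e)) := by
          simp only [div_pow, div_mul_eq_mul_div, ← Finset.sum_div]
          have h11 := pow_ne_zero e hi0
          field_simp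
          linear_combination h9
        rw [h10]
        refine neg_mem (add_mem (h5 i j) (sum_mem fun l hl => ?_))
        have hl' := (Finset.mem_erase.1 hl).1
        exact mul_mem (pow_mem (h4 l hl') _) (add_mem (h5 l j) (pow_mem (h2 l hl' j) _))
      · exact h6 _ (h2 i hi j)

end Pool.Agent.Lib.MP_cf0da3_ag.Det
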