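import Pool.Agent.Lib.MP_cf0da3_ag.Det.GE
import Pool.Agent.Lib.MP_cf0da3_ag.Det.GF

/-! The perturbed determinantal variety. -/

namespace Pool.Agent.Lib.MP_cf0da3_ag.Det

open Submodule Module MvPolynomial Matrix

variable {k σ : Type} [Field k] [IsAlgClosed k] [Fintype σ] {c n : ℕ}

/-- The matrix `A i j + w i j ^ e`. -/
noncomputable def pert (e : ℕ)
    (A : Matrix (Fin (n + 1)) (Fin (n + c + 1)) (MvPolynomial (σ ⊕ Fin (c + 1)) k)) :
    Matrix (Fin (n + 1)) (Fin (n + c + 1))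
      (MvPolynomial ((σ ⊕ Fin (n + 1) × Fin (n + c + 1)) ⊕ Fin (c + 1)) k) :=
  fun i j => rename (Sum.map Sum.inl id) (A i j) + X (Sum.inl (Sum.inr (i, j))) ^ e

theorem gg_wt {U Z : Type} (u : U →₀ ℕ) :
    Finsupp.weight (wt U Z) (u.mapDomain Sum.inl) = (Finsupp.weight 1 u, 0) := by
  induction u using Finsupp.induction_linear with
  | zero => rw [Finsupp.mapDomain_zero, map_zero, map_zero, Prod.mk_zero_zero]
  | add f g hf hg => rw [Finsupp.mapDomain_add, map_add, map_add, hf, hg, Prod.mk_add_mk]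
  | single a b => simp [Finsupp.weight_single, wt]

theorem gg_mem {K U Z : Type} [Field K] {e : ℕ} {p : MvPolynomial U K} (hp : p.IsHomogeneous e)
    (i : Z) : zs K U Z i ^ e * rename Sum.inl p ∈ BH K U Z e e := by
  have h1 : (rename Sum.inl p : MvPolynomial (U ⊕ Z) K).IsWeightedHomogeneous (wt U Z) (e, 0) := by
    intro d hd
    obtain ⟨u, rfl, hu⟩ := coeff_rename_ne_zero _ _ _ hd
    rw [gg_wt, ← hp hu]
  have h2 := ((isWeightedHomogeneous_X K (wt U Z) (Sum.inr i)).pow e).mul h1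
  simpa [wt] using h2

theorem gg_det {R m J : Type} [CommRing R] [Fintype m] [DecidableEq m] (v : m → R)
    (B : Matrix m J R) (s : m → J) (i : m) :
    (B.submatrix id s).det * v i ∈ Ideal.span (Set.range fun j => ∑ l, v l * B l j) := by
  have h := congrFun (vecMul_vecMul v (B.submatrix id s) (B.submatrix id s).adjugate) i
  rw [mul_adjugate, vecMul_smul, vecMul_one, Pi.smul_apply, smul_eq_mul] at h
  rw [← h]
  exact Ideal.sum_mem _ fun j _ => Ideal.mul_mem_right _ _ (Ideal.subset_span ⟨s j, rfl⟩)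

theorem pert_ulrich {e : ℕ} (he : 0 < e)
    (A : Matrix (Fin (n + 1)) (Fin (n + c + 1)) (MvPolynomial (σ ⊕ Fin (c + 1)) k))
    (hA : ∀ i j, (A i j).IsHomogeneous e)
    (hfin : ∀ u : Fin (c + 1) → k, u ≠ 0 → ∃ s : Fin (n + 1) → Fin (n + c + 1),
      eval (Sum.elim 0 u) (A.submatrix id s).det ≠ 0) :
    ∃ (r : ℕ) (ψ : MvPolynomial ((σ ⊕ Fin (n + 1) × Fin (n + c + 1)) ⊕ Fin (c + 1)) k →ₐ[k]
        Matrix (Fin r) (Fin r) (MvPolynomial (σ ⊕ Fin (n + 1) × Fin (n + c + 1)) k)), 0 < r ∧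
      (∀ x a b, (ψ (X x) a b).IsHomogeneous 1) ∧
      (∀ i, ψ (X (Sum.inl i)) = diagonal fun _ => X i) ∧
      ∀ s : Fin (n + 1) → Fin (n + c + 1), ψ ((pert e A).submatrix id s).det = 0 := by
  let P := MvPolynomial (σ ⊕ Fin (n + 1) × Fin (n + c + 1)) k
  let K := AlgebraicClosure (FractionRing P)
  have hy := (algebraicIndependent_X (σ ⊕ Fin (n + 1) × Fin (n + c + 1)) k).map'
    (f := IsScalarTower.toAlgHom k P K)
    ((algebraMap (FractionRing P) K).injective.comp (IsFractionRing.injective P (FractionRing P)))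
  generalize ⇑(IsScalarTower.toAlgHom k P K) ∘ X = y at hy
  refine (core (d := fun _ => e)
    (F := fun j => ∑ i, zs k _ (Fin (n + 1)) i ^ e * rename Sum.inl (pert e A i j))
    (fun _ => he) (fun j => sum_mem fun i _ => gg_mem ((hA i j).rename_isHomogeneous.add
      (by simpa using (isHomogeneous_X k _).pow e)) i)
    (fun u z h => or_iff_not_imp_left.2 fun hu => ?_) hy
    fun t u z ht hz h => generic he A hA hy ht u hz fun j => ?_).imp fun r => Exists.imp
      fun ψ ⟨h1, h2, h3, h4⟩ => ⟨h1, h2, h3, fun s => h4 _ e ?_⟩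
  · obtain ⟨s, hs⟩ := hfin u hu
    have e1 : Sum.elim (Sum.elim (0 : σ ⊕ Fin (n + 1) × Fin (n + c + 1) → k) u) z ∘ Sum.inl ∘
        Sum.map Sum.inl id = Sum.elim (0 : σ → k) u := funext fun x => by cases x <;> rfl
    rw [RingHom.map_det] at hs
    have h5 := eq_zero_of_vecMul_eq_zero hs (v := fun i => z i ^ e) (funext fun j => by
      simpa [pert, eval_rename, e1, he.ne', vecMul, dotProduct] using h (s j))
    exact funext fun i => pow_eq_zero_iff he.ne' |>.1 (congrFun h5 i)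
  · have e1 : Sum.elim (Sum.elim (fun s => y s * t) u) z ∘ Sum.inl ∘ Sum.map Sum.inl id =
        Sum.elim (fun s => y (Sum.inl s) * t) u := funext fun x => by cases x <;> rfl
    simpa [pert, aeval_rename, e1] using h j
  · rw [AlgHom.map_det]
    exact gg_det (fun i => zs k _ (Fin (n + 1)) i ^ e) ((pert e A).map (rename Sum.inl)) s 0

end Pool.Agent.Lib.MP_cf0da3_ag.Det
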