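import Pool.Agent.Lib.MP_cf0da3_ag.Det.GG

/-! Ulrich modules on determinantal varieties with entries of one degree. -/

namespace Pool.Agent.Lib.MP_cf0da3_ag.Det

open Submodule Module MvPolynomial Matrix

theorem det_ulrich {k σ : Type} [Field k] [IsAlgClosed k] [Fintype σ] {c n e : ℕ} (he : 0 < e)
    (A : Matrix (Fin (n + 1)) (Fin (n + c + 1)) (MvPolynomial (σ ⊕ Fin (c + 1)) k))
    (hA : ∀ i j, (A i j).IsHomogeneous e)
    (hfin : ∀ u : Fin (c + 1) → k, u ≠ 0 → ∃ s : Fin (n + 1) → Fin (n + c + 1),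
      eval (Sum.elim 0 u) (A.submatrix id s).det ≠ 0) :
    ∃ (r : ℕ) (ψ : MvPolynomial (σ ⊕ Fin (c + 1)) k →ₐ[k]
        Matrix (Fin r) (Fin r) (MvPolynomial σ k)), 0 < r ∧
      (∀ x a b, (ψ (X x) a b).IsHomogeneous 1) ∧
      (∀ i, ψ (X (Sum.inl i)) = diagonal fun _ => X i) ∧
      ∀ s : Fin (n + 1) → Fin (n + c + 1), ψ (A.submatrix id s).det = 0 := by
  obtain ⟨r, ψ, hr, h1, h2, h3⟩ := pert_ulrich he A hA hfin
  let κ : MvPolynomial (σ ⊕ Fin (n + 1) × Fin (n + c + 1)) k →ₐ[k] MvPolynomial σ k :=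
    aeval (Sum.elim X 0)
  let κ' : MvPolynomial ((σ ⊕ Fin (n + 1) × Fin (n + c + 1)) ⊕ Fin (c + 1)) k →ₐ[k]
      MvPolynomial (σ ⊕ Fin (c + 1)) k :=
    aeval (Sum.elim (Sum.elim (fun s => X (Sum.inl s)) 0) fun a => X (Sum.inr a))
  have hκ : ∀ f : MvPolynomial (σ ⊕ Fin (n + 1) × Fin (n + c + 1)) k, f.IsHomogeneous 1 →
      (κ f).IsHomogeneous 1 := fun f hf =>
    hf.aeval (n := 1) _ fun i => by
      rcases i with i | i
      · exact isHomogeneous_X _ _
      · exact isHomogeneous_zero _ _ _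
  have hc : κ'.comp (rename (Sum.map Sum.inl id)) = AlgHom.id k _ := by
    refine algHom_ext fun x => ?_
    rcases x with x | x <;> simp [κ']
  have hp : ∀ i j, κ' (pert e A i j) = A i j := fun i j => by
    have := AlgHom.congr_fun hc (A i j)
    simp only [AlgHom.comp_apply, AlgHom.id_apply] at this
    rw [pert, map_add, this]
    simp [κ', he.ne']
  have hψ : (κ.mapMatrix.comp (ψ.comp (rename (Sum.map Sum.inl id)))).comp κ' =
      κ.mapMatrix.comp ψ := by
    refine algHom_ext fun x => ?_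
    rcases x with (x | x) | x
    · simp [κ']
    · ext a b : 2
      by_cases h : a = b <;> simp [κ', κ, h2, h]
    · simp [κ']
  refine ⟨r, κ.mapMatrix.comp (ψ.comp (rename (Sum.map Sum.inl id))), hr, fun x a b => ?_,
    fun i => ?_, fun s => ?_⟩
  · simpa using hκ _ (h1 _ a b)
  · ext a b : 2
    by_cases h : a = b <;> simp [κ, h2, h]
  · have e1 : (A.submatrix id s).det = κ' ((pert e A).submatrix id s).det := by
      rw [AlgHom.map_det]
      congr 1
      ext a b : 2
      simp [hp]
    rw [e1, ← AlgHom.comp_apply, hψ, AlgHom.comp_apply, h3, map_zero]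

/-- Coordinates adapted to independent linear forms. -/
theorem exists_coord {k : Type} [Field k] {m d c : ℕ} (hd : d + c + 1 = m)
    {ℓ : Fin (d + 1) → MvPolynomial (Fin (m + 1)) k} (hℓ : ∀ i, (ℓ i).IsHomogeneous 1)
    (hli : LinearIndependent k ℓ) :
    ∃ β : MvPolynomial (Fin (m + 1)) k →ₐ[k] MvPolynomial (Fin (d + 1) ⊕ Fin (c + 1)) k,
      (∀ j, (β (X j)).IsHomogeneous 1) ∧ (∀ i, β (ℓ i) = X (Sum.inl i)) ∧
      ∀ a, ∃ f : MvPolynomial (Fin (m + 1)) k, f.IsHomogeneous 1 ∧ β f = X (Sum.inr a) := by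
  let V := homogeneousSubmodule (Fin (m + 1)) k 1
  have : Module.Finite k V := Module.Finite.iff_fg.2 (homog_fg k _ 1)
  have hV : finrank k V = m + 1 := by simpa using homog_finrank k (Fin (m + 1)) 1
  let l : Fin (d + 1) → V := fun i => ⟨ℓ i, hℓ i⟩
  have hl : LinearIndependent k l := LinearIndependent.of_comp V.subtype hli
  let b := Basis.sumExtend hl
  have hfin : Finite (Fin (d + 1) ⊕ Basis.sumExtendIndex hl) := Module.Finite.finite_basis b
  have : Finite (Basis.sumExtendIndex hl) := Finite.sum_right (Fin (d + 1))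
  have := Fintype.ofFinite (Basis.sumExtendIndex hl)
  have hc : Fintype.card (Basis.sumExtendIndex hl) = c + 1 := by
    have := finrank_eq_card_basis b
    simp only [Fintype.card_sum, Fintype.card_fin, hV] at this
    omega
  let ε := Fintype.equivFinOfCardEq hc
  let lam : V →ₗ[k] MvPolynomial (Fin (d + 1) ⊕ Fin (c + 1)) k :=
    b.constr k fun t => X (Sum.map id ε t)
  have hlam : ∀ v, (lam v).IsHomogeneous 1 := fun v => by
    rw [← b.sum_repr v, map_sum]
    refine IsHomogeneous.sum _ _ _ fun t _ => ?_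
    rw [map_smul, Basis.constr_basis]
    exact (homogeneousSubmodule _ k 1).smul_mem _ (isHomogeneous_X _ _)
  let β : MvPolynomial (Fin (m + 1)) k →ₐ[k] MvPolynomial (Fin (d + 1) ⊕ Fin (c + 1)) k :=
    aeval fun j => lam ⟨X j, isHomogeneous_X _ _⟩
  have hβ : ∀ v (hv : v ∈ V), β v = lam ⟨v, hv⟩ := by
    intro v hv
    have hv' : v ∈ span k (Set.range X) := by rwa [← homogeneousSubmodule_one_eq_span_X]
    induction hv' using span_induction with
    | mem x hx =>
      obtain ⟨j, rfl⟩ := hx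
      simp [β]
    | zero => rw [map_zero]; exact (map_zero lam).symm
    | add x y hx hy ihx ihy =>
      rw [← homogeneousSubmodule_one_eq_span_X] at hx hy
      rw [map_add, ihx hx, ihy hy, ← map_add]
      rfl
    | smul a x hx ih =>
      rw [← homogeneousSubmodule_one_eq_span_X] at hx
      rw [map_smul, ih hx, ← map_smul]
      rfl
  refine ⟨β, fun j => ?_, fun i => ?_, fun a => ⟨b (Sum.inr (ε.symm a)), (b _).2, ?_⟩⟩
  · rw [hβ _ (isHomogeneous_X _ _)]
    exact hlam _
  · have e1 : b (Sum.inl i) = l i := by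
      simp only [b, Basis.sumExtend, Basis.reindex_apply, Equiv.symm_symm, Basis.coe_extend]
      rfl
    rw [hβ _ (hℓ i)]
    change lam (l i) = _
    rw [← e1, Basis.constr_basis]
    rfl
  · rw [hβ _ (b _).2]
    change lam (b _) = _
    rw [Basis.constr_basis]
    simp

theorem line_homog {k τ : Type} [Field k] {f : MvPolynomial τ k} {q : ℕ} (hf : f.IsHomogeneous q)
    (x : τ → k) : aeval (fun j => Polynomial.C (x j) * Polynomial.X) f =
      Polynomial.C (eval x f) * Polynomial.X ^ q := by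
  rw [aeval_def, eval₂_eq, eval_eq, map_sum, Finset.sum_mul]
  refine Finset.sum_congr rfl fun t ht => ?_
  have := hf.degree_eq_sum_deg_support ht
  simp only [mul_pow, Finset.prod_mul_distrib, Finset.prod_pow_eq_pow_sum, ← this, map_mul,
    map_prod, map_pow, Polynomial.algebraMap_eq, mul_assoc]

theorem aeval_unique' {k τ R : Type} [Field k] [CommRing R] [Algebra k R]
    (β : MvPolynomial τ k →ₐ[k] R) : β = aeval fun j => β (X j) := aeval_unique β

/-- A linear Noether normalization has no zero on the variety. -/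
theorem no_zero {k σ τ : Type} [Field k] {P : Ideal (MvPolynomial τ k)}
    {ℓ : σ → MvPolynomial τ k} (hℓ : ∀ i, (ℓ i).IsHomogeneous 1)
    (hfin : (aeval (fun i => Ideal.Quotient.mk P (ℓ i)) :
      MvPolynomial σ k →ₐ[k] MvPolynomial τ k ⧸ P).toRingHom.Finite) {x : τ → k}
    (hP : ∀ f ∈ P, aeval (fun j => Polynomial.C (x j) * Polynomial.X) f = 0)
    (hx : ∀ i, eval x (ℓ i) = 0) : x = 0 := by
  funext j
  by_contra hj
  let g := Ideal.Quotient.liftₐ P (aeval fun j => Polynomial.C (x j) * Polynomial.X) hP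
  obtain ⟨p, hp, h0⟩ := hfin.to_isIntegral (Ideal.Quotient.mk P (X j))
  have hl : ∀ i, aeval (fun j => Polynomial.C (x j) * Polynomial.X) (ℓ i) = 0 := fun i => by
    rw [line_homog (hℓ i), hx, map_zero, zero_mul]
  have hc : g.toRingHom.comp (aeval (fun i => Ideal.Quotient.mk P (ℓ i)) :
      MvPolynomial σ k →ₐ[k] MvPolynomial τ k ⧸ P).toRingHom =
      (algebraMap k (Polynomial k)).comp constantCoeff := by
    refine ringHom_ext (fun a => ?_) fun i => ?_
    · simp [g]
    · simpa [g] using hl i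
  have h1 := congrArg g.toRingHom h0
  rw [Polynomial.hom_eval₂, hc, map_zero, ← Polynomial.eval₂_map] at h1
  have h2 : IsIntegral k (Polynomial.C (x j) * Polynomial.X) :=
    ⟨_, hp.map constantCoeff, by simpa [g] using h1⟩
  have h3 : IsIntegral k (Polynomial.X : Polynomial k) := by
    have := h2.smul (x j)⁻¹
    rwa [Polynomial.smul_eq_C_mul, ← mul_assoc, ← map_mul, inv_mul_cancel₀ hj, map_one,
      one_mul] at this
  exact Polynomial.transcendental_X k h3.isAlgebraic

theorem det_ulrich' {k : Type} [Field k] [IsAlgClosed k] {m n c d e N : ℕ} (he : 0 < e)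
    (hd : d + (c + 1) = m) (hN : N = n + c + 1)
    (A : Matrix (Fin (n + 1)) (Fin N) (MvPolynomial (Fin (m + 1)) k))
    (hA : ∀ i j, (A i j).IsHomogeneous e) {P : Ideal (MvPolynomial (Fin (m + 1)) k)}
    (hP : P = Ideal.span (Set.range fun s : Fin (n + 1) → Fin N => (A.submatrix id s).det))
    {ℓ : Fin (d + 1) → MvPolynomial (Fin (m + 1)) k} (hℓ : ∀ i, (ℓ i).IsHomogeneous 1)
    (hinj : Function.Injective (aeval (fun i => Ideal.Quotient.mk P (ℓ i)) :
      MvPolynomial (Fin (d + 1)) k →ₐ[k] MvPolynomial (Fin (m + 1)) k ⧸ P))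
    (hfin : (aeval (fun i => Ideal.Quotient.mk P (ℓ i)) :
      MvPolynomial (Fin (d + 1)) k →ₐ[k] MvPolynomial (Fin (m + 1)) k ⧸ P).toRingHom.Finite) :
    ∃ (r : ℕ) (ψ : MvPolynomial (Fin (m + 1)) k →ₐ[k]
        Matrix (Fin r) (Fin r) (MvPolynomial (Fin (d + 1)) k)), 0 < r ∧
      (∀ j a b, (ψ (X j) a b).IsHomogeneous 1) ∧ (∀ f ∈ P, ψ f = 0) ∧
      ∀ i, ψ (ℓ i) = diagonal fun _ => X i := by
  subst hN
  have hli : LinearIndependent k ℓ := by
    refine LinearIndependent.of_comp (Ideal.Quotient.mkₐ k P).toLinearMap ?_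
    exact (algebraicIndependent_iff_injective_aeval.2 hinj).linearIndependent
  obtain ⟨β, hX, hl, hu⟩ := exists_coord (c := c) hd hℓ hli
  have hβ : ∀ {q : ℕ} {f : MvPolynomial (Fin (m + 1)) k}, f.IsHomogeneous q →
      (β f).IsHomogeneous q := fun {q f} hf => by
    have := hf.aeval (fun j => β (X j)) hX
    rwa [one_mul, ← aeval_unique' β] at this
  have hdet : ∀ s : Fin (n + 1) → Fin (n + c + 1),
      ((A.map β).submatrix id s).det = β (A.submatrix id s).det := fun s => by
    rw [AlgHom.map_det]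
    rfl
  obtain ⟨r, ψ, hr, h1, h2, h3⟩ := det_ulrich he (A.map β) (fun i j => hβ (hA i j)) (by
    intro u hu0
    by_contra hcon
    simp only [not_exists, not_not, hdet] at hcon
    have hev : ∀ f, eval (Sum.elim 0 u) (β f) = eval (fun j => eval (Sum.elim 0 u) (β (X j))) f := by
      intro f
      induction f using MvPolynomial.induction_on with
      | C a => simp [← algebraMap_eq]
      | add f g hf hg => simp [hf, hg]
      | mul_X f j hf => simp [hf]
    have hx : (fun j => eval (Sum.elim 0 u) (β (X j))) = 0 := by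
      refine no_zero hℓ hfin (fun f hf => ?_) fun i => by rw [← hev, hl]; simp
      rw [hP] at hf
      refine (Ideal.span_le (I := RingHom.ker (aeval _ : _ →ₐ[k] Polynomial k))).2 ?_ hf
      rintro _ ⟨s, rfl⟩
      have hh : (A.submatrix id s).det.IsHomogeneous ((n + 1) * e) := by
        rw [det_apply]
        refine IsHomogeneous.sum _ _ _ fun π _ => ?_
        have := IsHomogeneous.prod Finset.univ (fun i => A.submatrix id s (π i) i) (fun _ => e)
          fun i _ => hA _ _
        simp only [Finset.sum_const, Finset.card_univ, Fintype.card_fin, smul_eq_mul] at this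
        exact zsmul_mem (K := homogeneousSubmodule (Fin (m + 1)) k ((n + 1) * e)) this _
      change aeval _ _ = 0
      rw [line_homog hh, ← hev, hcon, map_zero, zero_mul]
    refine hu0 (funext fun a => ?_)
    obtain ⟨f, hf, e1⟩ := hu a
    have h4 := hev f
    rw [e1, hx, eval_zero, constantCoeff_eq, hf.coeff_eq_zero (by simp)] at h4
    simpa using h4)
  refine ⟨r, ψ.comp β, hr, fun j a b => ?_, fun f hf => ?_, fun i => by simp [hl, h2]⟩
  · have hj : β (X j) ∈ span k (Set.range X) := by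
      rw [← homogeneousSubmodule_one_eq_span_X]
      exact hX j
    change (ψ (β (X j)) a b).IsHomogeneous 1
    generalize β (X j) = y at hj
    induction hj using span_induction with
    | mem x hx =>
      obtain ⟨t, rfl⟩ := hx
      exact h1 t a b
    | zero => simpa using isHomogeneous_zero _ _ _
    | add x y _ _ hx hy => simpa using hx.add hy
    | smul t x _ hx =>
      rw [map_smul]
      exact (homogeneousSubmodule _ k 1).smul_mem t hx
  · rw [hP] at hf
    refine (Ideal.span_le (I := RingHom.ker (ψ.comp β))).2 ?_ hf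
    rintro _ ⟨s, rfl⟩
    change ψ (β _) = 0
    rw [← hdet, h3]

end Pool.Agent.Lib.MP_cf0da3_ag.Det
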