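import Pool.Agent.Lib.MP_cf0da3_ag.Det.Defs

/-! Two facts on binomial coefficients. -/

namespace Pool.Agent.Lib.MP_cf0da3_ag.Det

open Submodule Module MvPolynomial Matrix

theorem num_fac (r n : ℕ) :
    (r + 1).multichoose n * r.factorial * n.factorial = (r + n).factorial := by
  rw [Nat.multichoose_eq, show r + 1 + n - 1 = r + n by omega]
  exact Nat.add_choose_mul_factorial_mul_factorial r n

theorem num_pos (r n : ℕ) : 0 < (r + 1).multichoose n := by
  rw [Nat.multichoose_eq]
  exact Nat.choose_pos (by omega)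

theorem num_up (s n : ℕ) :
    (s + 1 + 1).multichoose n * (s + 1) = (s + 1).multichoose n * (s + n + 1) := by
  have h1 := num_fac (s + 1) n
  have h2 := num_fac s n
  rw [show s + 1 + n = s + n + 1 by omega, Nat.factorial_succ, Nat.factorial_succ, ← h2] at h1
  refine Nat.eq_of_mul_eq_mul_right
    (Nat.mul_pos (Nat.factorial_pos s) (Nat.factorial_pos n)) ?_
  calc _ = (s + 1 + 1).multichoose n * ((s + 1) * s.factorial) * n.factorial := by ring
    _ = _ := by rw [h1]; ring

theorem num_step (s n : ℕ) :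
    (s + 1).multichoose (n + 1) * (n + 1) = (s + 1).multichoose n * (s + n + 1) := by
  have h1 := num_fac s (n + 1)
  have h2 := num_fac s n
  rw [show s + (n + 1) = s + n + 1 by omega, Nat.factorial_succ, Nat.factorial_succ, ← h2] at h1
  refine Nat.eq_of_mul_eq_mul_right
    (Nat.mul_pos (Nat.factorial_pos s) (Nat.factorial_pos n)) ?_
  calc _ = (s + 1).multichoose (n + 1) * s.factorial * ((n + 1) * n.factorial) := by ring
    _ = _ := by rw [h1]; ring

theorem num_two (s n : ℕ) (h : s ≤ n) (k : ℕ) :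
    (s + 1).multichoose (n + k) ≤ 2 ^ k * (s + 1).multichoose n := by
  induction k with
  | zero => simp
  | succ k ih =>
    have h1 := num_step s (n + k)
    have h2 : (s + 1).multichoose (n + k + 1) ≤ 2 * (s + 1).multichoose (n + k) := by
      refine Nat.le_of_mul_le_mul_right ?_ (Nat.succ_pos (n + k))
      calc _ = (s + 1).multichoose (n + k) * (s + (n + k) + 1) := h1
        _ ≤ (s + 1).multichoose (n + k) * (2 * (n + k + 1)) :=
          Nat.mul_le_mul_left _ (by omega)
        _ = _ := by rw [Nat.succ_eq_add_one]; ring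
    calc _ ≤ 2 * (s + 1).multichoose (n + k) := h2
      _ ≤ 2 * (2 ^ k * (s + 1).multichoose n) := Nat.mul_le_mul_left _ ih
      _ = _ := by ring

theorem growth (r D κ : ℕ) : ∃ n, D * r.multichoose (n + κ + 1) < (r + 1).multichoose n := by
  rcases r with _ | s
  · exact ⟨0, by simp⟩
  obtain ⟨E, hE⟩ : ∃ E, E = D * 2 ^ (κ + 1) := ⟨_, rfl⟩
  obtain ⟨n, h0, h1⟩ : ∃ n, s ≤ n ∧ E * (s + 1) ≤ n := ⟨s + E * (s + 1), by omega, by omega⟩
  refine ⟨n, Nat.lt_of_mul_lt_mul_right (a := s + 1) ?_⟩
  rw [num_up]
  calc _ ≤ D * (2 ^ (κ + 1) * (s + 1).multichoose n) * (s + 1) :=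
        Nat.mul_le_mul_right _ (Nat.mul_le_mul_left _ (num_two s n h0 (κ + 1)))
    _ = (s + 1).multichoose n * (E * (s + 1)) := by rw [hE]; ring
    _ < _ := Nat.mul_lt_mul_of_pos_left (by omega) (num_pos s n)

theorem mc_mono (r : ℕ) : Monotone (r + 1).multichoose :=
  monotone_nat_of_le_succ fun n => by
    rw [Nat.multichoose_succ_succ]
    omega

theorem segre_num (a b p : ℕ) : (a + 1).multichoose p * (b + 1).multichoose (p + a) =
    (b + 1).multichoose a * (a + b + 1).multichoose p := by
  have h1 := num_fac a p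
  have h2 := num_fac b (p + a)
  have h3 := num_fac b a
  have h4 := num_fac (a + b) p
  rw [show p + a = a + p by omega] at h2 ⊢
  rw [← h1, show b + (a + p) = a + b + p by omega] at h2
  rw [show b + a = a + b by omega] at h3
  rw [← h3, ← h2] at h4
  refine Nat.eq_of_mul_eq_mul_right (Nat.mul_pos (Nat.factorial_pos a)
    (Nat.mul_pos (Nat.factorial_pos b) (Nat.factorial_pos p))) ?_
  calc _ = (b + 1).multichoose (a + p) * b.factorial *
        ((a + 1).multichoose p * a.factorial * p.factorial) := by ring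
    _ = _ := by rw [← h4]; ring

end Pool.Agent.Lib.MP_cf0da3_ag.Det
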