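import Pool.Agent.Lib.MP_cf0da3_ag.Det.Defs

/-! The binomial formula at a primitive root of unity. -/

namespace Pool.Agent.Lib.MP_cf0da3_ag.Det

open Submodule Module MvPolynomial Matrix

/-- Gaussian binomial coefficients. -/
def qaC {K : Type} [Field K] (ξ : K) : ℕ → ℕ → K
  | 0, 0 => 1
  | 0, _ + 1 => 0
  | _ + 1, 0 => 1
  | n + 1, j + 1 => ξ ^ (j + 1) * qaC ξ n (j + 1) + qaC ξ n j

theorem qa_zero {K : Type} [Field K] (ξ : K) (n : ℕ) : qaC ξ n 0 = 1 := by
  cases n <;> rfl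

theorem qa_gt {K : Type} [Field K] (ξ : K) (n : ℕ) : ∀ j, n < j → qaC ξ n j = 0 := by
  induction n with
  | zero =>
    intro j hj
    obtain ⟨j, rfl⟩ : ∃ i, j = i + 1 := ⟨j - 1, by omega⟩
    rfl
  | succ n ih =>
    intro j hj
    obtain ⟨j, rfl⟩ : ∃ i, j = i + 1 := ⟨j - 1, by omega⟩
    rw [qaC, ih _ (by omega), ih _ (by omega), mul_zero, add_zero]

theorem qa_self {K : Type} [Field K] (ξ : K) (n : ℕ) : qaC ξ n n = 1 := by
  induction n with
  | zero => rfl
  | succ n ih => rw [qaC, qa_gt ξ n _ (by omega), ih, mul_zero, zero_add]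

theorem qa_rec {K : Type} [Field K] (ξ : K) (n : ℕ) : ∀ j,
    ξ ^ j * (ξ ^ (j + 1) - 1) * qaC ξ n (j + 1) = (ξ ^ n - ξ ^ j) * qaC ξ n j := by
  induction n with
  | zero =>
    intro j
    cases j <;> simp [qaC]
  | succ n ih =>
    intro j
    cases j with
    | zero =>
      have h := ih 0
      rw [qa_zero] at h
      rw [qa_zero, qaC, qa_zero]
      linear_combination ξ * h
    | succ j =>
      rw [qaC, qaC]
      linear_combination ξ ^ (j + 2) * ih (j + 1) + ξ * ih j

theorem qa_comm {K A : Type} [Field K] [Ring A] [Algebra K A] {ξ : K} {a b : A}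
    (h : b * a = ξ • (a * b)) (j : ℕ) : b ^ j * a = ξ ^ j • (a * b ^ j) := by
  induction j with
  | zero => simp
  | succ j ih =>
    rw [pow_succ' b, mul_assoc, ih, mul_smul_comm, ← mul_assoc, h, smul_mul_assoc, smul_smul,
      mul_assoc, pow_succ ξ]

theorem qa_pow {K A : Type} [Field K] [Ring A] [Algebra K A] {ξ : K} {a b : A}
    (h : b * a = ξ • (a * b)) (n : ℕ) :
    (a + b) ^ n =
      ∑ p ∈ Finset.HasAntidiagonal.antidiagonal n, qaC ξ n p.2 • (a ^ p.1 * b ^ p.2) := by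
  induction n with
  | zero => simp [qaC]
  | succ n ih =>
    have h1 := Finset.Nat.sum_antidiagonal_succ (n := n)
      (f := fun p => (ξ ^ p.2 * qaC ξ n p.2) • (a ^ p.1 * b ^ p.2))
    have h2 := Finset.Nat.sum_antidiagonal_succ' (n := n)
      (f := fun p => (qaC ξ (n + 1) p.2 - ξ ^ p.2 * qaC ξ n p.2) • (a ^ p.1 * b ^ p.2))
    simp only [qa_gt ξ n (n + 1) (by omega), mul_zero, zero_smul, zero_add] at h1
    simp only [qa_zero, pow_zero, mul_one, sub_self, zero_smul, zero_add, qaC,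
      add_sub_cancel_left] at h2
    rw [pow_succ, ih, mul_add, Finset.sum_mul, Finset.sum_mul]
    simp only [smul_mul_assoc, mul_assoc, qa_comm h, mul_smul_comm, smul_smul, ← pow_succ]
    simp only [← mul_assoc, ← pow_succ, mul_comm (qaC ξ n _)]
    rw [← h1, ← h2, ← Finset.sum_add_distrib]
    exact Finset.sum_congr rfl fun p _ => by rw [← add_smul, add_sub_cancel]

theorem qpow {K A : Type} [Field K] [Ring A] [Algebra K A] {ξ : K} {e : ℕ} (he : 0 < e)
    (hξ : IsPrimitiveRoot ξ e) {a b : A} (h : b * a = ξ • (a * b)) :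
    (a + b) ^ e = a ^ e + b ^ e := by
  have h0 : ∀ j, j + 1 < e → qaC ξ e (j + 1) = 0 := by
    intro j
    have hne : j + 1 < e → ξ ^ j * (ξ ^ (j + 1) - 1) ≠ 0 := fun hj =>
      mul_ne_zero (pow_ne_zero _ (hξ.ne_zero he.ne'))
        (sub_ne_zero.2 (hξ.pow_ne_one_of_pos_of_lt (by omega) hj))
    induction j with
    | zero =>
      intro hj
      refine (mul_eq_zero.1 ((qa_rec ξ e 0).trans ?_)).resolve_left (hne hj)
      rw [hξ.pow_eq_one, pow_zero, sub_self, zero_mul]
    | succ j ih =>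
      intro hj
      refine (mul_eq_zero.1 ((qa_rec ξ e (j + 1)).trans ?_)).resolve_left (hne hj)
      rw [ih (fun hj => mul_ne_zero (pow_ne_zero _ (hξ.ne_zero he.ne'))
        (sub_ne_zero.2 (hξ.pow_ne_one_of_pos_of_lt (by omega) hj))) (by omega), mul_zero]
  obtain ⟨n, rfl⟩ : ∃ n, e = n + 1 := ⟨e - 1, by omega⟩
  rw [qa_pow h, Finset.Nat.sum_antidiagonal_succ, Finset.sum_eq_single (n, 0), add_comm]
  · simp [qa_zero, qa_self]
  · rintro ⟨i, j⟩ hp hne
    rw [Finset.HasAntidiagonal.mem_antidiagonal] at hp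
    cases j with
    | zero => exact absurd (congrArg (fun i => (i, 0)) (show i = n from hp)) hne
    | succ j => rw [h0 j (by simp only at hp; omega), zero_smul]
  · simp

end Pool.Agent.Lib.MP_cf0da3_ag.Det
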