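import Pool.Agent.Lib.MP_cf0da3_ag.Det.QA

/-! Clock and shift matrices. -/

namespace Pool.Agent.Lib.MP_cf0da3_ag.Det

open Submodule Module MvPolynomial Matrix

theorem qb_split (K : Type) [Field K] (p : ℕ) [hp : ExpChar K p] {e : ℕ} (he : 0 < e) :
    ∃ s n : ℕ, (n : K) ≠ 0 ∧ e = n * p ^ s := by
  cases hp with
  | zero => exact ⟨0, e, Nat.cast_ne_zero.2 he.ne', by simp⟩
  | prime hq =>
    obtain ⟨s, n, hn, rfl⟩ := Nat.exists_eq_pow_mul_and_not_dvd he.ne' p hq.ne_one
    exact ⟨s, n, fun h => hn ((CharP.cast_eq_zero_iff K p n).1 h), mul_comm _ _⟩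

theorem qb_shift (K : Type) [Field K] (m k : ℕ) :
    (of fun i j : Fin (m + 1) => if j = i + 1 then (1 : K) else 0) ^ k =
      of fun i j => if j = i + k • 1 then 1 else 0 := by
  induction k with
  | zero =>
    ext i j
    simp [one_apply, eq_comm]
  | succ k ih =>
    ext i j
    rw [pow_succ, ih, mul_apply, succ_nsmul]
    simp only [of_apply, ite_mul, one_mul, zero_mul, Finset.sum_ite_eq', Finset.mem_univ, if_true,
      add_assoc]

theorem qb_comm {K A : Type} [Field K] [Ring A] [Algebra K A] {ξ : K} {a b : A}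
    (h : b * a = ξ • (a * b)) (k : ℕ) : b * a ^ k = ξ ^ k • (a ^ k * b) := by
  induction k with
  | zero => simp
  | succ k ih =>
    rw [pow_succ, ← mul_assoc, ih, smul_mul_assoc, mul_assoc, h, mul_smul_comm, smul_smul,
      ← pow_succ, ← mul_assoc]

theorem exists_qpair (K : Type) [Field K] [IsAlgClosed K] {e : ℕ} (he : 0 < e) :
    ∃ (m : ℕ) (P Q : Matrix (Fin (m + 1)) (Fin (m + 1)) K) (ξ : K), P ^ e = 1 ∧ Q ^ e = 1 ∧
      Q * P = ξ • (P * Q) ∧ ∀ (A : Type) [Ring A] [Algebra K A] (a b : A),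
        b * a = ξ • (a * b) → (a + b) ^ e = a ^ e + b ^ e := by
  obtain ⟨p, hp⟩ := ExpChar.exists K
  obtain ⟨s, n, hn, rfl⟩ := qb_split K p he
  obtain ⟨m, rfl⟩ := Nat.exists_eq_succ_of_ne_zero (n := n) (by rintro rfl; simp at hn)
  have : NeZero ((m + 1 : ℕ) : K) := ⟨hn⟩
  obtain ⟨ξ, hξ⟩ := HasEnoughRootsOfUnity.exists_primitiveRoot K (m + 1)
  refine ⟨m, diagonal fun i => ξ ^ (i : ℕ), of fun i j => if j = i + 1 then 1 else 0, ξ, ?_, ?_,
    ?_, fun A _ _ a b h => ?_⟩
  · rw [diagonal_pow, ← diagonal_one]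
    refine congrArg diagonal (funext fun i => ?_)
    rw [Pi.pow_apply, ← pow_mul, mul_comm, pow_mul, pow_mul, hξ.pow_eq_one, one_pow, one_pow]
  · have h0 : (m + 1) • (1 : Fin (m + 1)) = 0 := by
      simpa using card_nsmul_eq_zero (x := (1 : Fin (m + 1)))
    rw [qb_shift, mul_nsmul, h0, nsmul_zero]
    ext i j
    simp [one_apply, eq_comm]
  · ext i j
    rw [mul_diagonal, Matrix.smul_apply, diagonal_mul, of_apply]
    split_ifs with h
    · rw [h, Fin.val_add, ← pow_eq_pow_mod _ hξ.pow_eq_one, pow_add, Fin.val_one',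
        ← pow_eq_pow_mod _ hξ.pow_eq_one]
      simp [mul_comm]
    · simp
  · rcases subsingleton_or_nontrivial A with _ | _
    · exact Subsingleton.elim _ _
    have := expChar_of_injective_algebraMap (algebraMap K A).injective p
    have c : Commute b (a ^ (m + 1)) := by
      rw [Commute, SemiconjBy, qb_comm h, hξ.pow_eq_one, one_smul]
    rw [pow_mul, qpow m.succ_pos hξ h,
      add_pow_expChar_pow_of_commute p s (c.pow_left (m + 1)).symm, ← pow_mul, ← pow_mul]

end Pool.Agent.Lib.MP_cf0da3_ag.Det
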