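import Pool.Agent.Lib.MP_cf0da3_ag.Det.Defs

/-! The cyclic matrix of a product. -/

namespace Pool.Agent.Lib.MP_cf0da3_ag.Det

open Submodule Module MvPolynomial Matrix

variable {K R : Type} [Field K] [CommRing R] [Algebra K R]

theorem qc_pow {e : ℕ} (l : Fin (e + 1) → R) (k : ℕ) (a b : Fin (e + 1)) :
    ((Matrix.of fun a b : Fin (e + 1) => if b = a + 1 then l a else 0) ^ k) a b =
      if b = a + Fin.ofNat (e + 1) k then
        ∏ s ∈ Finset.range k, l (a + Fin.ofNat (e + 1) s) else 0 := by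
  induction k generalizing b with
  | zero =>
    have h : Fin.ofNat (e + 1) 0 = 0 := rfl
    rw [pow_zero, h, add_zero, Finset.prod_range_zero, Matrix.one_apply]
    exact if_congr eq_comm rfl rfl
  | succ k ih =>
    have h : Fin.ofNat (e + 1) (k + 1) = Fin.ofNat (e + 1) k + 1 := by
      apply Fin.ext
      simp [Fin.val_add]
    rw [pow_succ, Matrix.mul_apply, Finset.sum_eq_single (a + Fin.ofNat (e + 1) k), ih,
      if_pos rfl, Matrix.of_apply, h, add_assoc, Finset.prod_range_succ, mul_ite, mul_zero]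
    · intro c _ hc
      rw [ih, if_neg hc, zero_mul]
    · intro hc
      exact absurd (Finset.mem_univ _) hc

theorem exists_cyc (L : Submodule K R) {e : ℕ} (l : Fin (e + 1) → R) (hl : ∀ s, l s ∈ L) :
    ∃ T : Matrix (Fin (e + 1)) (Fin (e + 1)) R, (∀ a b, T a b ∈ L) ∧
      T ^ (e + 1) = (∏ s, l s) • (1 : Matrix (Fin (e + 1)) (Fin (e + 1)) R) := by
  refine ⟨Matrix.of fun a b => if b = a + 1 then l a else 0, fun a b => ?_, ?_⟩
  · rw [Matrix.of_apply]
    split_ifs
    exacts [hl a, L.zero_mem]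
  · ext a b
    have h : Fin.ofNat (e + 1) (e + 1) = 0 := Fin.ext (by simp)
    have h2 : ∀ s : Fin (e + 1), Fin.ofNat (e + 1) s = s := fun s =>
      Fin.ext (by simp)
    rw [qc_pow, h, add_zero, Finset.prod_range, Matrix.smul_apply, Matrix.one_apply, smul_eq_mul,
      mul_ite, mul_one, mul_zero]
    simp only [h2]
    rw [show ∏ s, l (a + s) = ∏ s, l s from Equiv.prod_comp (Equiv.addLeft a) l]
    exact if_congr eq_comm rfl rfl

end Pool.Agent.Lib.MP_cf0da3_ag.Det
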