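import Pool.Agent.Lib.MP_cf0da3_ag.Det.QB
import Pool.Agent.Lib.MP_cf0da3_ag.Det.QC

/-! Matrix roots of forms. -/

namespace Pool.Agent.Lib.MP_cf0da3_ag.Det

open Submodule Module MvPolynomial Matrix

variable {K R : Type} [Field K] [CommRing R] [Algebra K R]

open scoped Kronecker in
theorem qd_pow {ι κ : Type} [Fintype ι] [DecidableEq ι] [Fintype κ] [DecidableEq κ]
    (A : Matrix ι ι R) (B : Matrix κ κ R) (n : ℕ) : (A ⊗ₖ B) ^ n = (A ^ n) ⊗ₖ (B ^ n) := by
  induction n with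
  | zero => rw [pow_zero, pow_zero, pow_zero, one_kronecker_one]
  | succ n ih => rw [pow_succ, pow_succ, pow_succ, mul_kronecker_mul, ih]

open scoped Kronecker in
theorem qd_add [IsAlgClosed K] (L : Submodule K R) {e : ℕ} (he : 0 < e) {F G : R} {ι : Type}
    [Fintype ι] [DecidableEq ι] [Nonempty ι] (U V : Matrix ι ι R) (hU : ∀ a b, U a b ∈ L)
    (hV : ∀ a b, V a b ∈ L) (h : V * U = U * V) (eU : U ^ e = F • (1 : Matrix ι ι R))
    (eV : V ^ e = G • (1 : Matrix ι ι R)) :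
    ∃ (ι : Type) (_ : Fintype ι) (_ : DecidableEq ι) (_ : Nonempty ι)
      (T : Matrix ι ι R), (∀ a b, T a b ∈ L) ∧ T ^ e = (F + G) • (1 : Matrix ι ι R) := by
  obtain ⟨m, P, Q, ξ, hP, hQ, hQP, hbin⟩ := exists_qpair K he
  obtain ⟨φ, hφ⟩ : ∃ φ : Matrix (Fin (m + 1)) (Fin (m + 1)) K →ₐ[K]
      Matrix (Fin (m + 1)) (Fin (m + 1)) R, ∀ M s t, φ M s t = algebraMap K R (M s t) :=
    ⟨(Algebra.ofId K R).mapMatrix, fun _ _ _ => rfl⟩
  have hm : ∀ (W : Matrix ι ι R), (∀ a b, W a b ∈ L) → ∀ M a b, (W ⊗ₖ φ M) a b ∈ L :=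
    fun W hW M a b => by
      rw [kroneckerMap_apply, hφ, mul_comm, ← Algebra.smul_def]
      exact L.smul_mem _ (hW _ _)
  refine ⟨ι × Fin (m + 1), inferInstance, inferInstance, inferInstance, U ⊗ₖ φ P + V ⊗ₖ φ Q,
    fun a b => L.add_mem (hm U hU P a b) (hm V hV Q a b), ?_⟩
  rw [hbin _ (U ⊗ₖ φ P) (V ⊗ₖ φ Q), qd_pow, qd_pow, ← map_pow, ← map_pow, hP, hQ, map_one, eU, eV,
    smul_kronecker, smul_kronecker, one_kronecker_one, add_smul]
  rw [← mul_kronecker_mul, ← mul_kronecker_mul, ← map_mul, ← map_mul, hQP, map_smul,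
    kronecker_smul, h]

open scoped Kronecker in
theorem exists_root [IsAlgClosed K] (L : Submodule K R) {e : ℕ} (he : 0 < e) {F : R}
    (hF : F ∈ L ^ e) : ∃ (ι : Type) (_ : Fintype ι) (_ : DecidableEq ι) (_ : Nonempty ι)
      (T : Matrix ι ι R), (∀ a b, T a b ∈ L) ∧ T ^ e = F • (1 : Matrix ι ι R) := by
  rw [Submodule.pow_eq_span_pow_set] at hF
  induction hF using Submodule.span_induction with
  | mem x hx =>
    obtain ⟨e, rfl⟩ : ∃ e', e = e' + 1 := ⟨e - 1, by omega⟩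
    obtain ⟨f, rfl⟩ := Set.mem_pow.1 hx
    obtain ⟨T, hT, eT⟩ := exists_cyc L (fun s => (f s : R)) fun s => (f s).2
    exact ⟨Fin (e + 1), inferInstance, inferInstance, inferInstance, T, hT, by
      rw [eT, List.prod_ofFn]⟩
  | zero =>
    exact ⟨Unit, inferInstance, inferInstance, inferInstance, 0, fun _ _ => L.zero_mem, by
      rw [zero_pow he.ne', zero_smul]⟩
  | add x y _ _ hx hy =>
    obtain ⟨ι, _, _, _, T, hT, eT⟩ := hx
    obtain ⟨κ, _, _, _, S, hS, eS⟩ := hy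
    refine qd_add L he (T ⊗ₖ (1 : Matrix κ κ R)) ((1 : Matrix ι ι R) ⊗ₖ S) (fun a b => ?_)
      (fun a b => ?_) ?_ ?_ ?_
    · rw [kroneckerMap_apply, one_apply, mul_ite, mul_one, mul_zero]
      split_ifs
      exacts [hT _ _, L.zero_mem]
    · rw [kroneckerMap_apply, one_apply, ite_mul, one_mul, zero_mul]
      split_ifs
      exacts [hS _ _, L.zero_mem]
    · rw [← mul_kronecker_mul, ← mul_kronecker_mul, one_mul, mul_one, one_mul, mul_one]
    · rw [qd_pow, eT, one_pow, smul_kronecker, one_kronecker_one]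
    · rw [qd_pow, eS, one_pow, kronecker_smul, one_kronecker_one]
  | smul c x _ hx =>
    obtain ⟨ι, _, _, _, T, hT, eT⟩ := hx
    obtain ⟨d, rfl⟩ := IsAlgClosed.exists_pow_nat_eq c he
    exact ⟨ι, inferInstance, inferInstance, inferInstance, d • T,
      fun a b => L.smul_mem d (hT a b), by rw [_root_.smul_pow, eT, smul_assoc]⟩

end Pool.Agent.Lib.MP_cf0da3_ag.Det
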