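import Pool.Agent.Lib.MP_cf0da3_ag.Det.Cnt
import Pool.Agent.Lib.MP_cf0da3_ag.Det.Num
import Pool.Agent.Lib.MP_cf0da3_ag.Det.DN
import Pool.Agent.Lib.MP_cf0da3_ag.Det.BA

/-! The Ulrich module of a Segre product. -/

namespace Pool.Agent.Lib.MP_cf0da3_ag.Det

open Submodule Module MvPolynomial Matrix

theorem sa_finrank {K R : Type} (ι : Type) [Field K] [CommRing R] [Algebra K R] [Fintype ι]
    (P : Submodule K R) (hP : P.FG) :
    finrank K (VB ι P) = Fintype.card ι * finrank K P := by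
  have : Module.Finite K P := Module.Finite.iff_fg.2 hP
  let e : VB ι P ≃ₗ[K] (ι → P) :=
    { toFun := fun w i => ⟨w.1 i, w.2 i (Set.mem_univ i)⟩
      map_add' := fun _ _ => rfl
      map_smul' := fun _ _ => rfl
      invFun := fun w => ⟨fun i => (w i).1, fun i _ => (w i).2⟩
      left_inv := fun _ => rfl
      right_inv := fun _ => rfl }
  rw [e.finrank_eq, Module.finrank_pi_fintype, Finset.sum_const, Finset.card_univ, smul_eq_mul]

theorem sa_step {K R : Type} [Field K] [CommRing R] [Algebra K R] {X Z T : Submodule K R}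
    {a : ℕ} (h : X * Z ^ (a + 1) ≤ T * Z ^ a) (p : ℕ) :
    X ^ (p + 1) * Z ^ (p + 1 + a) ≤ T * (X ^ p * Z ^ (p + a)) := by
  have e1 : X ^ (p + 1) * Z ^ (p + 1 + a) = X ^ p * Z ^ p * (X * Z ^ (a + 1)) := by ring
  have e2 : T * (X ^ p * Z ^ (p + a)) = X ^ p * Z ^ p * (T * Z ^ a) := by ring
  rw [e1, e2]
  exact mul_le_mul' le_rfl h

variable {K ι : Type} [Field K] [Fintype ι] [DecidableEq ι] {a b : ℕ}

theorem seg_good {B : Type} [CommRing B] [Algebra K B]
    [Module B (ι → MvPolynomial (Fin (a + 1) ⊕ Fin (b + 1)) K)]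
    [IsScalarTower K B (ι → MvPolynomial (Fin (a + 1) ⊕ Fin (b + 1)) K)]
    (f : MvPolynomial (Fin (a + 1) ⊕ Fin (b + 1)) K →ₐ[K] B)
    (hf : ∀ x (w : ι → MvPolynomial (Fin (a + 1) ⊕ Fin (b + 1)) K), f x • w = x • w) :
    ∃ θ : Fin (a + b + 1) → B, Good (Fintype.card ι * (b + 1).multichoose a)
      (fun p => VB ι (BH K (Fin (a + 1)) (Fin (b + 1)) p (p + a))) (fun _ => ⊥) θ := by
  obtain ⟨θ, h1, h2⟩ := dm_fin (K := K) (xs K (Fin (a + 1)) (Fin (b + 1)))
    (zs K (Fin (a + 1)) (Fin (b + 1)))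
  have hmap : sp K (fun s => f (θ s)) = (sp K θ).map f.toLinearMap := by
    rw [Submodule.map_span, ← Set.range_comp]
    rfl
  have h11 : sp K θ ≤ BH K (Fin (a + 1)) (Fin (b + 1)) 1 1 := by
    rw [bh_eq, pow_one, pow_one]
    exact h1
  refine ⟨fun s => f (θ s), ⟨fun p => ?_, fun p => bot_le, fun p => ?_, fun p => ?_,
    fun p => ?_, fun p => ?_⟩⟩
  · exact Submodule.fg_pi fun _ => bh_fg K _ _ _ _
  · rw [hmap]
    refine Submodule.smul_le.2 ?_
    rintro _ ⟨x, hx, rfl⟩ w hw i -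
    have hm := bh_mul (h11 hx) (hw i (Set.mem_univ i))
    have e1 : 1 + p = p + 1 := by omega
    have e2 : 1 + (p + a) = p + 1 + a := by omega
    rw [e1, e2] at hm
    have e3 : (f.toLinearMap x • w) i = x * w i := by
      rw [AlgHom.toLinearMap_apply, hf]
      rfl
    rw [e3]
    exact hm
  · refine Submodule.smul_le.2 fun x _ w hw => ?_
    rw [(Submodule.mem_bot K).1 hw, smul_zero]
    exact Submodule.zero_mem _
  · intro w hw
    rw [bot_sup_eq, hmap, ← Finset.univ_sum_single w]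
    refine Submodule.sum_mem _ fun i _ => ?_
    have hwi : w i ∈ sp K θ * BH K (Fin (a + 1)) (Fin (b + 1)) p (p + a) := by
      have h3 := hw i (Set.mem_univ i)
      rw [bh_eq] at h3 ⊢
      exact sa_step h2 p h3
    refine Submodule.mul_induction_on hwi (fun x hx y hy => ?_) (fun u v hu hv => ?_)
    · have e4 : (Pi.single i (x * y) : ι → MvPolynomial (Fin (a + 1) ⊕ Fin (b + 1)) K) =
          f.toLinearMap x • (Pi.single i y : ι → MvPolynomial (Fin (a + 1) ⊕ Fin (b + 1)) K) := by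
        rw [AlgHom.toLinearMap_apply, hf, ← smul_eq_mul, Pi.single_smul']
      rw [e4]
      refine Submodule.smul_mem_smul ⟨x, hx, rfl⟩ fun j _ => ?_
      by_cases hj : j = i
      · subst hj
        rw [Pi.single_eq_same]
        exact hy
      · rw [Pi.single_eq_of_ne hj]
        exact Submodule.zero_mem _
    · rw [Pi.single_add]
      exact Submodule.add_mem _ hu hv
  · rw [sa_finrank ι _ (bh_fg K _ _ _ _), bh_finrank, finrank_bot, zero_add, Fintype.card_fin,
      Fintype.card_fin, segre_num, mul_assoc]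

end Pool.Agent.Lib.MP_cf0da3_ag.Det
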