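import Pool.Agent.Lib.MP_cf0da3_ag.Det.BB
import Pool.Agent.Lib.MP_cf0da3_ag.Det.FA

/-! Finite colength. -/

namespace Pool.Agent.Lib.MP_cf0da3_ag.Det

open Submodule Module MvPolynomial Matrix

theorem sb_pow {K R : Type} [Field K] [CommRing R] [Algebra K R] {P : Submodule K R} {I : Ideal R}
    (h : ∀ x ∈ P, x ∈ I) (n : ℕ) : ∀ x ∈ P ^ n, x ∈ I ^ n := by
  induction n with
  | zero => intro x _; simp
  | succ n ih =>
    intro x hx
    rw [pow_succ] at hx ⊢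
    exact Submodule.mul_induction_on hx (fun a ha b hb => Ideal.mul_mem_mul (ih a ha) (h b hb))
      fun a b ha hb => add_mem ha hb

theorem sb_mem {K U Z : Type} [Field K] {I : Ideal (MvPolynomial (U ⊕ Z) K)}
    (h : ∀ i l, xs K U Z i * zs K U Z l ∈ I) (n a : ℕ) :
    ∀ f ∈ BH K U Z n (n + a), f ∈ I ^ n := by
  have h1 : ∀ x ∈ sp K (xs K U Z) * sp K (zs K U Z), x ∈ I := by
    intro x hx
    rw [Submodule.span_mul_span] at hx
    refine (Submodule.span_le (p := I.restrictScalars K)).2 ?_ hx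
    rintro _ ⟨_, ⟨i, rfl⟩, _, ⟨l, rfl⟩, rfl⟩
    exact h i l
  intro f hf
  rw [bh_eq, pow_add, ← mul_assoc, ← mul_pow] at hf
  exact Submodule.mul_induction_on hf
    (fun u hu w _ => Ideal.mul_mem_right w _ (sb_pow h1 n u hu)) fun u w hu hw => add_mem hu hw

theorem seg_fin {K U Z ι J : Type} [Field K] [Fintype U] [Fintype Z] [Fintype ι] [DecidableEq ι]
    [Fintype J] {T : J → Matrix ι ι (MvPolynomial (U ⊕ Z) K)} {F : J → MvPolynomial (U ⊕ Z) K}
    (h : Fam (BH K U Z 1 1) T F)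
    (hrad : ∀ i l, ∃ κ : ℕ, (xs K U Z i * zs K U Z l) ^ κ ∈ Ideal.span (Set.range F)) (a : ℕ) :
    ∃ L, ∀ p, L ≤ p → ∀ v ∈ VB ι (BH K U Z (p + 1) (p + 1 + a)),
      ∃ w : J → ι → MvPolynomial (U ⊕ Z) K, (∀ j, w j ∈ VB ι (BH K U Z p (p + a))) ∧
        v = ∑ j, T j *ᵥ w j := by
  obtain ⟨I, hI⟩ : ∃ I : Ideal (MvPolynomial (U ⊕ Z) K),
      I = Ideal.span (Set.range fun x : U × Z => xs K U Z x.1 * zs K U Z x.2) := ⟨_, rfl⟩
  have hle : I ≤ (Ideal.span (Set.range F)).radical := by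
    rw [hI, Ideal.span_le]
    rintro _ ⟨x, rfl⟩
    exact hrad x.1 x.2
  have hfg : I.FG := hI ▸ Submodule.fg_span (Set.finite_range _)
  obtain ⟨M, hM⟩ := Ideal.exists_pow_le_of_le_radical_of_fg hle hfg
  have hx : ∀ i l, xs K U Z i * zs K U Z l ∈ I := fun i l =>
    hI ▸ Ideal.subset_span ⟨(i, l), rfl⟩
  refine ⟨M, fun p hp v hv => ?_⟩
  have hv' : ∀ i, v i ∈ BH K U Z (p + 1) (p + 1 + a) := fun i => hv i (Set.mem_univ i)
  have him : v ∈ im T := by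
    rw [pi_eq_sum_univ' v]
    exact Submodule.sum_mem _ fun i _ => h.smul_mem
      (hM (Ideal.pow_le_pow_right (by omega) (sb_mem hx (p + 1) a _ (hv' i)))) _
  obtain ⟨w, hw, he⟩ := im_homog h.mem him p (p + a)
  refine ⟨w, hw, ?_⟩
  rw [← he]
  funext i
  rw [show p + a + 1 = p + 1 + a by omega]
  exact (pr_self (hv' i)).symm

end Pool.Agent.Lib.MP_cf0da3_ag.Det
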