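import Pool.Agent.Lib.MP_cf0da3_ag.Det.XG
import Pool.Agent.Lib.MP_cf0da3_ag.Det.SA
import Pool.Agent.Lib.MP_cf0da3_ag.Det.SB

/-! Freeness over the commuting matrices. -/

namespace Pool.Agent.Lib.MP_cf0da3_ag.Det

open Submodule Module MvPolynomial Matrix

variable {K ι : Type} [Field K] [Fintype ι] [DecidableEq ι] {a b : ℕ}

theorem seg_free [Infinite K] {r : ℕ} (hr : r = a + b + 1)
    {T : Fin r → Matrix ι ι (MvPolynomial (Fin (a + 1) ⊕ Fin (b + 1)) K)}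
    {F : Fin r → MvPolynomial (Fin (a + 1) ⊕ Fin (b + 1)) K}
    (h : Fam (BH K (Fin (a + 1)) (Fin (b + 1)) 1 1) T F)
    (hrad : ∀ i l, ∃ κ : ℕ, (xs K _ _ i * zs K _ _ l) ^ κ ∈ Ideal.span (Set.range F)) :
    ∃ (B : Type) (_ : CommRing B) (_ : Algebra K B)
      (_ : Module B (ι → MvPolynomial (Fin (a + 1) ⊕ Fin (b + 1)) K))
      (_ : IsScalarTower K B (ι → MvPolynomial (Fin (a + 1) ⊕ Fin (b + 1)) K)) (t : Fin r → B) (ρ : ℕ),
      (∀ j (w : ι → MvPolynomial (Fin (a + 1) ⊕ Fin (b + 1)) K), t j • w = T j *ᵥ w) ∧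
      Good ρ (fun p => VB ι (BH K (Fin (a + 1)) (Fin (b + 1)) p (p + a))) (fun _ => ⊥) t := by
  subst hr
  obtain ⟨B, i1, i2, i3, i4, f, t, hf, ht⟩ := exists_ring (K := K) h.comm
  obtain ⟨θ, hθ⟩ := seg_good (ι := ι) (a := a) (b := b) f hf
  obtain ⟨L, hL⟩ := seg_fin h hrad a
  refine ⟨B, i1, i2, i3, i4, t, _, ht, hθ.exchange (L := L) (fun p x hx => ?_)
    (fun p x hx => ?_) fun p hp v hv => mem_sup_right ?_⟩
  · obtain ⟨w, hw, rfl⟩ := mem_sp_smul.1 hx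
    refine sum_mem fun j _ i _ => ?_
    rw [ht]
    refine sum_mem fun l _ => ?_
    have h1 := bh_mul (h.mem j i l) (hw j l trivial)
    rwa [add_comm 1 p, show 1 + (p + a) = p + 1 + a by omega] at h1
  · obtain ⟨w, hw, rfl⟩ := mem_sp_smul.1 hx
    refine sum_mem fun j _ => ?_
    rw [(mem_bot K).1 (hw j), smul_zero]
    exact zero_mem _
  · obtain ⟨w, hw, e⟩ := hL p hp v hv
    exact mem_sp_smul.2 ⟨w, hw, by simpa only [ht] using e⟩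

theorem seg1 [Infinite K] {r : ℕ} (hr : r = a + b + 1)
    {T : Fin r → Matrix ι ι (MvPolynomial (Fin (a + 1) ⊕ Fin (b + 1)) K)}
    {F : Fin r → MvPolynomial (Fin (a + 1) ⊕ Fin (b + 1)) K}
    (h : Fam (BH K (Fin (a + 1)) (Fin (b + 1)) 1 1) T F)
    (hrad : ∀ i l, ∃ κ : ℕ, (xs K _ _ i * zs K _ _ l) ^ κ ∈ Ideal.span (Set.range F))
    {v : ι → MvPolynomial (Fin (a + 1) ⊕ Fin (b + 1)) K}
    (hv : v ∈ VB ι (BH K (Fin (a + 1)) (Fin (b + 1)) 1 (a + 1))) :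
    ∃ w : Fin r → ι → MvPolynomial (Fin (a + 1) ⊕ Fin (b + 1)) K,
      (∀ j, w j ∈ VB ι (BH K (Fin (a + 1)) (Fin (b + 1)) 0 a)) ∧ v = ∑ j, T j *ᵥ w j := by
  obtain ⟨B, i1, i2, i3, i4, t, ρ, ht, hg⟩ := seg_free hr h hrad
  have h1 := hg.gen 0 (x := v) (by rwa [zero_add, add_comm 1 a])
  rw [bot_sup_eq, zero_add] at h1
  obtain ⟨w, hw, e⟩ := mem_sp_smul.1 h1
  exact ⟨w, hw, by simpa only [ht] using e⟩

end Pool.Agent.Lib.MP_cf0da3_ag.Det
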