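import Pool.Agent.Lib.MP_cf0da3_ag.Det.XA

/-! A good family is free. -/

namespace Pool.Agent.Lib.MP_cf0da3_ag.Det

open Submodule Module MvPolynomial Matrix

variable {K B W : Type} [Field K] [CommRing B] [Algebra K B] [AddCommGroup W] [Module K W]
  [Module B W] [IsScalarTower K B W]

theorem Good.repr {ρ r : ℕ} {E N : ℕ → Submodule K W} {θ : Fin r → B} (h : Good ρ E N θ)
    {v : Fin ρ → W} (hv : E 0 ≤ N 0 ⊔ sp K v) (p : ℕ) {x : W} (hx : x ∈ E p) :
    ∃ g : Fin ρ → MvPolynomial (Fin r) K, (∀ a, (g a).IsHomogeneous p) ∧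
      x - ∑ a, aeval θ (g a) • v a ∈ N p := by
  induction p generalizing x with
  | zero =>
    obtain ⟨y, hy, z, hz, rfl⟩ := mem_sup.1 (hv hx)
    obtain ⟨c, rfl⟩ := (mem_span_range_iff_exists_fun K).1 hz
    refine ⟨fun a => C (c a), fun a => isHomogeneous_C _ _, ?_⟩
    simpa using hy
  | succ p ih =>
    obtain ⟨y, hy, z, hz, rfl⟩ := mem_sup.1 (h.gen p hx)
    obtain ⟨w, hw, rfl⟩ := mem_sp_smul.1 hz
    choose g hg hg' using fun j => ih (hw j)
    refine ⟨fun a => ∑ j, X j * g j a, fun a => IsHomogeneous.sum _ _ _ fun j _ =>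
      add_comm 1 p ▸ (isHomogeneous_X K j).mul (hg j a), ?_⟩
    have e : y + ∑ j, θ j • w j - ∑ a, aeval θ (∑ j, X j * g j a) • v a =
        y + ∑ j, θ j • (w j - ∑ a, aeval θ (g j a) • v a) := by
      simp only [map_sum, map_mul, aeval_X, Finset.sum_smul, smul_sub, Finset.sum_sub_distrib,
        Finset.smul_sum, mul_smul]
      rw [Finset.sum_comm, add_sub_assoc]
    rw [e]
    exact add_mem hy (h.upN p (mem_sp_smul.2 ⟨_, hg', rfl⟩))

theorem Good.free {ρ r : ℕ} {E N : ℕ → Submodule K W} {θ : Fin r → B} (h : Good ρ E N θ)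
    {v : Fin ρ → W} (hv0 : ∀ a, v a ∈ E 0) (hv : E 0 ≤ N 0 ⊔ sp K v) {p : ℕ}
    {g : Fin ρ → MvPolynomial (Fin r) K} (hg : ∀ a, (g a).IsHomogeneous p)
    (h0 : ∑ a, aeval θ (g a) • v a ∈ N p) : g = 0 := by
  let φ : (Fin ρ → homogeneousSubmodule (Fin r) K p) →ₗ[K] E p :=
    { toFun := fun g => ⟨∑ a, aeval θ (g a).1 • v a, sum_mem fun a _ => by
        simpa using h.upE.aeval (g a).2 (hv0 a)⟩
      map_add' := fun _ _ => Subtype.ext (by simp [add_smul, Finset.sum_add_distrib])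
      map_smul' := fun _ _ => Subtype.ext (by simp [Finset.smul_sum]) }
  let ψ := ((N p).submoduleOf (E p)).mkQ ∘ₗ φ
  have hs : Function.Surjective ψ := fun y => by
    obtain ⟨x, rfl⟩ := mkQ_surjective _ y
    obtain ⟨g, a, b⟩ := h.repr hv p x.2
    exact ⟨fun i => ⟨g i, a i⟩, ((Submodule.Quotient.eq ((N p).submoduleOf (E p))
      (x := x) (y := φ fun i => ⟨g i, a i⟩)).2 b).symm⟩
  have : FiniteDimensional K (E p) := Module.Finite.iff_fg.2 (h.fg p)
  have : FiniteDimensional K (homogeneousSubmodule (Fin r) K p) :=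
    Module.Finite.iff_fg.2 (homog_fg _ _ _)
  have h1 := ((N p).submoduleOf (E p)).finrank_quotient_add_finrank
  rw [(submoduleOfEquivOfLe (h.le p)).finrank_eq, h.dim] at h1
  have hi := (LinearMap.injective_iff_surjective_of_finrank_eq_finrank (f := ψ) (by
    rw [finrank_pi_fintype, Finset.sum_const, Finset.card_univ, Fintype.card_fin, smul_eq_mul,
      homog_finrank, Fintype.card_fin]
    omega)).2 hs
  have h2 := (injective_iff_map_eq_zero ψ).1 hi (fun a => ⟨g a, hg a⟩)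
    ((Submodule.Quotient.mk_eq_zero _).2 h0)
  exact funext fun a => congrArg Subtype.val (congrFun h2 a)

end Pool.Agent.Lib.MP_cf0da3_ag.Det
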