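import Pool.Agent.Lib.MP_cf0da3_ag.Det.XB
import Pool.Agent.Lib.MP_cf0da3_ag.Det.XC

/-! Powers of the first parameter are injective modulo the others. -/

namespace Pool.Agent.Lib.MP_cf0da3_ag.Det

open Submodule Module MvPolynomial Matrix

variable {K B W : Type} [Field K] [CommRing B] [Algebra K B] [AddCommGroup W] [Module K W]
  [Module B W] [IsScalarTower K B W]

theorem Good.pow_inj {ρ r L : ℕ} {E N : ℕ → Submodule K W} {T : Fin (r + 1) → B}
    (h : Good ρ E N T) {x : W} (hx : x ∈ E 0)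
    (h0 : T 0 ^ (L + 1) • x ∈ N (L + 1) ⊔ sp K (Fin.tail T) • E L) : x ∈ N 0 := by
  obtain ⟨v, hv0, hv⟩ := h.exists_lift
  obtain ⟨n, hn, y, hy, rfl⟩ := mem_sup.1 (hv hx)
  obtain ⟨c, rfl⟩ := (mem_span_range_iff_exists_fun K).1 hy
  obtain ⟨n', hn', z, hz, e⟩ := mem_sup.1 h0
  obtain ⟨w, hw, rfl⟩ := mem_sp_smul.1 hz
  choose g hg hg' using fun j => h.repr hv L (hw j)
  have h1 : T 0 ^ (L + 1) • n ∈ N (L + 1) := by
    have := h.upN.aeval (isHomogeneous_X_pow (R := K) (0 : Fin (r + 1)) (L + 1)) hn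
    rwa [map_pow, aeval_X, zero_add] at this
  have h2 : ∀ j : Fin r, T j.succ • (w j - ∑ a, aeval T (g j a) • v a) ∈ N (L + 1) := fun j =>
    h.upN L (smul_mem_smul (subset_span ⟨j.succ, rfl⟩) (hg' j))
  have h3 : (fun a => C (c a) * X 0 ^ (L + 1) - ∑ j : Fin r, X j.succ * g j a) = 0 := by
    refine h.free hv0 hv (p := L + 1) (fun a => ?_) ?_
    · refine ((isHomogeneous_X_pow 0 (L + 1)).C_mul _).sub (IsHomogeneous.sum _ _ _ fun j _ => ?_)
      rw [add_comm L]
      exact (isHomogeneous_X K _).mul (hg j a)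
    · have e1 : ∑ a, aeval T (C (c a) * X 0 ^ (L + 1) - ∑ j : Fin r, X j.succ * g j a) • v a =
          T 0 ^ (L + 1) • ∑ a, c a • v a -
            ∑ j : Fin r, T j.succ • ∑ a, aeval T (g j a) • v a := by
        simp only [map_sub, map_mul, map_pow, map_sum, aeval_X, aeval_C, sub_smul,
          Finset.sum_sub_distrib, Finset.sum_smul, Finset.smul_sum, mul_smul]
        rw [Finset.sum_comm]
        congr 1
        refine Finset.sum_congr rfl fun a _ => ?_
        rw [algebraMap_smul, smul_comm]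
      have e2 : T 0 ^ (L + 1) • ∑ a, c a • v a =
          n' + ∑ j : Fin r, T j.succ • w j - T 0 ^ (L + 1) • n := by
        rw [eq_sub_iff_add_eq, add_comm, ← smul_add, ← e]
        rfl
      rw [e1, e2, show n' + ∑ j : Fin r, T j.succ • w j - T 0 ^ (L + 1) • n -
          ∑ j : Fin r, T j.succ • ∑ a, aeval T (g j a) • v a = n' - T 0 ^ (L + 1) • n +
          ∑ j : Fin r, T j.succ • (w j - ∑ a, aeval T (g j a) • v a) by
        simp only [smul_sub, Finset.sum_sub_distrib]
        abel]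
      exact add_mem (sub_mem hn' h1) (sum_mem fun j _ => h2 j)
  have h4 : ∀ a, c a = 0 := fun a => by
    have := congrArg (eval (Pi.single (0 : Fin (r + 1)) (1 : K))) (congrFun h3 a)
    simpa using this
  simpa [h4] using hn

end Pool.Agent.Lib.MP_cf0da3_ag.Det
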