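import Pool.Agent.Lib.MP_cf0da3_ag.Det.SC
import Pool.Agent.Lib.MP_cf0da3_ag.Det.XH

/-! Injectivity modulo the commuting matrices. -/

namespace Pool.Agent.Lib.MP_cf0da3_ag.Det

open Submodule Module MvPolynomial Matrix

variable {K ι : Type} [Field K] [Fintype ι] [DecidableEq ι] {a b : ℕ}

theorem seg2 [Infinite K] {r : ℕ} (hr : r = a + b)
    {T : Fin r → Matrix ι ι (MvPolynomial (Fin (a + 1) ⊕ Fin (b + 1)) K)}
    {F : Fin r → MvPolynomial (Fin (a + 1) ⊕ Fin (b + 1)) K}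
    (h : Fam (BH K (Fin (a + 1)) (Fin (b + 1)) 1 1) T F) (i₀ : Fin (a + 1)) (l₀ : Fin (b + 1))
    (hrad : ∀ i l, ∃ κ : ℕ, (xs K _ _ i * zs K _ _ l) ^ κ ∈ Ideal.span (Set.range
      (Fin.cons (xs K _ _ i₀ * zs K _ _ l₀) F : Fin (r + 1) → _)))
    {v : ι → MvPolynomial (Fin (a + 1) ⊕ Fin (b + 1)) K}
    (hv : v ∈ VB ι (BH K (Fin (a + 1)) (Fin (b + 1)) 0 a)) {L : ℕ}
    (h0 : (xs K _ _ i₀ * zs K _ _ l₀) ^ L • v ∈ im T) : v = 0 := by
  have hg : xs K _ _ i₀ * zs K _ _ l₀ ∈ BH K (Fin (a + 1)) (Fin (b + 1)) 1 1 :=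
    bh_mul (xs_mem i₀) (zs_mem l₀)
  generalize xs K (Fin (a + 1)) (Fin (b + 1)) i₀ * zs K _ _ l₀ = g at *
  obtain ⟨B, _, _, _, _, t, ρ, ht, hG⟩ := seg_free (r := r + 1) (by omega) (h.cons hg) hrad
  have h1 : g ^ (L + 1) • v ∈ im T := by
    rw [pow_succ', mul_smul]
    exact (im T).smul_mem _ h0
  obtain ⟨w, hw, e⟩ := im_homog h.mem h1 L (L + a)
  have h2 : (fun i => pr K _ _ (L + 1) (L + a + 1) ((g ^ (L + 1) • v) i)) = g ^ (L + 1) • v := by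
    funext i
    refine pr_self ?_
    have := bh_mul (bh_pow hg (L + 1)) (hv i trivial)
    rwa [mul_one, add_zero, add_right_comm] at this
  have h3 : ∀ n : ℕ, t 0 ^ n • v = g ^ n • v := fun n => by
    induction n with
    | zero => rw [pow_zero, pow_zero, one_smul, one_smul]
    | succ n ih =>
      rw [pow_succ', mul_smul, ih, ht, Fin.cons_zero, smul_mulVec, one_mulVec, pow_succ', mul_smul]
  refine hG.pow_inj (L := L) (x := v) (by rwa [zero_add]) (mem_sup_right ?_)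
  rw [h3, ← h2, e]
  refine sum_mem fun j _ => ?_
  have h4 : T j *ᵥ w j = Fin.tail t j • w j := (ht j.succ (w j)).symm
  rw [h4]
  exact smul_mem_smul (subset_span ⟨j, rfl⟩) (hw j)

theorem seg3 [Infinite K] {r : ℕ} (hr : r = a + b)
    {T : Fin r → Matrix ι ι (MvPolynomial (Fin (a + 1) ⊕ Fin (b + 1)) K)}
    {F : Fin r → MvPolynomial (Fin (a + 1) ⊕ Fin (b + 1)) K}
    (h : Fam (BH K (Fin (a + 1)) (Fin (b + 1)) 1 1) T F) (i₀ : Fin (a + 1)) (l₀ : Fin (b + 1))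
    (hrad : ∀ i l, ∃ κ : ℕ, (xs K _ _ i * zs K _ _ l) ^ κ ∈ Ideal.span (Set.range
      (Fin.cons (xs K _ _ i₀ * zs K _ _ l₀) F : Fin (r + 1) → _)))
    {s : Finset ℕ} {v : ℕ → ι → MvPolynomial (Fin (a + 1) ⊕ Fin (b + 1)) K}
    (hv : ∀ p, v p ∈ VB ι (BH K (Fin (a + 1)) (Fin (b + 1)) 0 a)) {L : ℕ}
    (h0 : zs K (Fin (a + 1)) _ l₀ ^ L • ∑ p ∈ s, xs K _ (Fin (b + 1)) i₀ ^ p • v p ∈ im T) :
    ∀ p ∈ s, v p = 0 := by
  intro p hp
  have hx := xs_mem (K := K) (Z := Fin (b + 1)) i₀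
  have hz := zs_mem (K := K) (U := Fin (a + 1)) l₀
  refine seg2 hr h i₀ l₀ hrad (hv p) (L := L + p + 1) ?_
  generalize xs K (Fin (a + 1)) (Fin (b + 1)) i₀ = x at *
  generalize zs K (Fin (a + 1)) (Fin (b + 1)) l₀ = z at *
  obtain ⟨w, -, e⟩ := im_homog h.mem ((im T).smul_mem (x * z) h0) p (L + a)
  have h1 : ∀ q i, x * z * (z ^ L * (x ^ q * v q i)) ∈
      BH K (Fin (a + 1)) (Fin (b + 1)) (q + 1) (L + a + 1) := fun q i => by
    have := bh_mul (bh_mul hx hz) (bh_mul (bh_pow hz L) (bh_mul (bh_pow hx q) (hv q i trivial)))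
    convert this using 2 <;> omega
  have h2 : (x * z * (z ^ L * x ^ p)) • v p ∈ im T := by
    refine ⟨w, e ▸ funext fun i => ?_⟩
    simp only [Pi.smul_apply, Finset.sum_apply, smul_eq_mul, Finset.mul_sum, map_sum]
    rw [Finset.sum_eq_single_of_mem p hp fun q _ hq => pr_ne (h1 q i) (by omega), pr_self (h1 p i)]
    ring
  have h3 := (im T).smul_mem (x ^ L * z ^ p) h2
  rwa [smul_smul, show x ^ L * z ^ p * (x * z * (z ^ L * x ^ p)) = (x * z) ^ (L + p + 1) by ring]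
    at h3

end Pool.Agent.Lib.MP_cf0da3_ag.Det
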