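import Pool.Agent.Lib.MP_cf0da3_ag.Det.Cnt

/-! Upper bound by generation and lower bound by difference. -/

namespace Pool.Agent.Lib.MP_cf0da3_ag.Det

open Submodule Module MvPolynomial Matrix

variable {K B W : Type} [Field K] [CommRing B] [Algebra K B] [AddCommGroup W] [Module K W]
  [Module B W] [IsScalarTower K B W]

theorem mem_sp_smul {J : Type} [Fintype J] {θ : J → B} {P : Submodule K W} {x : W} :
    x ∈ sp K θ • P ↔ ∃ w : J → W, (∀ j, w j ∈ P) ∧ x = ∑ j, θ j • w j := by
  constructor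
  · intro hx
    refine smul_induction_on hx (fun r hr n hn => ?_) ?_
    · obtain ⟨c, rfl⟩ := (mem_span_range_iff_exists_fun K).1 hr
      refine ⟨fun j => c j • n, fun j => P.smul_mem _ hn, ?_⟩
      rw [Finset.sum_smul]
      exact Finset.sum_congr rfl fun j _ => by rw [smul_assoc, smul_comm]
    · rintro _ _ ⟨w, hw, rfl⟩ ⟨w', hw', rfl⟩
      exact ⟨w + w', fun j => P.add_mem (hw j) (hw' j), by simp [Finset.sum_add_distrib]⟩
  · rintro ⟨w, hw, rfl⟩
    exact sum_mem fun j _ => smul_mem_smul (subset_span ⟨j, rfl⟩) (hw j)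

theorem xa_map {J : Type} (θ : J → B) (n : ℕ) :
    (homogeneousSubmodule J K n).map (MvPolynomial.aeval θ).toLinearMap = sp K θ ^ n := by
  rw [← homogeneousSubmodule_one_pow, Submodule.map_pow, homogeneousSubmodule_one_eq_span_X,
    Submodule.map_span, ← Set.range_comp]
  congr 3
  funext j
  simp

theorem xa_pow {I : Submodule K B} {E : ℕ → Submodule K W} (h : Up I E) (p n : ℕ) :
    I ^ n • E p ≤ E (p + n) := by
  induction n with
  | zero => rw [pow_zero, Submodule.one_smul]; exact le_rfl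
  | succ n ih =>
    rw [pow_succ', ← smul_eq_mul, Submodule.smul_assoc]
    exact (smul_mono le_rfl ih).trans (h _)

theorem xa_rank {I : Submodule K B} {C : Submodule K W} (hI : I.FG) (hC : C.FG) :
    (I • C).FG ∧ finrank K (I • C : Submodule K W) ≤ finrank K I * finrank K C := by
  have := Module.Finite.iff_fg.2 hI
  have := Module.Finite.iff_fg.2 hC
  let φ : TensorProduct K I C →ₗ[K] W := TensorProduct.lift
    (LinearMap.mk₂ K (fun (a : I) (c : C) => (a : B) • (c : W)) (by simp [add_smul])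
      (by simp) (by simp) (fun k a c => by simp [smul_comm k (a : B)]))
  have e : I • C ≤ LinearMap.range φ :=
    smul_le.2 fun r hr n hn => ⟨TensorProduct.tmul K ⟨r, hr⟩ ⟨n, hn⟩, rfl⟩
  refine ⟨Module.Finite.iff_fg.1 (Submodule.finiteDimensional_of_le e), ?_⟩
  exact (finrank_mono e).trans (φ.finrank_range_le.trans finrank_tensorProduct.le)

theorem Up.aeval {J : Type} {θ : J → B} {E : ℕ → Submodule K W} (h : Up (sp K θ) E) {n p : ℕ}
    {g : MvPolynomial J K} (hg : g.IsHomogeneous n) {x : W} (hx : x ∈ E p) :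
    aeval θ g • x ∈ E (p + n) := by
  refine xa_pow h p n (smul_mem_smul ?_ hx)
  rw [← xa_map]
  exact ⟨g, hg, rfl⟩

theorem upper {r L : ℕ} {θ : Fin r → B} {E N : ℕ → Submodule K W} (hN : Up (sp K θ) N)
    (hfg : ∀ p, (N p).FG) (hgen : ∀ p, L ≤ p → E (p + 1) ≤ N (p + 1) ⊔ sp K θ • E p)
    {C : Submodule K W} (hC : C.FG) (hL : E L ≤ N L ⊔ C) (p : ℕ) :
    finrank K (E (L + p)) ≤ finrank K (N (L + p)) + finrank K C * r.multichoose p := by
  have h1 : ∀ p, E (L + p) ≤ N (L + p) ⊔ sp K θ ^ p • C := by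
    intro p
    induction p with
    | zero => rw [pow_zero, Submodule.one_smul]; exact hL
    | succ p ih =>
      refine (hgen _ (Nat.le_add_right L p)).trans (sup_le le_sup_left ?_)
      refine (smul_mono le_rfl ih).trans ?_
      rw [smul_sup, pow_succ', ← smul_eq_mul, Submodule.smul_assoc]
      exact sup_le_sup_right (hN _) _
  have h2 : (sp K θ ^ p).FG := xa_map (K := K) θ p ▸ (homog_fg K (Fin r) p).map _
  have h3 : finrank K (sp K θ ^ p : Submodule K B) ≤ r.multichoose p := by
    have := Module.Finite.iff_fg.2 (homog_fg K (Fin r) p)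
    rw [← xa_map]
    refine (finrank_map_le _ _).trans (le_of_eq ?_)
    rw [homog_finrank, Fintype.card_fin]
  obtain ⟨h4, h5⟩ := xa_rank h2 hC
  have := Module.Finite.iff_fg.2 h4
  have := Module.Finite.iff_fg.2 (hfg (L + p))
  refine (finrank_mono (h1 p)).trans ((finrank_add_le_finrank_add_finrank _ _).trans ?_)
  rw [mul_comm]
  exact Nat.add_le_add_left (h5.trans (Nat.mul_le_mul_right _ h3)) _

end Pool.Agent.Lib.MP_cf0da3_ag.Det
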