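import Pool.Agent.Lib.MP_cf0da3_ag.Det.Defs

/-! Lifts of a basis and the difference bound. -/

namespace Pool.Agent.Lib.MP_cf0da3_ag.Det

open Submodule Module MvPolynomial Matrix

variable {K B W : Type} [Field K] [CommRing B] [Algebra K B] [AddCommGroup W] [Module K W]
  [Module B W] [IsScalarTower K B W]

theorem xb_compl {E P : Submodule K W} (hE : E.FG) (hP : P ≤ E) :
    ∃ C : Submodule K W, C ≤ E ∧ E ≤ P ⊔ C ∧ finrank K P + finrank K C = finrank K E := by
  have : Module.Finite K E := Module.Finite.iff_fg.2 hE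
  obtain ⟨Q, hQ⟩ := P.exists_isCompl
  have h1 : P ⊔ Q ⊓ E = E := by rw [← sup_inf_assoc_of_le Q hP, hQ.sup_eq_top, top_inf_eq]
  have h2 : P ⊓ (Q ⊓ E) = ⊥ := by rw [← inf_assoc, hQ.inf_eq_bot, bot_inf_eq]
  have : Module.Finite K P := Submodule.finiteDimensional_of_le hP
  have : Module.Finite K (Q ⊓ E : Submodule K W) := Submodule.finiteDimensional_of_le inf_le_right
  have h3 := Submodule.finrank_sup_add_finrank_inf_eq P (Q ⊓ E)
  rw [h1, h2, finrank_bot, add_zero] at h3
  exact ⟨Q ⊓ E, inf_le_right, h1.ge, h3.symm⟩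

theorem diff (t : B) {E P N : Submodule K W} (hE : E.FG) (hN : N.FG) (hP : P ≤ E)
    (h : span K {t} • P ≤ N) :
    finrank K (N ⊔ span K {t} • E : Submodule K W) + finrank K P ≤ finrank K N + finrank K E := by
  obtain ⟨C, h1, h2, h3⟩ := xb_compl hE hP
  have : Module.Finite K E := Module.Finite.iff_fg.2 hE
  have : Module.Finite K N := Module.Finite.iff_fg.2 hN
  have : Module.Finite K C := Submodule.finiteDimensional_of_le h1
  let f : W →ₗ[K] W := (LinearMap.lsmul B W t).restrictScalars K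
  have h4 : N ⊔ span K {t} • E ≤ N ⊔ C.map f := by
    refine sup_le le_sup_left (Submodule.smul_le.2 fun r hr x hx => ?_)
    obtain ⟨c, rfl⟩ := mem_span_singleton.1 hr
    obtain ⟨p, hp, y, hy, rfl⟩ := mem_sup.1 (h2 hx)
    rw [smul_assoc, smul_add]
    exact smul_mem _ _ (add_mem_sup (h (smul_mem_smul (mem_span_singleton_self t) hp))
      ⟨y, hy, rfl⟩)
  have h5 := Submodule.finrank_mono h4
  have h6 := Submodule.finrank_add_le_finrank_add_finrank N (C.map f)
  have h7 := Submodule.finrank_map_le f C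
  omega

theorem Good.exists_lift {ρ r : ℕ} {E N : ℕ → Submodule K W} {θ : Fin r → B} (h : Good ρ E N θ) :
    ∃ v : Fin ρ → W, (∀ a, v a ∈ E 0) ∧ E 0 ≤ N 0 ⊔ sp K v := by
  obtain ⟨C, h1, h2, h3⟩ := xb_compl (h.fg 0) (h.le 0)
  have : Module.Finite K (E 0) := Module.Finite.iff_fg.2 (h.fg 0)
  have : Module.Finite K C := Submodule.finiteDimensional_of_le h1
  have h4 := h.dim 0
  rw [Nat.multichoose_zero_right, mul_one] at h4
  let b := Module.finBasisOfFinrankEq K C (show finrank K C = ρ by omega)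
  refine ⟨fun a => b a, fun a => h1 (b a).2, h2.trans (sup_le_sup_left (fun x hx => ?_) _)⟩
  have h5 := congrArg C.subtype (b.sum_repr ⟨x, hx⟩)
  rw [map_sum] at h5
  refine (show _ = x from h5) ▸ sum_mem fun a _ => ?_
  rw [map_smul]
  exact smul_mem _ _ (subset_span ⟨a, rfl⟩)

end Pool.Agent.Lib.MP_cf0da3_ag.Det
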