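import Pool.Agent.Lib.MP_cf0da3_ag.Det.XB
import Pool.Agent.Lib.MP_cf0da3_ag.Det.XC
import Pool.Agent.Lib.MP_cf0da3_ag.Det.Num

/-! The first parameter is a nonzero divisor. -/

namespace Pool.Agent.Lib.MP_cf0da3_ag.Det

open Submodule Module MvPolynomial Matrix

variable {K B W : Type} [Field K] [CommRing B] [Algebra K B] [AddCommGroup W] [Module K W]
  [Module B W] [IsScalarTower K B W]

theorem xd_comp {σ : Type} (f : MvPolynomial σ K) {c : MvPolynomial σ K} (hc : c.IsHomogeneous 1)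
    (p : ℕ) : homogeneousComponent (p + 1) (f * c) = homogeneousComponent p f * c := by
  have e : ∀ i, homogeneousComponent (p + 1) (homogeneousComponent i f * c) =
      homogeneousComponent p (homogeneousComponent i f) * c := fun i => by
    rw [homogeneousComponent_of_mem ((homogeneousComponent_isHomogeneous i f).mul hc),
      homogeneousComponent_of_mem (homogeneousComponent_isHomogeneous i f)]
    by_cases h : p = i <;> simp [h]
  conv_lhs => rw [← sum_homogeneousComponent f, Finset.sum_mul, map_sum]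
  conv_rhs => rw [← sum_homogeneousComponent f, map_sum, Finset.sum_mul]
  exact Finset.sum_congr rfl fun i _ => e i

theorem xd_ker {ρ : ℕ} {σ : Type} {C : Matrix (Fin ρ) (Fin ρ) (MvPolynomial σ K)}
    (hC : ∀ a b, (C a b).IsHomogeneous 1) (hd : C.det = 0) :
    ∃ (p : ℕ) (g : Fin ρ → MvPolynomial σ K), (∃ a, g a ≠ 0) ∧ (∀ a, (g a).IsHomogeneous p) ∧
      ∀ b, ∑ a, g a * C a b = 0 := by
  obtain ⟨g, h1, h2⟩ := Matrix.exists_vecMul_eq_zero_iff.2 hd
  obtain ⟨a, ha⟩ := Function.ne_iff.1 h1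
  obtain ⟨p, -, hp⟩ := Finset.exists_ne_zero_of_sum_ne_zero
    ((sum_homogeneousComponent (g a)).trans_ne ha)
  refine ⟨p, fun a => homogeneousComponent p (g a), ⟨a, hp⟩,
    fun a => homogeneousComponent_isHomogeneous p _, fun b => ?_⟩
  have h3 : ∑ a, g a * C a b = 0 := congrFun h2 b
  have h4 := congrArg (homogeneousComponent (p + 1)) h3
  rw [map_sum, map_zero] at h4
  exact (Finset.sum_congr rfl fun a _ => (xd_comp _ (hC a b) p).symm).trans h4

theorem xd_up {t : B} {I J : Submodule K B} {E N : ℕ → Submodule K W} (hIJ : I ≤ J)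
    (hE : Up J E) (hN : Up J N) : Up I (nxt t E N)
  | 0 => ((smul_mono_left hIJ).trans (hN 0)).trans le_sup_left
  | p + 1 => by
    change I • (N (p + 1) ⊔ span K {t} • E p) ≤ N (p + 1 + 1) ⊔ span K {t} • E (p + 1)
    rw [smul_sup]
    refine sup_le_sup ((smul_mono_left hIJ).trans (hN _)) (smul_le.2 fun a ha x hx => ?_)
    refine smul_induction_on hx (fun s hs y hy => ?_) fun y z hy hz => ?_
    · rw [smul_comm]
      exact smul_mem_smul hs (hE p (smul_mem_smul (hIJ ha) hy))
    · rw [smul_add]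
      exact add_mem hy hz

theorem xd_split {r : ℕ} (T : Fin (r + 1) → B) :
    sp K T ≤ span K {T 0} ⊔ sp K (Fin.tail T) := by
  refine span_le.2 ?_
  rintro _ ⟨i, rfl⟩
  refine Fin.cases ?_ (fun j => ?_) i
  · exact mem_sup_left (subset_span rfl)
  · exact mem_sup_right (subset_span ⟨j, rfl⟩)

theorem Good.det_ne {ρ r L : ℕ} {E N : ℕ → Submodule K W} {θ : Fin (r + 1) → B}
    (h : Good ρ E N θ) {T : Fin (r + 1) → B} (hTE : Up (sp K T) E) (hTN : Up (sp K T) N)
    (hL : ∀ p, L ≤ p → E (p + 1) ≤ N (p + 1) ⊔ sp K T • E p) {v : Fin ρ → W}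
    (hv0 : ∀ a, v a ∈ E 0) (hv : E 0 ≤ N 0 ⊔ sp K v)
    {C : Matrix (Fin ρ) (Fin ρ) (MvPolynomial (Fin (r + 1)) K)}
    (hC : ∀ a b, (C a b).IsHomogeneous 1)
    (hT : ∀ a, T 0 • v a - ∑ b, aeval θ (C a b) • v b ∈ N 1) : C.det ≠ 0 := by
  intro hd
  obtain ⟨q, g, ⟨a0, g0⟩, g1, g2⟩ := xd_ker hC hd
  obtain ⟨n, hn⟩ := growth r (finrank K (E L)) q
  have t0 : span K {T 0} ≤ sp K T := span_mono (Set.singleton_subset_iff.2 ⟨0, rfl⟩)
  have t1 : sp K (Fin.tail T) ≤ sp K T := span_mono fun _ ⟨j, e⟩ => ⟨j.succ, e⟩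
  have fN : ∀ p, (N p).FG := fun p => (h.fg p).of_le (h.le p)
  have fN' : ∀ p, (nxt (T 0) E N p).FG
    | 0 => fN 0
    | p + 1 => (h.fg (p + 1)).of_le (sup_le (h.le _) ((smul_mono_left t0).trans (hTE p)))
  have up := upper (L := L) (E := E) (xd_up (t := T 0) t1 hTE hTN) fN' (fun p hp => (hL p hp).trans
    (sup_le (le_sup_left.trans le_sup_left) (((smul_mono_left (xd_split T)).trans
      (sup_smul _ _ _).le).trans (sup_le_sup_right le_sup_right _))))
    (h.fg L) le_sup_right (n + q + 1)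
  let H := homogeneousSubmodule (Fin (r + 1)) K (L + n)
  let φ : H →ₗ[K] W :=
    { toFun := fun f => ∑ a, aeval θ (f.1 * g a) • v a
      map_add' := fun f f' => by simp [add_mul, add_smul, Finset.sum_add_distrib]
      map_smul' := fun c f => by simp [Finset.smul_sum] }
  have hφ : ∀ f : H, φ f = ∑ a, aeval θ (f.1 * g a) • v a := fun _ => rfl
  have hh : ∀ (f : H) a, (f.1 * g a).IsHomogeneous (L + n + q) := fun f a =>
    IsHomogeneous.mul f.2 (g1 a)
  have inj : ∀ f : H, φ f ∈ N (L + n + q) → f = 0 := fun f hf =>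
    Subtype.ext ((mul_eq_zero.1 (congrFun (h.free hv0 hv (hh f) hf) a0)).resolve_right g0)
  have hE : LinearMap.range φ ≤ E (L + n + q) := by
    rintro _ ⟨f, rfl⟩
    rw [hφ]
    exact sum_mem fun a _ => by simpa only [zero_add] using h.upE.aeval (hh f a) (hv0 a)
  have hk : span K {T 0} • (N (L + n + q) ⊔ LinearMap.range φ) ≤ N (L + n + q + 1) := by
    rw [smul_sup]
    refine sup_le ((smul_mono_left t0).trans (hTN _)) (smul_le.2 ?_)
    rintro s hs _ ⟨f, rfl⟩
    obtain ⟨c, rfl⟩ := mem_span_singleton.1 hs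
    rw [smul_assoc]
    refine smul_mem _ c ?_
    have e1 : ∑ a, aeval θ (f.1 * g a) • ∑ b, aeval θ (C a b) • v b = 0 := by
      simp only [Finset.smul_sum, smul_smul, ← map_mul]
      rw [Finset.sum_comm]
      refine Finset.sum_eq_zero fun b _ => ?_
      simp only [mul_assoc]
      rw [← Finset.sum_smul, ← map_sum, ← Finset.mul_sum, g2 b, mul_zero, map_zero, zero_smul]
    have e2 : T 0 • φ f =
        ∑ a, aeval θ (f.1 * g a) • (T 0 • v a - ∑ b, aeval θ (C a b) • v b) := by
      simp only [smul_sub, Finset.sum_sub_distrib]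
      rw [e1, sub_zero, hφ, Finset.smul_sum]
      exact Finset.sum_congr rfl fun a _ => smul_comm _ _ _
    rw [e2, add_comm (L + n + q)]
    exact sum_mem fun a _ => h.upN.aeval (hh f a) (hT a)
  have d1 := diff (T 0) (h.fg _) (fN _) (sup_le (h.le _) hE) hk
  have i1 : Module.Finite K (N (L + n + q)) := Module.Finite.iff_fg.2 (fN _)
  have i2 : Module.Finite K (LinearMap.range φ) := Module.Finite.iff_fg.2 ((h.fg _).of_le hE)
  have d2 := finrank_sup_add_finrank_inf_eq (N (L + n + q)) (LinearMap.range φ)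
  have d3 : N (L + n + q) ⊓ LinearMap.range φ = ⊥ := eq_bot_iff.2 (by
    rintro _ ⟨a, f, rfl⟩
    rw [inj f a, map_zero]
    exact zero_mem _)
  have d4 : finrank K (LinearMap.range φ) = (r + 1).multichoose (L + n) := by
    rw [LinearMap.finrank_range_of_inj ((injective_iff_map_eq_zero φ).2 fun f hf =>
      inj f (hf ▸ zero_mem _)), homog_finrank, Fintype.card_fin]
  rw [d3, finrank_bot, d4] at d2
  have d5 := h.dim (L + n + q)
  have d6 := h.dim (L + n + q + 1)
  have d7 := Nat.mul_le_mul_left ρ (mc_mono r (Nat.le_succ (L + n + q)))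
  have d8 := mc_mono r (Nat.le_add_left n L)
  have e : L + (n + q + 1) = L + n + q + 1 := by omega
  rw [e] at up
  change _ ≤ finrank K (N (L + n + q + 1) ⊔ span K {T 0} • E (L + n + q) : Submodule K W) + _ at up
  rw [Nat.succ_eq_add_one] at d7
  omega

end Pool.Agent.Lib.MP_cf0da3_ag.Det
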