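import Pool.Agent.Lib.MP_cf0da3_ag.Det.XA

/-! Exchange of one parameter in degree one. -/

namespace Pool.Agent.Lib.MP_cf0da3_ag.Det

open Submodule Module MvPolynomial Matrix

variable {K B W : Type} [Field K] [CommRing B] [Algebra K B] [AddCommGroup W] [Module K W]
  [Module B W] [IsScalarTower K B W]

theorem xe_comm (c : K) (s : B) (w : W) : s • c • w = c • s • w := by
  rw [← algebraMap_smul B c w, ← algebraMap_smul B c (s • w), smul_comm]

theorem xe_le {I J : Type} {θ : I → B} {v : J → W} {Q : Submodule K W}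
    (h : ∀ i b, θ i • v b ∈ Q) : sp K θ • sp K v ≤ Q := by
  refine smul_le.2 fun s hs w hw => ?_
  induction hs using span_induction with
  | mem _ hi =>
    obtain ⟨i, rfl⟩ := hi
    induction hw using span_induction with
    | mem _ hb =>
      obtain ⟨b, rfl⟩ := hb
      exact h i b
    | zero => simp
    | add _ _ _ _ h1 h2 =>
      rw [smul_add]
      exact Q.add_mem h1 h2
    | smul c _ _ h1 =>
      rw [xe_comm]
      exact Q.smul_mem c h1
  | zero => simp
  | add _ _ _ _ h1 h2 =>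
    rw [add_smul]
    exact Q.add_mem h1 h2
  | smul c _ _ h1 =>
    rw [smul_assoc]
    exact Q.smul_mem c h1

theorem xe_lin {I : Type} {θ : I → B} {x : I → K} {s : B} {P : Submodule K B}
    (h : ∀ i, θ i - x i • s ∈ P) {g : MvPolynomial I K} (hg : g.IsHomogeneous 1) :
    aeval θ g - eval x g • s ∈ P := by
  have h1 : g ∈ span K (Set.range (X : I → MvPolynomial I K)) := by
    rw [← homogeneousSubmodule_one_eq_span_X]
    exact hg
  clear hg
  induction h1 using span_induction with
  | mem _ hi =>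
    obtain ⟨i, rfl⟩ := hi
    simpa using h i
  | zero => simp
  | add _ _ _ _ h1 h2 =>
    rw [map_add, map_add, add_smul, ← sub_add_sub_comm]
    exact P.add_mem h1 h2
  | smul c _ _ h1 =>
    rw [map_smul, smul_eval, mul_smul, ← smul_sub]
    exact P.smul_mem c h1

theorem exch [Infinite K] {ρ r : ℕ} (θ : Fin (r + 1) → B) (t : B) (v : Fin ρ → W)
    (N : Submodule K W) {C : Matrix (Fin ρ) (Fin ρ) (MvPolynomial (Fin (r + 1)) K)}
    (hC : ∀ a b, (C a b).IsHomogeneous 1) (hdet : C.det ≠ 0)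
    (hT : ∀ a, t • v a - ∑ b, aeval θ (C a b) • v b ∈ N) :
    ∃ θ' : Fin r → B, sp K θ' ≤ sp K θ ∧
      sp K θ • sp K v ≤ N ⊔ span K {t} • sp K v ⊔ sp K θ' • sp K v := by
  rcases ρ with _ | ρ
  · exact ⟨fun _ => θ 0, span_mono fun _ ⟨_, h⟩ => ⟨0, h⟩, xe_le fun _ b => b.elim0⟩
  obtain ⟨x, hx⟩ : ∃ x, eval x C.det ≠ 0 := by
    by_contra h
    push Not at h
    exact hdet (MvPolynomial.funext fun x => by simpa using h x)
  rw [RingHom.map_det, RingHom.mapMatrix_apply] at hx
  obtain ⟨i0, h0⟩ : ∃ i, x i ≠ 0 := by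
    by_contra h
    push Not at h
    refine hx (det_eq_zero_of_row_eq_zero 0 fun b => ?_)
    have h2 : x = fun _ => 0 := funext h
    rw [map_apply, h2, eval_zero']
    exact (hC 0 b).coeff_eq_zero (d := 0) (by simp)
  let s : B := (x i0)⁻¹ • θ i0
  let θ' : Fin r → B := fun j => θ (i0.succAbove j) - x (i0.succAbove j) • s
  have hθ : ∀ i, θ i ∈ sp K θ := fun i => subset_span ⟨i, rfl⟩
  have hv : ∀ b, v b ∈ sp K v := fun b => subset_span ⟨b, rfl⟩
  have h1 : ∀ i, θ i - x i • s ∈ sp K θ' := fun i => by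
    rcases Fin.eq_self_or_eq_succAbove i0 i with rfl | ⟨j, rfl⟩
    · simp [s, smul_smul, h0]
    · exact subset_span ⟨j, rfl⟩
  refine ⟨θ', span_le.2 ?_, ?_⟩
  · rintro _ ⟨j, rfl⟩
    exact sub_mem (hθ _) (smul_mem _ _ (smul_mem _ _ (hθ _)))
  set Q := N ⊔ span K {t} • sp K v ⊔ sp K θ' • sp K v
  have h2 : ∀ a, ∑ b, C.map (eval x) a b • s • v b ∈ Q := fun a => by
    have h3 : ∑ b, C.map (eval x) a b • s • v b =
        t • v a - (t • v a - ∑ b, aeval θ (C a b) • v b) -
          ∑ b, (aeval θ (C a b) - eval x (C a b) • s) • v b := by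
      simp only [sub_smul, Finset.sum_sub_distrib, smul_assoc, map_apply]
      abel
    rw [h3]
    exact sub_mem (mem_sup_left (sub_mem
      (mem_sup_right (smul_mem_smul (mem_span_singleton_self t) (hv a))) (mem_sup_left (hT a))))
      (mem_sup_right (sum_mem fun b _ => smul_mem_smul (xe_lin h1 (hC a b)) (hv b)))
  have h3 : ∀ b, s • v b ∈ Q := fun b => by
    have h4 : s • v b = ∑ a, (C.map (eval x))⁻¹ b a • ∑ c, C.map (eval x) a c • s • v c := by
      simp only [Finset.smul_sum, smul_smul]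
      rw [Finset.sum_comm]
      simp only [← Finset.sum_smul, ← mul_apply, nonsing_inv_mul _ (Ne.isUnit hx)]
      simp [one_apply]
    rw [h4]
    exact sum_mem fun a _ => smul_mem _ _ (h2 a)
  refine xe_le fun i b => ?_
  have h4 : θ i • v b = (θ i - x i • s) • v b + x i • s • v b := by
    rw [sub_smul, smul_assoc, sub_add_cancel]
  rw [h4]
  exact add_mem (mem_sup_right (smul_mem_smul (h1 i) (hv b))) (smul_mem _ _ (h3 b))

end Pool.Agent.Lib.MP_cf0da3_ag.Det
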