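import Pool.Agent.Lib.MP_cf0da3_ag.Det.XA
import Pool.Agent.Lib.MP_cf0da3_ag.Det.XB

/-! The quotient by the first parameter is good. -/

namespace Pool.Agent.Lib.MP_cf0da3_ag.Det

open Submodule Module MvPolynomial Matrix

variable {K B W : Type} [Field K] [CommRing B] [Algebra K B] [AddCommGroup W] [Module K W]
  [Module B W] [IsScalarTower K B W]

theorem xf_comm (I J : Submodule K B) (P : Submodule K W) : I • J • P = J • I • P := by
  rw [← Submodule.smul_assoc, ← Submodule.smul_assoc]
  exact congrArg (· • P) (mul_comm I J)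

theorem xf_fg {P Q : Submodule K W} (h : P ≤ Q) (hQ : Q.FG) : P.FG := by
  have _ := Module.Finite.iff_fg.2 hQ
  exact Module.Finite.iff_fg.1 (Submodule.finiteDimensional_of_le h)

theorem Good.step {ρ r : ℕ} {E N : ℕ → Submodule K W} {θ : Fin (r + 1) → B} (h : Good ρ E N θ)
    {t : B} (htE : Up (span K {t}) E) (htN : Up (span K {t}) N) {θ' : Fin r → B}
    (hle : sp K θ' ≤ sp K θ) (h1 : E 1 ≤ N 1 ⊔ span K {t} • E 0 ⊔ sp K θ' • E 0) :
    Good ρ E (nxt t E N) θ' := by
  have hl : ∀ p, nxt t E N p ≤ E p := by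
    rintro (_ | p)
    · exact h.le 0
    · exact sup_le (h.le _) (htE p)
  have hE : Up (sp K θ') E := fun p => (Submodule.smul_mono_left hle).trans (h.upE p)
  have hN0 : Up (sp K θ') N := fun p => (Submodule.smul_mono_left hle).trans (h.upN p)
  have hN : Up (sp K θ') (nxt t E N) := by
    rintro (_ | p)
    · exact (hN0 0).trans le_sup_left
    · show sp K θ' • (N (p + 1) ⊔ span K {t} • E p) ≤ N (p + 1 + 1) ⊔ span K {t} • E (p + 1)
      rw [Submodule.smul_sup, xf_comm]
      exact sup_le_sup (hN0 _) (Submodule.smul_mono le_rfl (hE p))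
  have hg : ∀ p, E (p + 1) ≤ N (p + 1) ⊔ span K {t} • E p ⊔ sp K θ' • E p := fun p => by
    induction p with
    | zero => exact h1
    | succ p ih =>
      refine (h.gen _).trans (sup_le (le_sup_left.trans le_sup_left)
        ((Submodule.smul_mono le_rfl ih).trans ?_))
      rw [Submodule.smul_sup, Submodule.smul_sup, xf_comm _ (span K {t}), xf_comm _ (sp K θ')]
      exact sup_le_sup (sup_le_sup (h.upN _) (Submodule.smul_mono le_rfl (h.upE p)))
        (Submodule.smul_mono le_rfl (h.upE p))
  refine ⟨h.fg, hl, hE, hN, hg, fun p => le_antisymm ?_ ?_⟩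
  · obtain ⟨v, -, hv⟩ := h.exists_lift
    have h2 := upper (L := 0) hN (fun p => xf_fg (hl p) (h.fg p)) (fun p _ => hg p)
      (C := sp K v) (Submodule.fg_span (Set.finite_range v)) hv p
    have h3 : finrank K (sp K v) ≤ ρ := (finrank_range_le_card v).trans_eq (Fintype.card_fin ρ)
    rw [zero_add] at h2
    exact h2.trans (Nat.add_le_add_left (Nat.mul_le_mul_right _ h3) _)
  · rcases p with _ | p
    · have h2 := h.dim 0
      rw [Nat.multichoose_zero_right] at h2 ⊢
      exact h2.ge
    · have h2 := diff t (h.fg p) (xf_fg (h.le (p + 1)) (h.fg _)) (h.le p) (htN p)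
      have h3 := h.dim p
      have h4 := h.dim (p + 1)
      rw [Nat.multichoose_succ_succ, mul_add] at h4
      show finrank K (N (p + 1) ⊔ span K {t} • E p : Submodule K W) + _ ≤ _
      omega

end Pool.Agent.Lib.MP_cf0da3_ag.Det
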