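import Pool.Agent.Lib.MP_cf0da3_ag.Det.XD
import Pool.Agent.Lib.MP_cf0da3_ag.Det.XE
import Pool.Agent.Lib.MP_cf0da3_ag.Det.XF

/-! The exchange lemma. -/

namespace Pool.Agent.Lib.MP_cf0da3_ag.Det

open Submodule Module MvPolynomial Matrix

variable {K B W : Type} [Field K] [CommRing B] [Algebra K B] [AddCommGroup W] [Module K W]
  [Module B W] [IsScalarTower K B W]

theorem xg_comm (I J : Submodule K B) (P : Submodule K W) : I • J • P ≤ J • I • P := by
  refine smul_le.2 fun a ha x hx => ?_
  refine smul_induction_on hx (fun b hb y hy => ?_) fun y z hy hz => ?_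
  · rw [smul_comm a b y]
    exact smul_mem_smul hb (smul_mem_smul ha hy)
  · rw [smul_add]
    exact add_mem hy hz

theorem xg_sp {r : ℕ} (T : Fin (r + 1) → B) : sp K T = span K {T 0} ⊔ sp K (Fin.tail T) := by
  rw [sp, Fin.range_fin_succ, span_insert]

theorem Good.exchange [Infinite K] {ρ r L : ℕ} {E N : ℕ → Submodule K W} {θ : Fin r → B}
    (h : Good ρ E N θ) {T : Fin r → B} (hTE : Up (sp K T) E) (hTN : Up (sp K T) N)
    (hL : ∀ p, L ≤ p → E (p + 1) ≤ N (p + 1) ⊔ sp K T • E p) : Good ρ E N T := by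
  induction r generalizing N with
  | zero => rwa [Subsingleton.elim T θ]
  | succ r ih =>
    obtain ⟨v, hv0, hv⟩ := h.exists_lift
    have h0 : span K {T 0} ≤ sp K T := le_sup_left.trans (xg_sp T).ge
    have ht : sp K (Fin.tail T) ≤ sp K T := le_sup_right.trans (xg_sp T).ge
    choose C hC hT using fun a => h.repr hv (0 + 1)
      (hTE 0 (smul_mem_smul (h0 (mem_span_singleton_self _)) (hv0 a)))
    obtain ⟨θ', hle, hex⟩ := exch θ (T 0) v (N 1) (C := Matrix.of C) hC
      (h.det_ne hTE hTN hL hv0 hv (C := Matrix.of C) hC hT) hT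
    have hvE : sp K v ≤ E 0 := span_le.2 (Set.range_subset_iff.2 hv0)
    have h1 : E 1 ≤ N 1 ⊔ span K {T 0} • E 0 ⊔ sp K θ' • E 0 := by
      refine (h.gen 0).trans (sup_le (le_sup_left.trans le_sup_left) ?_)
      refine (smul_mono_right _ hv).trans ?_
      rw [smul_sup]
      exact sup_le ((h.upN 0).trans (le_sup_left.trans le_sup_left)) (hex.trans
        (sup_le_sup (sup_le_sup_left (smul_mono_right _ hvE) _) (smul_mono_right _ hvE)))
    have h2 := h.step (fun p => (smul_mono_left h0).trans (hTE p))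
      (fun p => (smul_mono_left h0).trans (hTN p)) hle h1
    have hE' : Up (sp K (Fin.tail T)) E := fun p => (smul_mono_left ht).trans (hTE p)
    have hN' : Up (sp K (Fin.tail T)) (nxt (T 0) E N) := by
      rintro (_ | p)
      · exact ((smul_mono_left ht).trans (hTN 0)).trans le_sup_left
      · change _ • (N (p + 1) ⊔ span K {T 0} • E p) ≤ N (p + 1 + 1) ⊔ span K {T 0} • E (p + 1)
        rw [smul_sup]
        exact sup_le_sup ((smul_mono_left ht).trans (hTN _))
          ((xg_comm _ _ _).trans (smul_mono_right _ (hE' p)))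
    have key : ∀ p, nxt (T 0) E N (p + 1) ⊔ sp K (Fin.tail T) • E p =
        N (p + 1) ⊔ sp K T • E p := fun p => by
      rw [xg_sp T, sup_smul, ← sup_assoc]
      rfl
    have h3 := ih h2 hE' hN' fun p hp => (hL p hp).trans (key p).ge
    exact ⟨h.fg, h.le, hTE, hTN, fun p => (h3.gen p).trans (key p).le, h.dim⟩

end Pool.Agent.Lib.MP_cf0da3_ag.Det
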